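import Pool.Agent.P.MP_8f87b2_lc.KS.Dig

/-!
# Deterministic 3SUM: parameters, rows, nodes, and the mathematical statements
-/

namespace Pool.Agent.P.MP_8f87b2_lc.DT

open Finset
open KS (dg enc)

/-- the base of the digits -/
def B : ℕ := 1048576
theorem B_eq : B = 1048576 := rfl
theorem B_pow : B = 2 ^ 20 := by rw [B_eq]; norm_num
attribute [irreducible] B
theorem B_pos : 0 < B := by rw [B_eq]; norm_num
theorem one_lt_B : 1 < B := by rw [B_eq]; norm_num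

structure Cx where
  κ : ℕ
  n : ℕ
  x : ℕ → ℤ

namespace Cx

variable (c : Cx)

def k : ℕ := 1000 * c.κ
def M : ℕ := B ^ c.k
def M2 : ℕ := B ^ (2 * c.k)
def k1 : ℕ := 315 * c.κ
def Q : ℕ := 2 ^ c.κ
def Nn : ℕ := 2 ^ (19475 * c.κ)
def N4 : ℕ := 2 ^ (77900 * c.κ)
def Lb : ℕ := 77900 * c.κ + 2
def A : ℕ := 100000 * c.κ
def T : ℕ := 2 ^ c.A
/-- the bound for the number of pseudo-solutions in a no-instance -/
def Bd : ℕ := 2 ^ (38428 * c.κ)
/-- the time budget of one phase, up to polylogarithmic factors -/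
def Θ : ℕ := 2 ^ (38750 * c.κ + 100)
/-- the threshold between global and local rows at level `k'` -/
def s (k' : ℕ) : ℕ := 23 * c.κ + (c.k - k') / 16
/-- a bound for the number of nodes at the top level -/
def Nt : ℕ := 2 * c.n * 524289 ^ c.k
/-- the loss in one round of the choice of the modulus -/
def ρ : ℕ := 2 * c.κ * c.Lb

theorem M_pos : 0 < c.M := pow_pos B_pos _
theorem M2_pos : 0 < c.M2 := pow_pos B_pos _
theorem M2_eq : c.M2 = c.M * c.M := by rw [M2, M, two_mul, pow_add]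
theorem Q_pos : 0 < c.Q := by unfold Q; positivity
theorem Nn_pos : 0 < c.Nn := by unfold Nn; positivity
theorem N4_pos : 0 < c.N4 := by unfold N4; positivity
theorem T_pos : 0 < c.T := by unfold T; positivity
theorem Bd_pos : 0 < c.Bd := by unfold Bd; positivity

/-! ### Values and residues -/

def u (i : ℕ) : ℕ := (c.x i + c.N4).toNat
def v (i : ℕ) : ℕ := (2 * c.N4 - c.x i).toNat
def ga (m i : ℕ) : ℕ := c.u i % m
def gc (m i : ℕ) : ℕ := c.v i % m
/-- the target of `g = 2 i + t` -/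
def tau (m g : ℕ) : ℕ := c.gc m (g / 2) + g % 2 * m
/-- the number of entries in the cell `p` -/
def X (m p : ℕ) : ℕ := ((range c.n).filter fun a => c.ga m a = p).card
/-- the number of pseudo-solutions -/
def PS (m : ℕ) : ℕ := ((range (2 * c.n) ×ˢ range c.n ×ˢ range c.n).filter
  fun e => c.ga m e.2.1 + c.ga m e.2.2 = c.tau m e.1).card
def Yes : Prop := ∃ a < c.n, ∃ b < c.n, ∃ i < c.n, a ≠ b ∧ a ≠ i ∧ b ≠ i ∧
  c.x a + c.x b + c.x i = 0

/-! ### Rows -/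

def al (w j : ℕ) : ℕ := dg B (c.k + j) w
def df (w j : ℕ) : ℕ := dg B j w
def be (w j : ℕ) : ℕ := (c.al w j + df w j) % B
def w1 (w j : ℕ) : ℕ := w - df w j * B ^ j
def w2 (w j : ℕ) : ℕ := w1 w j - c.al w j * B ^ j * c.M + c.be w j * B ^ j * c.M
/-- the two letters of block `j` exchanged -/
def sw (w j : ℕ) : ℕ := c.w2 w j + (B - df w j) * B ^ j
def bar (w : ℕ) : ℕ := enc B c.k fun j => c.be w j

def inA (k' w p : ℕ) : Prop := ∀ j < c.k, dg B j p = c.al w j ∨ (j < k' ∧ dg B j p = c.be w j)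
def inB (k' w q : ℕ) : Prop := ∀ j < c.k, dg B j q = c.be w j ∨ (j < k' ∧ dg B j q = c.al w j)
/-- the first `i` digits of `p`, `q` are the two letters of the block, in some order -/
def cmp (i w p q : ℕ) : Prop := ∀ j < i, (dg B j p = c.al w j ∧ dg B j q = c.be w j) ∨
  (dg B j p = c.be w j ∧ dg B j q = c.al w j)
def prU (k' i w p q : ℕ) : Prop := c.inA k' w p ∧ c.inB k' w q ∧ c.cmp i w p q

instance (k' w p : ℕ) : Decidable (c.inA k' w p) := by unfold inA; infer_instance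
instance (k' w p : ℕ) : Decidable (c.inB k' w p) := by unfold inB; infer_instance
instance (i w p q : ℕ) : Decidable (c.cmp i w p q) := by unfold cmp; infer_instance
instance (k' i w p q : ℕ) : Decidable (c.prU k' i w p q) := by unfold prU; infer_instance

def FA (m k' w : ℕ) : ℕ := ((range c.n).filter fun a => c.inA k' w (c.ga m a)).card
def FB (m k' w : ℕ) : ℕ := ((range c.n).filter fun a => c.inB k' w (c.ga m a)).card
def U (m k' w i : ℕ) : ℕ :=
  ((range c.n ×ˢ range c.n).filter fun e => c.prU k' i w (c.ga m e.1) (c.ga m e.2)).card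
/-- the value of the node `z` -/
def Z (m k' z : ℕ) : ℕ := c.U m k' (z % c.M2) k'

/-- the free differences are at most one half of the base -/
def Can (k' w : ℕ) : Prop := ∀ j < k', df w j ≤ 524288
/-- the number of free blocks with one letter -/
def zer (k' w : ℕ) : ℕ := ((range k').filter fun j => df w j = 0).card
/-- global rows -/
def Gl (k' w : ℕ) : Prop := Can k' w ∧ c.s k' ≤ zer k' w

instance (k' w : ℕ) : Decidable (Can k' w) := by unfold Can; infer_instance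
instance (k' w : ℕ) : Decidable (c.Gl k' w) := by unfold Gl; infer_instance

def DLc (k' : ℕ) : ℕ := ((range c.M).filter fun y => c.Gl k' y).card

/-- the number of nonzero digits of a pattern -/
def wt (k' t : ℕ) : ℕ := ((range k').filter fun j => dg 4 j t ≠ 0).card
/-- the patterns of the local rows -/
def Pt (k' t : ℕ) : Prop := (∀ j < k', dg 4 j t ≤ 2) ∧ wt k' t < c.s k'

instance (k' t : ℕ) : Decidable (c.Pt k' t) := by unfold Pt; infer_instance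

def PLc (k' : ℕ) : ℕ := ((range (4 ^ k')).filter fun t => c.Pt k' t).card

/-- the pattern `t` applied to the first blocks of the row `w` -/
def rT (w t : ℕ) : ℕ → ℕ
  | 0 => w
  | j + 1 => if dg 4 j t = 0 then rT w t j else
      if dg 4 j t = 1 then w1 (rT w t j) j else c.w2 (rT w t j) j

/-! ### Nodes -/

def canon (a d : ℕ) : Prop := 2 * d + a / 524288 ≤ B

instance (a d : ℕ) : Decidable (canon a d) := by unfold canon; infer_instance

/-- the candidate `r = α B + d` is accepted for digit `i` of the node `z` -/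
def okE (m i z r : ℕ) : Prop := canon (r / B) (r % B) ∧
  (z % c.M2 / c.M + c.bar (z % c.M2) + (r / B + (r / B + r % B) % B) * B ^ i) % B ^ (i + 1) =
    c.tau m (z / c.M2) % B ^ (i + 1)

instance (m i z r : ℕ) : Decidable (c.okE m i z r) := by unfold okE; infer_instance

def kidE (i z r : ℕ) : ℕ := z + r / B * B ^ i * c.M + r % B * B ^ i

def chE (m i z : ℕ) : Multiset ℕ :=
  ((Multiset.range (B * B)).filter (c.okE m i z)).map (c.kidE i z)

/-- the list after `i` digits -/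
def LE (m : ℕ) : ℕ → Multiset ℕ
  | 0 => (Multiset.range (2 * c.n)).map fun g => g * c.M2
  | i + 1 => (LE m i).bind (c.chE m i)

/-- the two orientations of block `j` -/
def ori (j z : ℕ) : Multiset ℕ :=
  if df (z % c.M2) j = 0 then {z} else {z, z - z % c.M2 + c.sw (z % c.M2) j}

/-- the children of a node of level `k'` -/
def chO (m k' z : ℕ) : Multiset ℕ :=
  if c.k1 ≤ k' ∧ c.Z m k' z = 0 then 0 else c.ori (k' - 1) z

structure Node (m k' z : ℕ) : Prop where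
  g : z / c.M2 < 2 * c.n
  can : Can k' (z % c.M2)
  sum : (z % c.M2 / c.M + c.bar (z % c.M2)) % c.M = c.tau m (z / c.M2)

/-- every pseudo-solution is counted by exactly one node -/
structure LI (m k' : ℕ) (L : Multiset ℕ) : Prop where
  node : ∀ z ∈ L, c.Node m k' z
  one : ∀ g < 2 * c.n, ∀ a < c.n, ∀ b < c.n, c.ga m a + c.ga m b = c.tau m g →
    (L.filter fun z => z / c.M2 = g ∧ c.prU k' k' (z % c.M2) (c.ga m a) (c.ga m b)).card = 1

/-! ### The choice of the modulus -/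

/-- one greedy round -/
def Step (m m' : ℕ) : Prop :=
  ∃ p, 1 ≤ p ∧ p ≤ c.Q ∧ m' = m * p ∧ ∀ p', 1 ≤ p' → p' ≤ c.Q → c.PS m' ≤ c.PS (m * p')

/-- the number of triples with nonzero sum divisible by `m` -/
def Nz (m : ℕ) : ℕ := ((range c.n ×ˢ range c.n ×ˢ range c.n).filter fun e =>
  c.x e.1 + c.x e.2.1 + c.x e.2.2 ≠ 0 ∧ (m : ℤ) ∣ c.x e.1 + c.x e.2.1 + c.x e.2.2).card

/-- the number of triples with sum zero -/
def S0 : ℕ := ((range c.n ×ˢ range c.n ×ˢ range c.n).filter fun e =>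
  c.x e.1 + c.x e.2.1 + c.x e.2.2 = 0).card

def GInv (j m : ℕ) : Prop := 1 ≤ m ∧ m ≤ c.Q ^ j ∧ c.Nz m * c.Q ^ j ≤ c.n ^ 3 * c.ρ ^ j

end Cx

open Cx

/-- the facts on the input -/
structure Inp (c : Cx) : Prop where
  κ1 : 4 ≤ c.κ
  nN : c.n < c.Nn
  xb : ∀ i < c.n, |c.x i| ≤ c.N4
  inj : ∀ i < c.n, ∀ j < c.n, c.x i = c.x j → i = j

/-- an admissible modulus -/
def Md (c : Cx) (m : ℕ) : Prop := 1 ≤ m ∧ 2 * m ≤ c.M

/-! ### Statements on rows -/

/-- digits of the neighbouring rows -/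
def SDig : Prop := ∀ (c : Cx) {w j : ℕ}, w < c.M2 → j < c.k →
  df w j * B ^ j ≤ w ∧ c.al w j * B ^ j * c.M ≤ w1 w j ∧
  w1 w j < c.M2 ∧ c.w2 w j < c.M2 ∧
  (∀ i < c.k, df (w1 w j) i = (if i = j then 0 else df w i) ∧ c.al (w1 w j) i = c.al w i) ∧
  (∀ i < c.k, df (c.w2 w j) i = (if i = j then 0 else df w i) ∧
    c.al (c.w2 w j) i = if i = j then c.be w j else c.al w i) ∧
  (df w j ≠ 0 → c.sw w j < c.M2 ∧ w1 w j % c.M < w % c.M ∧ c.w2 w j % c.M < w % c.M ∧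
    ∀ i < c.k, df (c.sw w j) i = (if i = j then B - df w j else df w i) ∧
      c.al (c.sw w j) i = if i = j then c.be w j else c.al w i)

/-- the upper half, the partner and the lower half of a row -/
def STop : Prop := ∀ (c : Cx) {w : ℕ}, w < c.M2 →
  w / c.M < c.M ∧ c.bar w < c.M ∧
  (∀ j < c.k, dg B j (w / c.M) = c.al w j ∧ dg B j (c.bar w) = c.be w j ∧
    df (w % c.M) j = df w j) ∧
  ∀ k' ≤ c.k, (c.Gl k' (w % c.M) ↔ c.Gl k' w)

/-- the recursion for the tables -/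
def SRec : Prop := ∀ (c : Cx) {m k' w : ℕ}, Md c m → k' ≤ c.k → w < c.M2 →
  ((∀ j < k', df w j = 0) → c.FA m k' w = c.X m (w / c.M) ∧ c.FB m k' w = c.X m (c.bar w)) ∧
  c.U m k' w 0 = c.FA m k' w * c.FB m k' w ∧
  (∀ j < k', df w j = 0 → c.U m k' w (j + 1) = c.U m k' w j) ∧
  (∀ j < k', df w j ≠ 0 → c.FA m k' w = c.FA m k' (w1 w j) + c.FA m k' (c.w2 w j) ∧
    c.FB m k' w = c.FB m k' (w1 w j) + c.FB m k' (c.w2 w j) ∧
    c.U m k' w j = c.U m k' w (j + 1) + c.U m k' (w1 w j) j + c.U m k' (c.w2 w j) j) ∧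
  c.FA m k' w ≤ c.n ∧ c.FB m k' w ≤ c.n ∧ ∀ i, c.U m k' w i ≤ c.n * c.n

/-- global rows depend on global rows, local rows on larger patterns or global rows -/
def SDep : Prop := ∀ (c : Cx) {k' w : ℕ}, k' ≤ c.k → w < c.M2 →
  (c.Gl k' w → ∀ j < k', c.Gl k' (w1 w j) ∧ c.Gl k' (c.w2 w j)) ∧
  c.rT w 0 k' = w ∧ (∀ t j, j ≤ c.k → c.rT w t j < c.M2) ∧
  (Can k' w → ∀ t < 4 ^ k', c.Pt k' t → ∀ j < k', df (c.rT w t k') j ≠ 0 →
    ∀ w' ∈ [w1 (c.rT w t k') j, c.w2 (c.rT w t k') j],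
      c.Gl k' w' ∨ ∃ t', t < t' ∧ t' < 4 ^ k' ∧ c.Pt k' t' ∧ w' = c.rT w t' k')

/-! ### Statements on lists of nodes -/

def SEnum : Prop := ∀ (c : Cx) {m : ℕ}, Md c m → c.LI m c.k (c.LE m c.k)

/-- size of the lists and digits of their members -/
def SEnumC : Prop := ∀ (c : Cx) (m : ℕ) {i : ℕ}, i ≤ c.k →
  (c.LE m i).card ≤ 2 * c.n * 524289 ^ i ∧
  ∀ z ∈ c.LE m i, z / c.M2 < 2 * c.n ∧
    (∀ j, i ≤ j → j < c.k → df (z % c.M2) j = 0 ∧ c.al (z % c.M2) j = 0) ∧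
    ∀ r < B * B, i < c.k → c.kidE i z r / c.M2 = z / c.M2 ∧ ∀ j < c.k,
      df (c.kidE i z r % c.M2) j = (if j = i then r % B else df (z % c.M2) j) ∧
      c.al (c.kidE i z r % c.M2) j = if j = i then r / B else c.al (z % c.M2) j

def SOri : Prop := ∀ (c : Cx) {m k' : ℕ} {L : Multiset ℕ}, Md c m → 1 ≤ k' → k' ≤ c.k →
  c.LI m k' L → c.LI m (k' - 1) (L.bind (c.chO m k'))

def SSum : Prop := ∀ (c : Cx) {m k' : ℕ} {L : Multiset ℕ}, Md c m → k' ≤ c.k → c.LI m k' L →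
  (L.map (c.Z m k')).sum = c.PS m ∧ (L.bind (c.chO m k')).card ≤ 2 * L.card ∧
  (c.k1 ≤ k' → (L.bind (c.chO m k')).card ≤ 2 * c.PS m) ∧ c.PS m ≤ 2 * c.n * (c.n * c.n)

/-- the leaves -/
def SLeafM : Prop := ∀ (c : Cx) {m : ℕ} {L : Multiset ℕ}, Inp c → Md c m → c.LI m 0 L →
  (∀ a < c.n, ∀ b < c.n, ∀ i < c.n, c.x a + c.x b + c.x i = 0 → ∃ z ∈ L, z / c.M2 / 2 = i ∧
    z % c.M2 / c.M = c.ga m a ∧ c.X m (c.bar (z % c.M2)) ≠ 0) ∧
  (L.map fun z => if c.X m (c.bar (z % c.M2)) = 0 then 0 else c.X m (z % c.M2 / c.M)).sum ≤ c.PS m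

/-- the values are nonnegative words -/
def SVal : Prop := ∀ (c : Cx), Inp c → ∀ i < c.n,
  (c.u i : ℤ) = c.x i + c.N4 ∧ (c.v i : ℤ) = 2 * c.N4 - c.x i ∧
  c.u i < 4 * c.N4 ∧ c.v i < 4 * c.N4

/-! ### Statements on the modulus and on sizes -/

def SPS : Prop := ∀ (c : Cx), Inp c → (∀ m, 1 ≤ m → c.PS m = c.S0 + c.Nz m) ∧
  (¬ c.Yes → c.S0 ≤ 3 * c.n)

def SPrime : Prop := ∀ (c : Cx), Inp c → ∀ m, ∃ p, 1 ≤ p ∧ p ≤ c.Q ∧
  c.Nz (m * p) * c.Q ≤ c.ρ * c.Nz m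

def SGr : Prop := ∀ (c : Cx), Inp c → c.GInv 0 1 ∧
  ∀ j m m', c.GInv j m → c.Step m m' → c.GInv (j + 1) m'

def SGrEnd : Prop := ∀ (c : Cx), Inp c → c.ρ ^ 19999 ≤ 2 ^ c.κ →
  (∀ j < 19999, ∀ m p, c.GInv j m → 1 ≤ p → p ≤ c.Q → Md c (m * p)) ∧
  ∀ m, c.GInv 19999 m → Md c m ∧ (¬ c.Yes → c.PS m ≤ c.Bd)

def SCnt : Prop := ∀ (c : Cx) {k' : ℕ}, k' ≤ c.k →
  c.DLc k' * 2 ^ (15 * c.s k') ≤ (17 * 2 ^ 15) ^ k' * B ^ (c.k - k') ∧
  c.PLc k' * 16 ^ k' ≤ 16 ^ c.s k' * 18 ^ k'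

/-- the sizes of the phases -/
structure Th (c : Cx) : Prop where
  g : ∀ k', c.k1 ≤ k' → k' ≤ c.k → c.Q * (c.M * (c.DLc k' + 1)) ≤ c.Θ
  l1 : c.Q * (c.Nt * (c.PLc c.k + 1)) ≤ c.Θ
  l2 : ∀ k', c.k1 ≤ k' → k' ≤ c.k → 2 * c.Bd * (c.PLc k' + 1) ≤ c.Θ
  e : 2 * c.Bd * 2 ^ c.k1 ≤ c.Θ
  p : c.Q * 4 ^ c.k ≤ c.Θ
  n : c.Q * (c.n + 1) ≤ c.Θ

def STh : Prop := ∀ (c : Cx), 1 ≤ c.κ → c.n < c.Nn → Th c

end Pool.Agent.P.MP_8f87b2_lc.DT
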