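import Pool.Agent.P.MP_8f87b2_lc.DT.Base

/-!
# Deterministic 3SUM: the numbers of global rows and of patterns
-/

namespace Pool.Agent.P.MP_8f87b2_lc.DT

open Finset
open KS (dg enc)
open Cx

namespace CntP

/-- the weight of a digit -/
def wg (C D x : ℕ) : ℕ := if x = 0 then C else if x ≤ D then 1 else 0

theorem sum_wg (b C D : ℕ) : ∑ x ∈ range b, wg C D x ≤ C + D := by
  have h : ∀ x ∈ range b, wg C D x ≤
      (if x = 0 then C else 0) + (if x ∈ Icc 1 D then 1 else 0) := by
    intro x _
    unfold wg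
    simp only [mem_Icc]
    split_ifs <;> omega
  refine (sum_le_sum h).trans ?_
  rw [sum_add_distrib]
  refine add_le_add ?_ ?_
  · rw [sum_ite_eq']
    split_ifs <;> omega
  · rw [← card_filter]
    refine (card_le_card (fun x hx => (mem_filter.mp hx).2)).trans ?_
    simp

theorem prod_wg {b k' C D w : ℕ} (h : ∀ j < k', dg b j w ≤ D) :
    ∏ j ∈ range k', wg C D (dg b j w) = C ^ ((range k').filter fun j => dg b j w = 0).card := by
  have e : ∀ j ∈ range k', wg C D (dg b j w) = if dg b j w = 0 then C else 1 := by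
    intro j hj
    unfold wg
    rw [if_pos (h j (mem_range.mp hj))]
  rw [prod_congr rfl e, prod_ite, prod_const, prod_const, one_pow, mul_one]

theorem prod_split {k' q : ℕ} (hk : k' ≤ q) (f : ℕ → ℕ) (y : ℕ) :
    ∏ a ∈ range q, (if a < k' then f a else y) = (∏ a ∈ range k', f a) * y ^ (q - k') := by
  obtain ⟨r, rfl⟩ := Nat.exists_eq_add_of_le hk
  rw [prod_range_add, Nat.add_sub_cancel_left]
  have e1 : ∏ a ∈ range k', (if a < k' then f a else y) = ∏ a ∈ range k', f a :=
    prod_congr rfl fun a ha => if_pos (mem_range.mp ha)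
  have e2 : ∏ a ∈ range r, (if k' + a < k' then f (k' + a) else y) = y ^ r := by
    rw [prod_congr rfl fun a _ => if_neg (show ¬ k' + a < k' by omega), prod_const, card_range]
  rw [e1, e2]

theorem main {b q k' C D z : ℕ} (hk : k' ≤ q) (hC : 1 ≤ C) (S : Finset ℕ)
    (hS : S ⊆ range (b ^ q)) (h1 : ∀ w ∈ S, ∀ j < k', dg b j w ≤ D)
    (h2 : ∀ w ∈ S, z ≤ ((range k').filter fun j => dg b j w = 0).card) :
    S.card * C ^ z ≤ (C + D) ^ k' * b ^ (q - k') := by
  have h := KS.sum_dg_prod (α := ℕ) b q fun a x => if a < k' then wg C D x else 1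
  have l1 : S.card * C ^ z ≤
      ∑ w ∈ S, ∏ a ∈ range q, (if a < k' then wg C D (dg b a w) else 1) := by
    rw [← smul_eq_mul]
    refine card_nsmul_le_sum _ _ _ fun w hw => ?_
    rw [prod_split hk, one_pow, mul_one, prod_wg (h1 w hw)]
    exact Nat.pow_le_pow_right hC (h2 w hw)
  have l2 : ∑ w ∈ S, ∏ a ∈ range q, (if a < k' then wg C D (dg b a w) else 1) ≤
      ∑ w ∈ range (b ^ q), ∏ a ∈ range q, (if a < k' then wg C D (dg b a w) else 1) :=
    sum_le_sum_of_subset hS
  have l3 : ∀ a ∈ range q, ∑ x ∈ range b, (if a < k' then wg C D x else 1) =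
      if a < k' then ∑ x ∈ range b, wg C D x else b := by
    intro a _
    split_ifs
    · rfl
    · simp
  refine l1.trans (l2.trans (h.le.trans ?_))
  rw [prod_congr rfl l3, prod_split hk, prod_const, card_range]
  exact Nat.mul_le_mul_right _ (Nat.pow_le_pow_left (sum_wg b C D) _)

end CntP

theorem sCnt : SCnt := by
  intro c k' hk
  constructor
  · have h := CntP.main (b := B) (q := c.k) (C := 2 ^ 15) (D := 524288) (z := c.s k') hk
      (by norm_num) ((range c.M).filter fun y => c.Gl k' y) (filter_subset _ _)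
      (fun w hw => (mem_filter.mp hw).2.1) (fun w hw => (mem_filter.mp hw).2.2)
    rw [← pow_mul, show 2 ^ 15 + 524288 = 17 * 2 ^ 15 by norm_num] at h
    exact h
  · have hz : ∀ t ∈ (range (4 ^ k')).filter fun t => c.Pt k' t,
        k' - c.s k' ≤ ((range k').filter fun j => dg 4 j t = 0).card := by
      intro t ht
      have h1 : wt k' t < c.s k' := (mem_filter.mp ht).2.2
      have h2 := card_filter_add_card_filter_not (s := range k') (fun j => dg 4 j t = 0)
      rw [card_range] at h2
      have h3 : wt k' t = ((range k').filter fun j => ¬ dg 4 j t = 0).card := rfl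
      omega
    have h := CntP.main (b := 4) (q := k') (C := 16) (D := 2) (z := k' - c.s k') le_rfl
      (by norm_num) ((range (4 ^ k')).filter fun t => c.Pt k' t) (filter_subset _ _)
      (fun w hw => (mem_filter.mp hw).2.1) hz
    rw [Nat.sub_self, pow_zero, mul_one] at h
    have e : 16 ^ k' ≤ 16 ^ c.s k' * 16 ^ (k' - c.s k') := by
      rw [← pow_add]
      exact Nat.pow_le_pow_right (by norm_num) (by omega)
    calc c.PLc k' * 16 ^ k' ≤ c.PLc k' * (16 ^ c.s k' * 16 ^ (k' - c.s k')) :=
          Nat.mul_le_mul_left _ e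
      _ = 16 ^ c.s k' * (c.PLc k' * 16 ^ (k' - c.s k')) := by ring
      _ ≤ 16 ^ c.s k' * 18 ^ k' := Nat.mul_le_mul_left _ h

end Pool.Agent.P.MP_8f87b2_lc.DT
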