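import Pool.Agent.P.MP_8f87b2_lc.PhaseB
import Pool.Agent.P.MP_8f87b2_lc.Compile
import Pool.Agent.P.MP_8f87b2_lc.DT.Base

/-!
# Deterministic 3SUM: the program, the invariants and the specifications of its fragments
-/

namespace Pool.Agent.P.MP_8f87b2_lc.DT

open Finset
open KS (dg enc)
open Cx

/-- one if the values are equal, else zero -/
abbrev eeq (a b : Expr) : Expr := eand (elt a (eadd b (.c 1))) (elt b (eadd a (.c 1)))
/-- two to the power `e` -/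
abbrev epw (e : Expr) : Expr := eshr (.v 10) (esub (.v 11) e)
/-- reduction modulo the base -/
abbrev emB (a : Expr) : Expr := eand a (.c 1048575)
/-- digit number `e` of `R[x]` -/
abbrev edg (x : ℕ) (e : Expr) : Expr := emB (eshr (.v x) (emul (.c 20) e))
/-- digit number `R[42]` of `R[x]` in base four -/
abbrev ed4 (x : ℕ) : Expr := eand (eshr (.v x) (emul (.c 2) (.v 42))) (.c 3)
/-- the row of the node `R[36]` -/
abbrev erow : Expr := eand (.v 36) (esub (.v 5) (.c 1))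
/-- the address of entry `R[j]` of the row `R[x]` -/
abbrev eU (j x : ℕ) : Expr := eadd (emul (.v j) (.v 5)) (.v x)
/-- the value `u` of entry `e` -/
abbrev euv (e : Expr) : Expr := radd (.inp (eadd e (.c 1))) (.v 12)
/-- the value `v` of entry `e` -/
abbrev evv (e : Expr) : Expr := rsub (eadd (.v 12) (.v 12)) (.inp (eadd e (.c 1)))

/-! ### The program -/

def pSize (κ0 : ℕ) : Stmt := blk
  [.set 1 (.inp (.c 0)), .set 2 (.c κ0),
    .wh (eshr (.v 1) (emul (.c 19475) (.v 2))) (.set 2 (einc 2))]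

def pSetup (κ0 : ℕ) : Stmt := blk
  [pSize κ0, .set 11 (emul (.c 100000) (.v 2)), .set 10 (.c 1),
    forL 31 11 (.set 10 (eadd (.v 10) (.v 10))),
    .set 3 (emul (.c 1000) (.v 2)), .set 6 (emul (.c 20) (.v 3)), .set 19 (emul (.c 40) (.v 3)),
    .set 4 (epw (.v 6)), .set 5 (epw (.v 19)), .set 7 (emul (.c 315) (.v 2)),
    .set 8 (epw (.v 2)), .set 9 (.c 19999), .set 12 (epw (emul (.c 77900) (.v 2))),
    .set 13 (eadd (emul (.c 77900) (.v 2)) (.c 3)), .set 14 (epw (emul (.c 38428) (.v 2))),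
    .set 15 (emul (.c 23) (.v 2)), .set 16 (eadd (.v 1) (.v 1)), .set 17 (epw (.c 40)),
    .set 18 (epw (emul (.c 19475) (.v 2)))]

/-- bank 4 maps the value `u i` to `i + 1` -/
def pPres : Stmt := forL 34 1 (.st 4 (euv (.v 34)) (einc 34))

/-- reduce `R[57]` modulo `R[20]` -/
def pMod : Stmt := blk
  [.set 58 (emul (.v 20) (epw (esub (.v 13) (.c 1)))), forL 59 13 (blk
    [.ite (elt (.v 57) (.v 58)) .skip (.set 57 (esub (.v 57) (.v 58))),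
      .set 58 (eshr (.v 58) (.c 1))])]

def pHashIn : Stmt := blk
  [.set 57 (evv (.v 34)), pMod, .st 1 (.v 34) (.v 57),
    .set 57 (euv (.v 34)), pMod,
    .st 3 (eadd (emul (.v 57) (.v 18)) (.ld 2 (.v 57))) (.v 34),
    .st 2 (.v 57) (eadd (.ld 2 (.v 57)) (.c 1))]

/-- residues, cell counts and cell contents for the modulus `R[20]` -/
def pHash : Stmt := blk [forL 34 4 (.st 2 (.v 34) (.c 0)), forL 34 1 pHashIn]

/-- the data of block `R[42]` of the row `R[x]` -/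
def pDep (x : ℕ) : Stmt := blk
  [.set 43 (edg x (.v 42)), .set 44 (edg x (eadd (.v 3) (.v 42))),
    .set 45 (epw (emul (.c 20) (.v 42))), .set 46 (esub (.v x) (emul (.v 43) (.v 45))),
    .set 47 (emB (eadd (.v 44) (.v 43))),
    .set 48 (eadd (esub (.v 46) (emul (emul (.v 44) (.v 45)) (.v 4)))
      (emul (emul (.v 47) (.v 45)) (.v 4)))]

def pBar (x : ℕ) : Stmt := blk
  [.set 49 (.c 0), forL 42 3 (blk [pDep x, .set 49 (eadd (.v 49) (emul (.v 47) (.v 45)))])]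

def pRowF : Stmt := forL 42 21 (blk [pDep 41, .ite (.v 43) (blk
  [.set 50 (eadd (.ld 7 (.v 46)) (.ld 7 (.v 48))), .set 51 (eadd (.ld 8 (.v 46)) (.ld 8 (.v 48)))])
  .skip])

def pRowU : Stmt := forL 42 21 (blk [.st 9 (eU 42 41) (.v 52), pDep 41, .ite (.v 43)
  (.set 52 (esub (esub (.v 52) (.ld 9 (eU 42 46))) (.ld 9 (eU 42 48)))) .skip])

/-- fill the row `R[41]` -/
def pRow : Stmt := blk
  [pBar 41, .set 50 (.ld 2 (eshr (.v 41) (.v 6))), .set 51 (.ld 2 (.v 49)), pRowF,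
    .st 7 (.v 41) (.v 50), .st 8 (.v 41) (.v 51), .set 52 (emul (.v 50) (.v 51)), pRowU,
    .st 9 (eU 21 41) (.v 52)]

/-- variable 55 is nonzero iff `R[53]` is the lower half of global rows -/
def pTestG : Stmt := blk
  [.set 55 (.c 1), .set 56 (.c 0), forL 42 21 (blk
    [.set 43 (edg 53 (.v 42)), .ite (elt (.c 524288) (.v 43)) (.set 55 (.c 0)) .skip,
      .ite (.v 43) .skip (.set 56 (einc 56))]),
    .ite (elt (.v 56) (.v 22)) (.set 55 (.c 0)) .skip]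

def pGlob : Stmt := forL 53 4 (blk [pTestG, .ite (.v 55)
  (forL 54 4 (blk [.set 41 (eadd (emul (.v 54) (.v 4)) (.v 53)), pRow])) .skip])

/-- variable 55 is nonzero iff `R[40]` is a pattern -/
def pTestP : Stmt := blk
  [.set 55 (.c 1), .set 56 (.c 0), forL 42 21 (blk
    [.set 70 (ed4 40), .ite (elt (.c 2) (.v 70)) (.set 55 (.c 0)) .skip,
      .ite (.v 70) (.set 56 (einc 56)) .skip]),
    .ite (elt (.v 56) (.v 22)) .skip (.set 55 (.c 0))]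

/-- list the patterns in decreasing order -/
def pPat : Stmt := blk
  [.set 68 (epw (emul (.c 2) (.v 21))), .set 23 (.c 0), forL 69 68 (blk
    [.set 40 (esub (.v 68) (einc 69)), pTestP,
      .ite (.v 55) (blk [.st 10 (.v 23) (.v 40), .set 23 (einc 23)]) .skip])]

/-- apply the pattern `R[40]` to the row `R[37]` -/
def pApply : Stmt := blk
  [.set 41 (.v 37), forL 42 21 (blk [.set 70 (ed4 40), .ite (.v 70) (blk
    [pDep 41, .ite (elt (.c 1) (.v 70)) (.set 41 (.v 48)) (.set 41 (.v 46))]) .skip])]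

/-- fill the local rows of `R[37]` and read its value -/
def pLoc : Stmt := blk
  [forL 39 23 (blk [.set 40 (.ld 10 (.v 39)), pApply, pRow]), .set 38 (.ld 9 (eU 21 37))]

def pPush (e : Expr) : Stmt := blk [.st 6 (.v 25) e, .set 25 (einc 25)]

def pCopy : Stmt := blk [forL 67 25 (.st 5 (.v 67) (.ld 6 (.v 67))), .set 24 (.v 25)]

def pKid : Stmt := blk
  [.set 65 (eshr (.v 64) (.c 20)), .set 66 (emB (.v 64)),
    .ite (eand (elt (eadd (eadd (.v 66) (.v 66)) (eshr (.v 65) (.c 19))) (.c 1048577))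
        (eeq (eand (eadd (.v 62) (emul (eadd (.v 65) (emB (eadd (.v 65) (.v 66)))) (.v 60)))
          (.v 63)) (.v 61)))
      (pPush (eadd (eadd (.v 36) (emul (emul (.v 65) (.v 60)) (.v 4))) (emul (.v 66) (.v 60))))
      .skip]

/-- the children of the node number `R[35]` for the digit `R[34]` -/
def pPar : Stmt := blk
  [.set 36 (.ld 5 (.v 35)), .set 37 erow, pBar 37,
    .set 62 (eadd (eshr (.v 37) (.v 6)) (.v 49)), .set 71 (eshr (.v 36) (.v 19)),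
    .set 61 (eand (eadd (.ld 1 (eshr (.v 71) (.c 1))) (emul (eand (.v 71) (.c 1)) (.v 20)))
      (.v 63)),
    forL 64 17 pKid]

def pEnum : Stmt := blk
  [forL 35 16 (.st 5 (.v 35) (emul (.v 35) (.v 5))), .set 24 (.v 16),
    forL 34 3 (blk [.set 60 (epw (emul (.c 20) (.v 34))),
      .set 63 (esub (emul (.v 60) (.c 1048576)) (.c 1)), .set 25 (.c 0), forL 35 24 pPar, pCopy])]

/-- treat the node number `R[35]` -/
def pNode : Stmt := blk
  [.set 36 (.ld 5 (.v 35)), .set 37 erow, .ite (.v 27) pLoc (.set 38 (.c 1)),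
    .set 26 (eadd (.v 26) (.v 38)),
    .ite (.v 38) (blk [pPush (.v 36), .set 42 (esub (.v 21) (.c 1)), pDep 37,
      .ite (.v 43) (pPush (eadd (esub (.v 36) (.v 37))
        (eadd (.v 48) (emul (esub (.c 1048576) (.v 43)) (.v 45))))) .skip]) .skip]

def pLevel : Stmt := blk
  [.set 22 (eadd (.v 15) (eshr (esub (.v 3) (.v 21)) (.c 4))), .set 27 (elt (.v 7) (einc 21)),
    .ite (.v 27) (blk [pPat, pGlob]) .skip, .set 26 (.c 0), .set 25 (.c 0), forL 35 24 pNode,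
    pCopy]

def pInit : Stmt := blk [pHash, pEnum, .set 21 (.v 3)]

def pTry : Stmt := blk
  [.set 20 (emul (.v 28) (einc 32)), pInit, pLevel,
    .ite (elt (.v 26) (.v 29)) (blk [.set 29 (.v 26), .set 30 (einc 32)]) .skip]

def pRound : Stmt := blk
  [.set 29 (.v 10), .set 30 (.c 1), forL 32 8 pTry, .set 28 (emul (.v 28) (.v 30))]

def pGreedy : Stmt := blk [.set 28 (.c 1), forL 31 9 pRound]

/-- look for a solution with the entries `R[72]` and `R[71]` -/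
def pLook : Stmt := blk
  [.set 72 (.ld 3 (eadd (emul (.v 62) (.v 18)) (.v 73))), .set 57 (euv (.v 72)),
    .ite (elt (.v 75) (.v 57)) .skip (blk
      [.set 76 (.ld 4 (esub (.v 75) (.v 57))),
        .ite (.v 76) (.ite (eeq (.v 76) (einc 72)) .skip (.ite (eeq (.v 76) (einc 71)) .skip
          (.ite (eeq (.v 72) (.v 71)) .skip (.set 0 (.c 1))))) .skip])]

def pLeaf : Stmt := forL 35 24 (blk
  [.set 36 (.ld 5 (.v 35)), .set 37 erow, pBar 37, .ite (.ld 2 (.v 49)) (blk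
    [.set 62 (eshr (.v 37) (.v 6)), .set 71 (eshr (eshr (.v 36) (.v 19)) (.c 1)),
      .set 75 (evv (.v 71)), .set 74 (.ld 2 (.v 62)), forL 73 74 pLook]) .skip])

def pDesc : Stmt := forL 33 3 (blk [pLevel, .set 21 (esub (.v 21) (.c 1))])

def pFin : Stmt := blk [.set 20 (.v 28), pInit, pDesc, pLeaf]

def pRest : Stmt := blk [pPres, pGreedy, .ite (elt (.v 14) (.v 29)) (.set 0 (.c 1)) pFin]

def pMain (κ0 : ℕ) : Stmt := .seq (pSetup κ0) pRest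

/-! ### Costs -/

namespace Cx

variable (c : Cx)

def tMod : ℕ := 5 * c.Lb + 10
def tHash : ℕ := 3 * c.M + c.n * (2 * c.tMod + 10) + 10
def tBar : ℕ := 10 * c.k + 5
def tRow : ℕ := 40 * c.k + 20
def tTest : ℕ := 8 * c.k + 10
def tGlob (k' : ℕ) : ℕ := c.M * (c.tTest + 6) + c.DLc k' * (c.M * (c.tRow + 3)) + 2
def tPat : ℕ := 4 ^ c.k * (c.tTest + 8) + 5
def tApply : ℕ := 12 * c.k + 5
def tLoc (k' : ℕ) : ℕ := c.PLc k' * (c.tApply + c.tRow + 5) + 5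
def tEnum : ℕ := 6 * c.n + 10 + c.k * (c.Nt * (c.tBar + 10 * (B * B) + 20) + 20)
def tLevel (k' len : ℕ) : ℕ :=
  (if c.k1 ≤ k' then c.tPat + c.tGlob k' + len * c.tLoc k' else 0) + len * 40 + 20
def tInit : ℕ := c.tHash + c.tEnum + 1
def tTry : ℕ := c.tInit + c.tLevel c.k c.Nt + 5
def tGreedy : ℕ := 19999 * (c.Q * (c.tTry + 2) + 10) + 5
/-- a bound for the cost of one level of the descent -/
def tLev : ℕ := 300 * (c.k + 1) * c.Θ
def tLeaf : ℕ := c.Θ * (c.tBar + 30) + 2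
def tFin : ℕ := c.tInit + c.k * (c.tLev + 3) + c.tLeaf + 5
def tAll : ℕ := 10 * c.A + 3 * c.n + c.tGreedy + c.tFin + 10

theorem B_pw (j : ℕ) : B ^ j = 2 ^ (20 * j) := by rw [B_pow, pow_mul]

/-- the value of `emB` -/
theorem and_B (a : ℕ) : a &&& 1048575 = a % B := by
  rw [B_pow]; exact Nat.and_two_pow_sub_one_eq_mod a 20

/-- the value of `edg` -/
theorem edg_eq (w a : ℕ) : (w >>> (20 * a)) &&& 1048575 = dg B a w := by
  rw [and_B, Nat.shiftRight_eq_div_pow, ← B_pw, dg]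

/-- the value of `ed4` -/
theorem ed4_eq (w a : ℕ) : (w >>> (2 * a)) &&& 3 = dg 4 a w := by
  rw [show (3 : ℕ) = 2 ^ 2 - 1 from rfl, Nat.and_two_pow_sub_one_eq_mod,
    Nat.shiftRight_eq_div_pow, pow_mul, dg]
  rfl

/-- the value of `epw` -/
theorem epw_eq {e : ℕ} (h : e ≤ c.A) : c.T >>> (c.A - e) = 2 ^ e := by
  rw [Nat.shiftRight_eq_div_pow, T, Nat.pow_div (Nat.sub_le _ _) (by norm_num),
    Nat.sub_sub_self h]

theorem and_pw (a j : ℕ) : a &&& (B ^ j - 1) = a % B ^ j := by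
  rw [B_pw]; exact Nat.and_two_pow_sub_one_eq_mod _ _

/-- the value of `erow` -/
theorem and_M2 (a : ℕ) : a &&& (c.M2 - 1) = a % c.M2 := and_pw _ _

theorem shr_M (a : ℕ) : a >>> (20 * c.k) = a / c.M := by
  rw [Nat.shiftRight_eq_div_pow, M, B_pw]

theorem shr_M2 (a : ℕ) : a >>> (40 * c.k) = a / c.M2 := by
  rw [Nat.shiftRight_eq_div_pow, M2, B_pw, show 20 * (2 * c.k) = 40 * c.k by ring]

theorem eeq_val (a b : ℕ) :
    ((if a < b + 1 then 1 else 0) &&& if b < a + 1 then 1 else 0 : ℕ) = if a = b then 1 else 0 := by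
  split_ifs <;> first | rfl | omega

end Cx

/-! ### Invariants -/

/-- the parameter variables hold their values -/
structure Par (c : Cx) (σ : St) : Prop where
  n : σ.var 1 = c.n
  k : σ.var 3 = c.k
  M : σ.var 4 = c.M
  M2 : σ.var 5 = c.M2
  lb : σ.var 6 = 20 * c.k
  k1 : σ.var 7 = c.k1
  Q : σ.var 8 = c.Q
  J : σ.var 9 = 19999
  T : σ.var 10 = c.T
  A : σ.var 11 = c.A
  N4 : σ.var 12 = c.N4
  Lb : σ.var 13 = c.Lb + 1
  Bd : σ.var 14 = c.Bd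
  s0 : σ.var 15 = 23 * c.κ
  n2 : σ.var 16 = 2 * c.n
  BB : σ.var 17 = B * B
  Nn : σ.var 18 = c.Nn
  lb2 : σ.var 19 = 40 * c.k

def parVars : List ℕ := [1, 3, 4, 5, 6, 7, 8, 9, 10, 11, 12, 13, 14, 15, 16, 17, 18, 19]

theorem Par.frame {c : Cx} {σ σ' : St} {vs bs : List ℕ} {r : Bool} (h : Par c σ)
    (hF : Frame vs bs r σ σ') (hv : ∀ x ∈ parVars, x ∉ vs) : Par c σ' := by
  have e : ∀ x ∈ parVars, σ'.var x = σ.var x := fun x hx => hF.var x (hv x hx)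
  exact ⟨(e 1 (by decide)).trans h.n, (e 3 (by decide)).trans h.k, (e 4 (by decide)).trans h.M,
    (e 5 (by decide)).trans h.M2, (e 6 (by decide)).trans h.lb, (e 7 (by decide)).trans h.k1,
    (e 8 (by decide)).trans h.Q, (e 9 (by decide)).trans h.J, (e 10 (by decide)).trans h.T,
    (e 11 (by decide)).trans h.A, (e 12 (by decide)).trans h.N4, (e 13 (by decide)).trans h.Lb,
    (e 14 (by decide)).trans h.Bd, (e 15 (by decide)).trans h.s0, (e 16 (by decide)).trans h.n2,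
    (e 17 (by decide)).trans h.BB, (e 18 (by decide)).trans h.Nn, (e 19 (by decide)).trans h.lb2⟩

theorem frame_setv (σ : St) (x v : ℕ) : Frame [x] [] false σ (σ.setv x v) :=
  (Frame.refl _ _ _ _).of_setv (by simp)

theorem frame_setm (σ : St) (k a v : ℕ) : Frame [] [k] false σ (σ.setm k a v) :=
  ⟨fun _ _ => rfl, fun j hj => by simp [show j ≠ k by simpa using hj], fun _ => rfl⟩

/-- size facts relating the parameters and the environment -/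
structure Bnd (c : Cx) (E : Env) : Prop where
  inp : Inp c
  th : Th c
  n1 : E.n1 = c.n + 1
  rd : ∀ i < c.n, E.inp (i + 1) = (c.x i % E.W).toNat
  lim : E.Lim = c.T
  big : 2000 * c.T < E.W
  lA : 100 * c.A ≤ c.T
  kA : 40 * c.k + 40 ≤ c.A
  LA : c.Lb + 1 ≤ c.A
  lB : 8 * (B * B) ≤ c.T
  lz : (2 * c.n + 4) * (B * c.M2) ≤ c.T
  lU : (c.k + 1) * c.M2 ≤ c.T
  lK : c.M * c.Nn ≤ c.T
  l4 : 4 * c.N4 ≤ c.T
  lm : c.M * 2 ^ c.Lb ≤ c.T
  lΘ : 4 * c.Θ ≤ c.T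
  lP : 2 * c.n * (c.n * c.n) < c.T

namespace Bnd

variable {c : Cx} {E : Env} (h : Bnd c E)
include h

theorem lM2 : c.M2 ≤ c.T := (Nat.le_mul_of_pos_left _ (Nat.succ_pos _)).trans h.lU
theorem lM : c.M ≤ c.T := (Nat.le_mul_of_pos_right _ c.Nn_pos).trans h.lK
theorem lN : c.Nn ≤ c.T := (Nat.le_mul_of_pos_left _ c.M_pos).trans h.lK
theorem ln : c.n < c.T := h.inp.nN.trans_le h.lN
theorem l20 : 8 * (1048576 * 1048576) ≤ c.T := B_eq ▸ h.lB
theorem k1 : 1 ≤ c.k := by have := h.inp.κ1; unfold Cx.k; omega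
theorem k1k : c.k1 ≤ c.k := by unfold Cx.k Cx.k1; omega
theorem lz' : (2 * c.n + 4) * c.M2 ≤ c.T :=
  (Nat.mul_le_mul_left _ (Nat.le_mul_of_pos_left _ B_pos)).trans h.lz
theorem lnn : c.n * c.n ≤ c.T := by
  have := h.lP
  rcases Nat.eq_zero_or_pos c.n with e | e
  · simp [e]
  · nlinarith
theorem Nt : c.Nt ≤ c.Θ :=
  ((Nat.le_mul_of_pos_right _ (Nat.succ_pos _)).trans (Nat.le_mul_of_pos_left _ c.Q_pos)).trans
    h.th.l1
theorem p4 : 4 ^ c.k ≤ c.Θ := (Nat.le_mul_of_pos_left _ c.Q_pos).trans h.th.p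
theorem Θ1 : 1 ≤ c.Θ := le_trans Nat.one_le_two_pow le_rfl

end Bnd

/-- bank 4 is the table of the values -/
def Prs (c : Cx) (σ : St) : Prop := (∀ i < c.n, σ.bank 4 (c.u i) = i + 1) ∧
  ∀ a, σ.bank 4 a ≠ 0 → ∃ i < c.n, σ.bank 4 a = i + 1 ∧ c.u i = a

/-- the data of the modulus `m` are in place -/
structure Hs (c : Cx) (m : ℕ) (σ : St) : Prop where
  par : Par c σ
  md : Md c m
  hm : σ.var 20 = m
  gc : ∀ i < c.n, σ.bank 1 i = c.gc m i
  X : ∀ p < c.M, σ.bank 2 p = c.X m p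
  bk : ∀ p < c.M, ∀ j < c.X m p, σ.bank 3 (p * c.Nn + j) < c.n
  bk' : ∀ a < c.n, ∃ j < c.X m (c.ga m a), σ.bank 3 (c.ga m a * c.Nn + j) = a

theorem Hs.frame {c : Cx} {m : ℕ} {σ σ' : St} {vs bs : List ℕ} {r : Bool} (h : Hs c m σ)
    (hF : Frame vs bs r σ σ') (hv : ∀ x ∈ 20 :: parVars, x ∉ vs)
    (hb : ∀ k ∈ [1, 2, 3], k ∉ bs) : Hs c m σ' := by
  have e : ∀ k ∈ [1, 2, 3], σ'.bank k = σ.bank k := fun k hk => hF.bank k (hb k hk)
  exact ⟨h.par.frame hF fun x hx => hv x (List.mem_cons_of_mem _ hx), h.md,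
    (hF.var 20 (hv 20 (by decide))).trans h.hm, e 1 (by decide) ▸ h.gc, e 2 (by decide) ▸ h.X,
    e 3 (by decide) ▸ h.bk, e 3 (by decide) ▸ h.bk'⟩

/-- the level is `k'` -/
structure Lv (c : Cx) (m k' : ℕ) (σ : St) : Prop where
  hs : Hs c m σ
  kp : σ.var 21 = k'
  le : k' ≤ c.k
  s : σ.var 22 = c.s k'

theorem Lv.frame {c : Cx} {m k' : ℕ} {σ σ' : St} {vs bs : List ℕ} {r : Bool} (h : Lv c m k' σ)
    (hF : Frame vs bs r σ σ') (hv : ∀ x ∈ 21 :: 22 :: 20 :: parVars, x ∉ vs)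
    (hb : ∀ k ∈ [1, 2, 3], k ∉ bs) : Lv c m k' σ' :=
  ⟨h.hs.frame hF (fun x hx => hv x (List.mem_cons_of_mem _ (List.mem_cons_of_mem _ hx))) hb,
    (hF.var 21 (hv 21 (by decide))).trans h.kp, h.le, (hF.var 22 (hv 22 (by decide))).trans h.s⟩

/-- the row `w` is filled -/
def Fil (c : Cx) (m k' : ℕ) (σ : St) (w : ℕ) : Prop :=
  σ.bank 7 w = c.FA m k' w ∧ σ.bank 8 w = c.FB m k' w ∧
    ∀ i ≤ k', σ.bank 9 (i * c.M2 + w) = c.U m k' w i

/-- filled rows stay filled -/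
def Keeps (c : Cx) (m k' : ℕ) (σ σ' : St) : Prop := ∀ w < c.M2, Fil c m k' σ w → Fil c m k' σ' w

theorem Keeps.refl (c : Cx) (m k' : ℕ) (σ : St) : Keeps c m k' σ σ := fun _ _ h => h

theorem Keeps.trans {c : Cx} {m k' : ℕ} {σ σ' σ'' : St} (h₁ : Keeps c m k' σ σ')
    (h₂ : Keeps c m k' σ' σ'') : Keeps c m k' σ σ'' := fun w hw h => h₂ w hw (h₁ w hw h)

theorem Keeps.of_frame {c : Cx} {m k' : ℕ} {σ σ' : St} {vs bs : List ℕ} {r : Bool}
    (hF : Frame vs bs r σ σ') (hb : ∀ k ∈ [7, 8, 9], k ∉ bs) : Keeps c m k' σ σ' := by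
  intro w _ h
  unfold Fil
  rw [hF.bank 7 (hb 7 (by decide)), hF.bank 8 (hb 8 (by decide)), hF.bank 9 (hb 9 (by decide))]
  exact h

/-- bank 10 lists the patterns in decreasing order -/
structure Pats (c : Cx) (k' : ℕ) (σ : St) : Prop where
  len : σ.var 23 = c.PLc k'
  mem : ∀ i < c.PLc k', σ.bank 10 i < 4 ^ k' ∧ c.Pt k' (σ.bank 10 i)
  dec : ∀ i j, i < j → j < c.PLc k' → σ.bank 10 j < σ.bank 10 i
  all : ∀ t < 4 ^ k', c.Pt k' t → ∃ i < c.PLc k', σ.bank 10 i = t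

/-- the tables of level `k'` are in place -/
structure Tab (c : Cx) (m k' : ℕ) (σ : St) : Prop where
  lv : Lv c m k' σ
  pats : Pats c k' σ
  gl : ∀ w < c.M2, c.Gl k' w → Fil c m k' σ w

theorem Tab.keep {c : Cx} {m k' : ℕ} {σ σ' : St} {vs bs : List ℕ} {r : Bool} (h : Tab c m k' σ)
    (hF : Frame vs bs r σ σ') (hv : ∀ x ∈ 23 :: 21 :: 22 :: 20 :: parVars, x ∉ vs)
    (hb : ∀ k ∈ [10, 1, 2, 3], k ∉ bs) (hK : Keeps c m k' σ σ') : Tab c m k' σ' := by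
  have e := hF.bank 10 (hb 10 (by decide))
  exact ⟨h.lv.frame hF (fun x hx => hv x (List.mem_cons_of_mem _ hx))
      fun x hx => hb x (List.mem_cons_of_mem _ hx),
    ⟨(hF.var 23 (hv 23 (by decide))).trans h.pats.len, e ▸ h.pats.mem, e ▸ h.pats.dec,
      e ▸ h.pats.all⟩, fun w hw hg => hK w hw (h.gl w hw hg)⟩

/-- the first `len` entries of a bank -/
def ms (f : ℕ → ℕ) (len : ℕ) : Multiset ℕ := (Multiset.range len).map f

@[simp] theorem ms_zero (f : ℕ → ℕ) : ms f 0 = 0 := rfl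
@[simp] theorem card_ms (f : ℕ → ℕ) (len : ℕ) : (ms f len).card = len := by simp [ms]

theorem ms_succ (f : ℕ → ℕ) (len : ℕ) : ms f (len + 1) = ms f len + {f len} := by
  rw [ms, Multiset.range_succ, Multiset.map_cons, add_comm, Multiset.singleton_add, ms]

theorem ms_congr {f g : ℕ → ℕ} {len : ℕ} (h : ∀ i < len, f i = g i) : ms f len = ms g len :=
  Multiset.map_congr rfl fun i hi => h i (Multiset.mem_range.mp hi)

theorem mem_ms {f : ℕ → ℕ} {len z : ℕ} : z ∈ ms f len ↔ ∃ i < len, f i = z := by simp [ms]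

theorem ms_push (f : ℕ → ℕ) (len z : ℕ) :
    ms (Function.update f len z) (len + 1) = ms f len + {z} := by
  rw [ms_succ, Function.update_self,
    ms_congr fun i hi => Function.update_of_ne (Nat.ne_of_lt hi) z f]

theorem ms_le (f : ℕ → ℕ) {a b : ℕ} (h : a ≤ b) : ms f a ≤ ms f b :=
  Multiset.map_le_map (Multiset.range_le.mpr h)

/-- the current list -/
def cur (σ : St) : Multiset ℕ := ms (σ.bank 5) (σ.var 24)
/-- the list under construction -/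
def nxt (σ : St) : Multiset ℕ := ms (σ.bank 6) (σ.var 25)

/-- the output is unchanged, or set for a good reason -/
def Out (c : Cx) (a b : ℕ) : Prop := b = a ∨ (b = 1 ∧ c.Yes)

/-- the scale is the one chosen for the input length -/
structure Sz (κ0 : ℕ) (c : Cx) : Prop where
  s1 : κ0 ≤ c.κ
  nN : c.n < c.Nn
  smin : ∀ i, κ0 ≤ i → i < c.κ → 2 ^ (19475 * i) ≤ c.n

/-! ### Specifications -/

/-- the mathematical statements that the program fragments may use -/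
structure Mth : Prop where
  dig : SDig
  top : STop
  recu : SRec
  dep : SDep
  enum : SEnum
  enumC : SEnumC
  ori : SOri
  sum : SSum
  leaf : SLeafM
  val : SVal
  gr : SGr
  grEnd : SGrEnd

/-- the values of `euv` and `evv` -/
def SRd : Prop := ∀ {E : Env} {c : Cx}, Bnd c E → ∀ i < c.n,
  (E.inp (i + 1) + c.N4) % E.W = c.u i ∧
  (c.N4 + c.N4 + (E.W - E.inp (i + 1) % E.W)) % E.W = c.v i

def SPres : Prop := ∀ {E : Env} {c : Cx}, Bnd c E → ∀ {σ : St} {t : ℕ}, Par c σ →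
  (∀ a, σ.bank 4 a = 0) → WP E pPres (fun σ' t' => Prs c σ' ∧ t' ≤ t + (3 * c.n + 2)) σ t

def SHash : Prop := ∀ {E : Env} {c : Cx}, Bnd c E → ∀ {σ : St} {t m : ℕ}, Par c σ → Md c m →
  σ.var 20 = m → WP E pHash (fun σ' t' => Hs c m σ' ∧ t' ≤ t + c.tHash) σ t

def SPDep : Prop := ∀ {E : Env} {c : Cx}, Bnd c E → ∀ {x : ℕ}, x = 37 ∨ x = 41 →
  ∀ {σ : St} {t w j : ℕ}, Par c σ → w < c.M2 → j < c.k → σ.var x = w → σ.var 42 = j →
  WP E (pDep x) (fun σ' t' => σ'.var 43 = df w j ∧ σ'.var 45 = B ^ j ∧ σ'.var 46 = w1 w j ∧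
    σ'.var 47 = c.be w j ∧ σ'.var 48 = c.w2 w j ∧ t' ≤ t + 6) σ t

def SBar : Prop := ∀ {E : Env} {c : Cx}, Bnd c E → ∀ {x : ℕ}, x = 37 ∨ x = 41 →
  ∀ {σ : St} {t w : ℕ}, Par c σ → w < c.M2 → σ.var x = w →
  WP E (pBar x) (fun σ' t' => σ'.var 49 = c.bar w ∧ t' ≤ t + c.tBar) σ t

def SRow : Prop := ∀ {E : Env} {c : Cx}, Bnd c E → ∀ {σ : St} {t m k' w : ℕ}, Lv c m k' σ →
  w < c.M2 → σ.var 41 = w →
  (∀ j < k', df w j ≠ 0 → Fil c m k' σ (w1 w j) ∧ Fil c m k' σ (c.w2 w j)) →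
  WP E pRow (fun σ' t' => Fil c m k' σ' w ∧ Keeps c m k' σ σ' ∧ t' ≤ t + c.tRow) σ t

def SGlob : Prop := ∀ {E : Env} {c : Cx}, Bnd c E → ∀ {σ : St} {t m k' : ℕ}, Lv c m k' σ →
  WP E pGlob (fun σ' t' => (∀ w < c.M2, c.Gl k' w → Fil c m k' σ' w) ∧
    t' ≤ t + c.tGlob k') σ t

def SPat : Prop := ∀ {E : Env} {c : Cx}, Bnd c E → ∀ {σ : St} {t m k' : ℕ}, Lv c m k' σ →
  WP E pPat (fun σ' t' => Pats c k' σ' ∧ t' ≤ t + c.tPat) σ t

def SLoc : Prop := ∀ {E : Env} {c : Cx}, Bnd c E → ∀ {σ : St} {t m k' w : ℕ}, Tab c m k' σ →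
  w < c.M2 → Can k' w → σ.var 37 = w →
  WP E pLoc (fun σ' t' => Keeps c m k' σ σ' ∧ σ'.var 38 = c.U m k' w k' ∧
    t' ≤ t + c.tLoc k') σ t

def SCopy : Prop := ∀ {E : Env} {c : Cx}, Bnd c E → ∀ {σ : St} {t : ℕ}, σ.var 25 ≤ c.T →
  WP E pCopy (fun σ' t' => cur σ' = nxt σ ∧ t' ≤ t + (3 * σ.var 25 + 3)) σ t

def SPar : Prop := ∀ {E : Env} {c : Cx}, Bnd c E → ∀ {σ : St} {t m i z : ℕ}, Hs c m σ →
  i < c.k → z ∈ c.LE m i → σ.var 35 < c.T → σ.bank 5 (σ.var 35) = z → σ.var 60 = B ^ i →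
  σ.var 63 = B ^ (i + 1) - 1 → σ.var 25 + (c.chE m i z).card ≤ c.T →
  WP E pPar (fun σ' t' => nxt σ' = nxt σ + c.chE m i z ∧
    t' ≤ t + (c.tBar + 10 * (B * B) + 10)) σ t

def SPEnum : Prop := ∀ {E : Env} {c : Cx}, Bnd c E → ∀ {σ : St} {t m : ℕ}, Hs c m σ →
  WP E pEnum (fun σ' t' => cur σ' = c.LE m c.k ∧ t' ≤ t + c.tEnum) σ t

def SNode : Prop := ∀ {E : Env} {c : Cx}, Bnd c E → ∀ {σ : St} {t m k' z : ℕ}, Lv c m k' σ →
  1 ≤ k' → (c.k1 ≤ k' → Tab c m k' σ) → σ.var 27 = (if c.k1 ≤ k' then 1 else 0) →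
  c.Node m k' z → σ.var 35 < c.T → σ.bank 5 (σ.var 35) = z → σ.var 25 + 2 ≤ c.T →
  σ.var 26 ≤ c.T →
  WP E pNode (fun σ' t' => Keeps c m k' σ σ' ∧ nxt σ' = nxt σ + c.chO m k' z ∧
    σ'.var 26 = σ.var 26 + (if c.k1 ≤ k' then c.Z m k' z else 1) ∧
    t' ≤ t + ((if c.k1 ≤ k' then c.tLoc k' else 0) + 25)) σ t

def SLevel : Prop := ∀ {E : Env} {c : Cx}, Bnd c E → ∀ {σ : St} {t m k' : ℕ}, Hs c m σ →
  σ.var 21 = k' → 1 ≤ k' → k' ≤ c.k → c.LI m k' (cur σ) → σ.var 24 ≤ c.Θ →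
  WP E pLevel (fun σ' t' => cur σ' = (cur σ).bind (c.chO m k') ∧
    (c.k1 ≤ k' → σ'.var 26 = c.PS m) ∧ t' ≤ t + c.tLevel k' (σ.var 24)) σ t

def SInit : Prop := ∀ {E : Env} {c : Cx}, Bnd c E → ∀ {σ : St} {t m : ℕ}, Par c σ → Md c m →
  σ.var 20 = m → WP E pInit (fun σ' t' => Hs c m σ' ∧ σ'.var 21 = c.k ∧ c.LI m c.k (cur σ') ∧
    σ'.var 24 ≤ c.Nt ∧ t' ≤ t + c.tInit) σ t

def SGreedy : Prop := ∀ {E : Env} {c : Cx}, Bnd c E → c.ρ ^ 19999 ≤ 2 ^ c.κ →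
  ∀ {σ : St} {t : ℕ}, Par c σ →
  WP E pGreedy (fun σ' t' => c.GInv 19999 (σ'.var 28) ∧ σ'.var 29 = c.PS (σ'.var 28) ∧
    t' ≤ t + c.tGreedy) σ t

def SLeaf : Prop := ∀ {E : Env} {c : Cx}, Bnd c E → ∀ {σ : St} {t m : ℕ}, Hs c m σ → Prs c σ →
  c.LI m 0 (cur σ) → σ.var 24 ≤ c.Θ → c.PS m ≤ c.Θ →
  WP E pLeaf (fun σ' t' => Out c (σ.var 0) (σ'.var 0) ∧ (c.Yes → σ'.var 0 = 1) ∧
    t' ≤ t + c.tLeaf) σ t

def SDesc : Prop := ∀ {E : Env} {c : Cx}, Bnd c E → ∀ {σ : St} {t m : ℕ}, Hs c m σ →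
  σ.var 21 = c.k → c.LI m c.k (cur σ) → σ.var 24 ≤ c.Nt → c.PS m ≤ c.Bd →
  WP E pDesc (fun σ' t' => c.LI m 0 (cur σ') ∧ σ'.var 24 ≤ c.Θ ∧
    t' ≤ t + (c.k * (c.tLev + 3) + 2)) σ t

def SSetup : Prop := ∀ {E : Env} {c : Cx} {κ0 : ℕ}, Sz κ0 c → Bnd c E → E.inp 0 = c.n →
  ∀ {σ : St} {t : ℕ}, WP E (pSetup κ0) (fun σ' t' => Par c σ' ∧ σ'.var 0 = σ.var 0 ∧
    σ'.bank = σ.bank ∧ t' ≤ t + 10 * c.A) σ t

def SMain : Prop := ∀ {E : Env} {c : Cx} {κ0 : ℕ}, Sz κ0 c → Bnd c E → E.inp 0 = c.n →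
  c.ρ ^ 19999 ≤ 2 ^ c.κ →
  WP E (pMain κ0) (fun σ' t' => (σ'.var 0 ≠ 0 ↔ c.Yes) ∧ t' ≤ c.tAll) St.zero 0

def SBnd : Prop := ∀ {E : Env} {c : Cx} {w : ℕ}, Inp c → E.W = 2 ^ w → 2 * c.A ≤ w →
  E.Lim = c.T → E.n1 = c.n + 1 → (∀ i < c.n, E.inp (i + 1) = (c.x i % E.W).toNat) → Bnd c E

def STime : Prop := ∀ κ0 : ℕ, 1 ≤ κ0 → ∃ C : ℝ, ∀ c : Cx, Sz κ0 c →
  (c.tAll : ℝ) ≤ C * ((c.n : ℝ) ^ ((199 / 100 : ℚ) : ℝ) + 1)

def SK0 : Prop := ∃ κ0 : ℕ, 4 ≤ κ0 ∧ ∀ c : Cx, κ0 ≤ c.κ → c.ρ ^ 19999 ≤ 2 ^ c.κ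

end Pool.Agent.P.MP_8f87b2_lc.DT
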