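import Pool.Agent.P.MP_8f87b2_lc.Defs

/-!
# Deterministic algorithms for integer 3SUM on the word-RAM

Only the definition used by the final statement lives in this file. The machine (`Instr`, `run`)
and the problem (`Valid`, `IsYes`) are those of `Pool.Agent.P.MP_8f87b2_lc.Defs`.
-/

namespace Pool.Agent.P.MP_8f87b2_lc.DT

/-- Some deterministic word-RAM program decides integer 3SUM in time `O(n ^ c)`: there are a
program `P` that contains no instruction reading the random tape and constants `K`, `C` such that
for every valid instance with `n` entries and every word size `w ≥ K (log₂ n + 1)` there is a step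
count `t ≤ C (n ^ c + 1)` such that (whatever the unused tape holds) the program has halted after
`t` steps and its answer (yes iff register `0` is nonzero) is correct. -/
def DetDecidesInTime (c : ℚ) : Prop :=
  ∃ (P : List Instr) (K C : ℕ), (∀ d, Instr.rand d ∉ P) ∧ ∀ xs : List ℤ, Valid xs →
    ∀ w : ℕ, K * (Nat.log 2 xs.length + 1) ≤ w →
      ∃ t : ℕ, (t : ℝ) ≤ C * ((xs.length : ℝ) ^ (c : ℝ) + 1) ∧
        ∀ ω, P.length ≤ (run w P ω xs t).pc ∧ ((run w P ω xs t).reg 0 ≠ 0 ↔ IsYes xs)

end Pool.Agent.P.MP_8f87b2_lc.DT
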