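import Pool.Agent.P.MP_8f87b2_lc.Final
import Pool.Agent.P.MP_8f87b2_lc.DT.Defs
import Pool.Agent.P.MP_8f87b2_lc.DT.Ctx

/-!
# From the specifications to the final statement
-/

namespace Pool.Agent.P.MP_8f87b2_lc.DT

theorem exists_Sz (κ0 n : ℕ) (x : ℕ → ℤ) : ∃ c : Cx, c.n = n ∧ c.x = x ∧ Sz κ0 c := by
  classical
  have ex : ∃ s, κ0 ≤ s ∧ n < 2 ^ (19475 * s) :=
    ⟨n + κ0, by omega, lt_of_le_of_lt (by omega) Nat.lt_two_pow_self⟩
  refine ⟨⟨Nat.find ex, n, x⟩, rfl, rfl, (Nat.find_spec ex).1, (Nat.find_spec ex).2,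
    fun i h1 h2 => ?_⟩
  have := Nat.find_min ex h2
  simp only [not_and, not_lt] at this
  exact this h1

theorem decides_of (hMain : SMain) (hwf : ∀ κ0, (pMain κ0).wf = true)
    (hnr : ∀ κ0 d, Instr.rand d ∉ program (pMain κ0)) (hK : SK0) (hBnd : SBnd) (hTime : STime) :
    DetDecidesInTime (199 / 100) := by
  obtain ⟨κ0, h4, hρ⟩ := hK
  obtain ⟨C, hC⟩ := hTime κ0 (by omega)
  refine ⟨program (pMain κ0), 200000 * κ0, ⌈(pMain κ0).K * C + 4⌉₊, hnr κ0, fun xs hv w hw => ?_⟩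
  obtain ⟨c, hn, hx, hS⟩ := exists_Sz κ0 xs.length fun i => xs.getD i 0
  have hs1 := hS.s1
  have hsw : 2 * c.A ≤ w := by
    refine le_trans ?_ hw
    rw [Cx.A, ← mul_assoc, mul_assoc 200000]
    refine Nat.mul_le_mul_left _ ?_
    rcases Nat.lt_or_ge κ0 c.κ with h | h
    · have h1 := hS.smin (c.κ - 1) (by omega) (by omega)
      have h3 := Nat.le_log_of_pow_le (b := 2) (by norm_num) h1
      rw [hn] at h3
      exact le_trans (by omega) (Nat.le_mul_of_pos_left _ (by omega))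
    · exact h.trans (Nat.le_mul_of_pos_right _ (by omega))
  have hI : Inp c := by
    refine ⟨by omega, hS.nN, fun i hi => ?_, fun i hi j hj e => ?_⟩
    · rw [hn] at hi
      have h1 : |c.x i| ≤ (c.n : ℤ) ^ 4 := by
        rw [hx, hn]
        exact hv.2 _ (by simp [hi])
      have h2 : c.n ^ 4 ≤ c.N4 := by
        rw [Cx.N4, show 77900 * c.κ = 19475 * c.κ * 4 by ring, pow_mul]
        exact Nat.pow_le_pow_left hS.nN.le 4
      exact h1.trans (by exact_mod_cast h2)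
    · rw [hn] at hi hj
      rw [hx] at e
      simpa [hi, hj, hv.1.getElem_inj_iff] using e
  have hB : ∀ ω, Bnd c (envOf w c.T xs ω) := fun ω =>
    hBnd hI rfl hsw rfl (by rw [hn]; rfl) fun i _ => by simp [envOf, start, hx]
  have hB0 := hB fun _ => false
  have hbig : 2000 * c.T < 2 ^ w := hB0.big
  have hln : c.n < c.T := hB0.ln
  have hY : c.Yes ↔ IsYes xs := by
    rw [isYes_iff, Cx.Yes, hn, hx]
  refine ⟨(pMain κ0).K * c.tAll + 4, ?_, fun ω => ?_⟩
  · have h1 := hC c hS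
    rw [hn] at h1
    have h2 : (0 : ℝ) ≤ (xs.length : ℝ) ^ ((199 / 100 : ℚ) : ℝ) := by positivity
    have h3 := mul_le_mul_of_nonneg_left h1 (Nat.cast_nonneg (α := ℝ) (pMain κ0).K)
    refine le_trans ?_ (mul_le_mul_of_nonneg_right (Nat.le_ceil _) (by linarith))
    rw [Nat.cast_add, Nat.cast_mul, Nat.cast_ofNat]
    linarith
  · obtain ⟨σ', t, hx', h1, h2⟩ := hMain hS (hB ω)
      (by simp only [envOf, start, if_true]; rw [← hn]; exact Nat.mod_eq_of_lt (by omega))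
      (hρ c hs1)
    obtain ⟨p1, p2⟩ := program_ok (T := (pMain κ0).K * c.tAll + 4) (hwf _)
      (by omega) (by omega) hx' (Nat.add_le_add_right (Nat.mul_le_mul_left _ (by omega)) _)
    exact ⟨p1, (iff_of_eq (congrArg (· ≠ 0) p2)).trans (h1.trans hY)⟩

end Pool.Agent.P.MP_8f87b2_lc.DT
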