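import Pool.Agent.P.MP_8f87b2_lc.DT.Base

/-!
# Deterministic 3SUM: the dependencies between rows
-/

namespace Pool.Agent.P.MP_8f87b2_lc.DT

open Finset
open KS (dg enc)
open Cx

namespace DepP

theorem ext (c : Cx) {w w' : ℕ} (hw : w < c.M2) (hw' : w' < c.M2)
    (h : ∀ i < c.k, df w i = df w' i ∧ c.al w i = c.al w' i) : w = w' := by
  refine KS.dg_ext (b := B) (q := 2 * c.k) hw hw' fun a ha => ?_
  rcases Nat.lt_or_ge a c.k with h1 | h1
  · exact (h a h1).1
  · obtain ⟨i, rfl⟩ := Nat.exists_eq_add_of_le h1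
    exact (h i (by omega)).2

theorem dig (h : SDig) (c : Cx) {w : ℕ} (hw : w < c.M2) (t : ℕ) : ∀ j, j ≤ c.k →
    c.rT w t j < c.M2 ∧ ∀ i < c.k,
      df (c.rT w t j) i = (if i < j ∧ dg 4 i t ≠ 0 then 0 else df w i) ∧
      c.al (c.rT w t j) i = if i < j ∧ 2 ≤ dg 4 i t then c.be w i else c.al w i := by
  intro j
  induction j with
  | zero => intro _; exact ⟨hw, fun i _ => by simp [rT]⟩
  | succ j ih =>
    intro hj
    obtain ⟨h1, h2⟩ := ih (by omega)
    obtain ⟨-, -, a1, a2, a3, a4, -⟩ := h c h1 (show j < c.k by omega)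
    have hb : c.be (c.rT w t j) j = c.be w j := by
      have := h2 j (by omega)
      simp only [lt_irrefl, false_and, if_false] at this
      rw [be, be, this.1, this.2]
    rw [rT]
    split_ifs with e0 e1
    · refine ⟨h1, fun i hi => ?_⟩
      rw [(h2 i hi).1, (h2 i hi).2]
      by_cases e : i = j
      · subst e; simp [e0]
      · have : i < j + 1 ↔ i < j := by omega
        simp only [this, and_self]
    · refine ⟨a1, fun i hi => ?_⟩
      rw [(a3 i hi).1, (a3 i hi).2, (h2 i hi).1, (h2 i hi).2]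
      by_cases e : i = j
      · subst e; simp [e1]
      · have : i < j + 1 ↔ i < j := by omega
        simp only [this, e, if_false, and_self]
    · refine ⟨a2, fun i hi => ?_⟩
      rw [(a4 i hi).1, (a4 i hi).2, (h2 i hi).1, (h2 i hi).2, hb]
      by_cases e : i = j
      · subst e
        have : 2 ≤ dg 4 i t := by omega
        simp [e0, this]
      · have : i < j + 1 ↔ i < j := by omega
        simp only [this, e, if_false, and_self]

theorem can {k' w w' : ℕ} (h : ∀ i < k', df w' i = 0 ∨ df w' i = df w i) (hc : Can k' w) :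
    Can k' w' := fun j hj => by
  have := hc j hj
  rcases h j hj with e | e <;> omega

theorem gl (c : Cx) {k' w w' : ℕ} (h : ∀ i < k', df w' i = 0 ∨ df w' i = df w i)
    (hg : c.Gl k' w) : c.Gl k' w' := by
  refine ⟨can h hg.1, hg.2.trans (card_le_card fun i hi => ?_)⟩
  rw [mem_filter] at hi ⊢
  refine ⟨hi.1, ?_⟩
  rcases h i (mem_range.1 hi.1) with e | e
  · exact e
  · rw [e, hi.2]

theorem zero (c : Cx) (w : ℕ) : ∀ j, c.rT w 0 j = w
  | 0 => rfl
  | j + 1 => by rw [rT, if_pos (KS.dg_zero _ _), zero c w j]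

theorem bump {k' t j : ℕ} (ht : t < 4 ^ k') (hj : j < k') (h0 : dg 4 j t = 0) {e : ℕ}
    (he : e = 1 ∨ e = 2) : ∃ t', t < t' ∧ t' < 4 ^ k' ∧
      ∀ i, dg 4 i t' = if i = j then e else dg 4 i t := by
  have hp : 0 < 4 ^ j := by positivity
  have a1 := KS.dg_add_pow (b := 4) (a := j) (w := t) (by omega)
  have a2 := KS.add_pow_lt (b := 4) hj ht (by omega)
  rcases he with rfl | rfl
  · exact ⟨t + 4 ^ j, by omega, a2, fun i => by rw [a1, h0]⟩
  · have b0 : dg 4 j (t + 4 ^ j) = 1 := by rw [a1, if_pos rfl, h0]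
    refine ⟨t + 4 ^ j + 4 ^ j, by omega, KS.add_pow_lt (b := 4) hj a2 (by omega), fun i => ?_⟩
    rw [KS.dg_add_pow (b := 4) (a := j) (w := t + 4 ^ j) (by omega), b0, a1]
    split_ifs <;> rfl

theorem fin (h : SDig) (c : Cx) {k' w t t' j e : ℕ} (hk : k' ≤ c.k) (hw : w < c.M2)
    (hc : Can k' w) (hp : c.Pt k' t) (he : e ≤ 2)
    (hd : ∀ i, dg 4 i t' = if i = j then e else dg 4 i t) :
    c.Gl k' (c.rT w t' k') ∨ c.Pt k' t' := by
  obtain ⟨-, h2⟩ := dig h c hw t' k' hk
  by_cases hs : wt k' t' < c.s k'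
  · refine Or.inr ⟨fun i hi => ?_, hs⟩
    rw [hd]
    split_ifs
    · exact he
    · exact hp.1 i hi
  · refine Or.inl ⟨can (fun i hi => ?_) hc, (not_lt.1 hs).trans (card_le_card fun i hi => ?_)⟩
    · rw [(h2 i (by omega)).1]
      split_ifs
      · exact Or.inl rfl
      · exact Or.inr rfl
    · rw [mem_filter] at hi ⊢
      have h3 := mem_range.1 hi.1
      exact ⟨hi.1, by rw [(h2 i (by omega)).1, if_pos ⟨h3, hi.2⟩]⟩

end DepP

theorem sDep (h : SDig) : SDep := by
  intro c k' w hk hw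
  refine ⟨fun hg j hj => ?_, DepP.zero c w k', fun t j hj => (DepP.dig h c hw t j hj).1,
    fun hc t ht hp j hj hd w' hw' => ?_⟩
  · obtain ⟨-, -, -, -, a3, a4, -⟩ := h c hw (show j < c.k by omega)
    refine ⟨DepP.gl c (fun i hi => ?_) hg, DepP.gl c (fun i hi => ?_) hg⟩
    · rw [(a3 i (by omega)).1]
      split_ifs
      · exact Or.inl rfl
      · exact Or.inr rfl
    · rw [(a4 i (by omega)).1]
      split_ifs
      · exact Or.inl rfl
      · exact Or.inr rfl
  · obtain ⟨h1, h2⟩ := DepP.dig h c hw t k' hk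
    obtain ⟨-, -, a1, a2, a3, a4, -⟩ := h c h1 (show j < c.k by omega)
    have h0 : dg 4 j t = 0 := by
      by_contra e
      exact hd (by rw [(h2 j (by omega)).1, if_pos ⟨hj, e⟩])
    have hb : c.be (c.rT w t k') j = c.be w j := by
      have := h2 j (by omega)
      simp only [h0, ne_eq, not_true, and_false, if_false, Nat.reduceLeDiff] at this
      rw [be, be, this.1, this.2]
    simp only [List.mem_cons, List.not_mem_nil, or_false] at hw'
    rcases hw' with rfl | rfl
    · obtain ⟨t', b1, b2, b3⟩ := DepP.bump ht hj h0 (e := 1) (Or.inl rfl)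
      obtain ⟨g1, g2⟩ := DepP.dig h c hw t' k' hk
      have e : w1 (c.rT w t k') j = c.rT w t' k' := DepP.ext c a1 g1 fun i hi => by
        rw [(a3 i hi).1, (a3 i hi).2, (h2 i hi).1, (h2 i hi).2, (g2 i hi).1, (g2 i hi).2, b3]
        by_cases e : i = j
        · subst e; simp [hj, h0]
        · simp only [e, if_false, and_self]
      rw [e]
      exact (DepP.fin h c hk hw hc hp (by omega) b3).imp id fun q => ⟨t', b1, b2, q, rfl⟩
    · obtain ⟨t', b1, b2, b3⟩ := DepP.bump ht hj h0 (e := 2) (Or.inr rfl)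
      obtain ⟨g1, g2⟩ := DepP.dig h c hw t' k' hk
      have e : c.w2 (c.rT w t k') j = c.rT w t' k' := DepP.ext c a2 g1 fun i hi => by
        rw [(a4 i hi).1, (a4 i hi).2, (h2 i hi).1, (h2 i hi).2, (g2 i hi).1, (g2 i hi).2, b3, hb]
        by_cases e : i = j
        · subst e; simp [hj]
        · simp only [e, if_false, and_self]
      rw [e]
      exact (DepP.fin h c hk hw hc hp (by omega) b3).imp id fun q => ⟨t', b1, b2, q, rfl⟩

end Pool.Agent.P.MP_8f87b2_lc.DT
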