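import Pool.Agent.P.MP_8f87b2_lc.DT.Ctx

/-!
# Deterministic 3SUM: the descent through the levels
-/

namespace Pool.Agent.P.MP_8f87b2_lc.DT

open Finset
open KS (dg enc)
open Cx

namespace DescP

variable {E : Env} {c : Cx}

/-- the bound for the length of the list after `i` rounds -/
def Len (c : Cx) (i len : ℕ) : Prop :=
  (i = 0 → len ≤ c.Nt) ∧ (0 < i → len ≤ 2 * c.Bd * 2 ^ (c.k1 - 1 - (c.k - i)))

theorem Len.le (hB : Bnd c E) {i len : ℕ} (h : Len c i len) : len ≤ c.Θ := by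
  rcases Nat.eq_zero_or_pos i with e | e
  · exact (h.1 e).trans hB.Nt
  · exact (h.2 e).trans ((Nat.mul_le_mul_left _
      (Nat.pow_le_pow_right two_pos (by omega))).trans hB.th.e)

theorem Len.pl (hB : Bnd c E) {i len : ℕ} (h : Len c i len) (hk : c.k1 ≤ c.k - i) :
    len * c.PLc (c.k - i) ≤ c.Θ := by
  refine (Nat.mul_le_mul_left _ (Nat.le_succ _)).trans ?_
  rcases Nat.eq_zero_or_pos i with e | e
  · subst e
    exact ((Nat.mul_le_mul_right _ (h.1 rfl)).trans (Nat.le_mul_of_pos_left _ c.Q_pos)).trans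
      hB.th.l1
  · have h1 := h.2 e
    rw [show c.k1 - 1 - (c.k - i) = 0 by omega, pow_zero, mul_one] at h1
    exact (Nat.mul_le_mul_right _ h1).trans (hB.th.l2 _ hk (Nat.sub_le _ _))

theorem Len.step (hM : Mth) (hB : Bnd c E) {m i : ℕ} {L : Multiset ℕ} (hm : Md c m)
    (hP : c.PS m ≤ c.Bd) (hi : i < c.k) (hL : c.LI m (c.k - i) L) (h : Len c i L.card) :
    Len c (i + 1) (L.bind (c.chO m (c.k - i))).card := by
  obtain ⟨-, h1, h2, -⟩ := hM.sum c hm (Nat.sub_le _ _) hL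
  refine ⟨fun e => absurd e i.succ_ne_zero, fun _ => ?_⟩
  by_cases hk : c.k1 ≤ c.k - i
  · exact ((h2 hk).trans (Nat.mul_le_mul_left _ hP)).trans
      (Nat.le_mul_of_pos_right _ (by positivity))
  · have h3 := hB.k1k
    have h4 := h.2 (by omega)
    rw [show c.k1 - 1 - (c.k - (i + 1)) = c.k1 - 1 - (c.k - i) + 1 by omega, pow_succ,
      ← mul_assoc]
    omega

theorem time (hB : Bnd c E) {i len : ℕ} (h : Len c i len) : c.tLevel (c.k - i) len ≤ c.tLev := by
  have h1 := h.le hB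
  have h2 := hB.Θ1
  have h3 : c.Θ ≤ (c.k + 1) * c.Θ := Nat.le_mul_of_pos_left _ (Nat.succ_pos _)
  unfold Cx.tLevel Cx.tLev
  rw [mul_assoc]
  split_ifs with hk
  · have h4 := h.pl hB hk
    have h5 := (Nat.le_mul_of_pos_left _ c.Q_pos).trans (hB.th.g _ hk (Nat.sub_le _ _))
    rw [mul_add, mul_one] at h5
    have a1 : 4 ^ c.k * (c.tTest + 8) ≤ c.Θ * (18 * (c.k + 1)) :=
      Nat.mul_le_mul hB.p4 (by unfold Cx.tTest; omega)
    have a2 : c.M * (c.tTest + 6) ≤ c.Θ * (16 * (c.k + 1)) :=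
      Nat.mul_le_mul (by omega) (by unfold Cx.tTest; omega)
    have a3 : c.M * c.DLc (c.k - i) * (c.tRow + 3) ≤ c.Θ * (40 * (c.k + 1)) :=
      Nat.mul_le_mul (by omega) (by unfold Cx.tRow; omega)
    have a4 : len * c.PLc (c.k - i) * (c.tApply + c.tRow + 5) ≤ c.Θ * (52 * (c.k + 1)) :=
      Nat.mul_le_mul h4 (by unfold Cx.tApply Cx.tRow; omega)
    unfold Cx.tPat Cx.tGlob Cx.tLoc
    nlinarith
  · omega

end DescP

set_option maxRecDepth 20000 in
open DescP in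
theorem sDesc (hM : Mth) (h : SLevel) : SDesc := by
  intro E c hB σ t m hH h21 hL h24 hP
  have hbig := hB.big
  have hlA := hB.lA
  have hkA := hB.kA
  unfold pDesc
  refine wp_for c.k (c.tLev + 1) (fun i σ' => σ'.var 21 = c.k - i ∧ c.LI m (c.k - i) (cur σ') ∧
      Len c i (σ'.var 24))
    [21, 22, 27, 68, 23, 69, 40, 55, 56, 42, 70, 53, 43, 54, 41, 49, 44, 45, 46, 47, 48, 50, 51,
      52, 26, 25, 35, 36, 37, 39, 38, 67, 24] [10, 7, 8, 9, 6, 5] false (by decide) (by decide)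
    (by decide) (by decide) hH.par.k (by omega) (by omega)
    ⟨by simpa using h21, hL, fun _ => h24, fun e => absurd e (lt_irrefl _)⟩ ?_
    fun σ' t' _ ⟨_, h2, h3⟩ ht => ⟨by simpa using h2, h3.le hB, by omega⟩
  intro i σ' t' hi hF _ ⟨h1, h2, h3⟩
  have hH' := hH.frame hF (by decide) (by decide)
  rw [wp_blk_cons]
  refine (h hB hH' h1 (by omega) (Nat.sub_le _ _) h2 (h3.le hB)).call
    [22, 27, 68, 23, 69, 40, 55, 56, 42, 70, 53, 43, 54, 41, 49, 44, 45, 46, 47, 48, 50, 51,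
      52, 26, 25, 35, 36, 37, 39, 38, 67, 24] [10, 7, 8, 9, 6, 5] false (by decide) ?_
  rintro σ₁ t₁ hF₁ ⟨a1, -, a2⟩
  have e21 : σ₁.var 21 = c.k - i := (hF₁.var 21 (by decide)).trans h1
  have a3 := time hB h3
  have a4 := hM.ori c hH.md (by omega) (Nat.sub_le _ _) h2
  have a5 := Len.step hM hB hH.md hP hi h2 (by simpa [cur] using h3)
  rw [← a1] at a4 a5
  simp only [wp_blk_cons, wp_set, wp_blk_nil, Expr.safe, Expr.eval, BOp.safe, BOp.eval, e21,
    true_and]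
  refine ⟨⟨by omega, by omega⟩, ⟨by simp; omega, a4, by simpa [cur] using a5⟩, by omega⟩

end Pool.Agent.P.MP_8f87b2_lc.DT
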