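import Pool.Agent.P.MP_8f87b2_lc.DT.Base

/-!
# Deterministic 3SUM: digits of the modified rows
-/

namespace Pool.Agent.P.MP_8f87b2_lc.DT

open Finset
open KS (dg enc)
open Cx

namespace DigP

/-- one digit replaced -/
theorem chg {b K w j a : ℕ} (hb : 0 < b) (hw : w < b ^ K) (hj : j < K) (ha : a < b) :
    dg b j w * b ^ j ≤ w ∧ w - dg b j w * b ^ j + a * b ^ j < b ^ K ∧
      ∀ i < K, dg b i (w - dg b j w * b ^ j + a * b ^ j) = if i = j then a else dg b i w := by
  have h1 : dg b j w * b ^ j + ∑ i ∈ (range K).erase j, dg b i w * b ^ i = w := by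
    rw [add_sum_erase (range K) (fun i => dg b i w * b ^ i) (mem_range.mpr hj)]
    exact KS.enc_dg' hw
  have h2 : a * b ^ j + ∑ i ∈ (range K).erase j, dg b i w * b ^ i =
      enc b K fun i => if i = j then a else dg b i w := by
    unfold enc
    rw [← add_sum_erase (range K) _ (mem_range.mpr hj)]
    beta_reduce
    rw [if_pos rfl]
    congr 1
    exact sum_congr rfl fun i hi => by rw [if_neg (ne_of_mem_erase hi)]
  have h3 : w - dg b j w * b ^ j + a * b ^ j = enc b K fun i => if i = j then a else dg b i w := by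
    rw [← h2]
    omega
  have h4 : ∀ i < K, (if i = j then a else dg b i w) < b := fun i _ => by
    split_ifs
    · exact ha
    · exact KS.dg_lt hb _ _
  refine ⟨by omega, ?_, fun i hi => ?_⟩
  · rw [h3]
    exact KS.enc_lt h4
  · rw [h3, KS.dg_enc h4 hi]

theorem dg_mod {b K i : ℕ} (hb : 0 < b) (hi : i < K) (w : ℕ) : dg b i (w % b ^ K) = dg b i w := by
  rw [← KS.dg_add_mul_lt hb hi (w % b ^ K) (w / b ^ K), Nat.mod_add_div']

theorem dg_hi (b K i w : ℕ) : dg b i (w / b ^ K) = dg b (K + i) w := by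
  rw [dg, dg, Nat.div_div_eq_div_mul, pow_add]

theorem mod_lt_mod {b K j u w : ℕ} (hj : j < K) (h1 : dg b j u < dg b j w)
    (h2 : ∀ i < K, dg b i u ≤ dg b i w) (hb : 0 < b) : u % b ^ K < w % b ^ K := by
  rw [← KS.enc_dg, ← KS.enc_dg]
  exact sum_lt_sum (fun i hi => Nat.mul_le_mul_right _ (h2 i (mem_range.mp hi)))
    ⟨j, mem_range.mpr hj, Nat.mul_lt_mul_of_pos_right h1 (pow_pos hb _)⟩

end DigP

open DigP

theorem sDig : SDig := by
  intro c w j hw hj
  have hM : ∀ x : ℕ, x * B ^ j * c.M = x * B ^ (c.k + j) := fun x => by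
    rw [Cx.M, mul_assoc, ← pow_add, add_comm]
  have hbe : c.be w j < B := Nat.mod_lt _ B_pos
  obtain ⟨a1, a2, a3⟩ := chg (K := 2 * c.k) (j := j) (a := 0) B_pos hw (by omega) B_pos
  rw [zero_mul, add_zero] at a2 a3
  change df w j * B ^ j ≤ w at a1
  change w1 w j < B ^ (2 * c.k) at a2
  change ∀ i < 2 * c.k, dg B i (w1 w j) = _ at a3
  have e1 : dg B (c.k + j) (w1 w j) = c.al w j := by
    rw [a3 _ (by omega), if_neg (by omega), Cx.al]
  obtain ⟨b1, b2, b3⟩ := chg (K := 2 * c.k) (j := c.k + j) B_pos a2 (by omega) hbe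
  rw [e1, ← hM] at b1
  rw [e1, ← hM, ← hM] at b2 b3
  change c.w2 w j < B ^ (2 * c.k) at b2
  change ∀ i < 2 * c.k, dg B i (c.w2 w j) = _ at b3
  have c1 : ∀ i < c.k, df (w1 w j) i = (if i = j then 0 else df w i) ∧
      c.al (w1 w j) i = c.al w i := fun i hi =>
    ⟨a3 i (by omega), by rw [Cx.al, a3 _ (by omega), if_neg (by omega), Cx.al]⟩
  have c2 : ∀ i < c.k, df (c.w2 w j) i = (if i = j then 0 else df w i) ∧
      c.al (c.w2 w j) i = if i = j then c.be w j else c.al w i := fun i hi => by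
    refine ⟨?_, ?_⟩
    · rw [df, b3 i (by omega), if_neg (by omega)]
      exact (c1 i hi).1
    · rw [Cx.al, b3 _ (by omega)]
      by_cases h : i = j
      · rw [if_pos (by omega), if_pos h]
      · rw [if_neg (by omega), if_neg h]
        exact (c1 i hi).2
  refine ⟨a1, b1, a2, b2, c1, c2, fun hd => ?_⟩
  have e2 : dg B j (c.w2 w j) = 0 := by
    have h := (c2 j hj).1
    rwa [if_pos rfl] at h
  obtain ⟨-, d2, d3⟩ := chg (K := 2 * c.k) (j := j) (a := B - df w j) B_pos b2 (by omega)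
    (by have := B_pos; omega)
  rw [e2, zero_mul, Nat.sub_zero] at d2 d3
  change c.sw w j < B ^ (2 * c.k) at d2
  change ∀ i < 2 * c.k, dg B i (c.sw w j) = _ at d3
  have key : ∀ u : ℕ, (∀ i < c.k, df u i = if i = j then 0 else df w i) → u % c.M < w % c.M :=
    fun u hu => by
      refine mod_lt_mod hj ?_ (fun i hi => ?_) B_pos
      · have h := hu j hj
        rw [if_pos rfl] at h
        change df u j < df w j
        omega
      · have h := hu i hi
        change df u i ≤ df w i
        split_ifs at h <;> omega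
  refine ⟨d2, key _ fun i hi => (c1 i hi).1, key _ fun i hi => (c2 i hi).1, fun i hi => ⟨?_, ?_⟩⟩
  · rw [df, d3 i (by omega)]
    by_cases h : i = j
    · rw [if_pos h, if_pos h]
    · have h' := (c2 i hi).1
      rw [if_neg h] at h' ⊢
      rw [if_neg h]
      exact h'
  · rw [Cx.al, d3 _ (by omega), if_neg (by omega)]
    exact (c2 i hi).2

theorem sTop : STop := by
  intro c w hw
  have hbe : ∀ j < c.k, c.be w j < B := fun j _ => Nat.mod_lt _ B_pos
  have hdf : ∀ j < c.k, df (w % c.M) j = df w j := fun j hj => dg_mod B_pos hj w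
  refine ⟨?_, KS.enc_lt hbe, fun j hj => ⟨dg_hi _ _ _ _, KS.dg_enc hbe hj, hdf j hj⟩,
    fun k' hk => ?_⟩
  · rw [c.M2_eq] at hw
    exact Nat.div_lt_of_lt_mul hw
  · have h1 : zer k' (w % c.M) = zer k' w := by
      unfold zer
      congr 1
      exact filter_congr fun j hj => by rw [hdf j ((mem_range.mp hj).trans_le hk)]
    have h2 : Can k' (w % c.M) ↔ Can k' w :=
      forall₂_congr fun j hj => by rw [hdf j (hj.trans_le hk)]
    unfold Cx.Gl
    rw [h1, h2]

end Pool.Agent.P.MP_8f87b2_lc.DT
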