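import Pool.Agent.P.MP_8f87b2_lc.DT.Ctx

/-!
# Deterministic 3SUM: the enumeration of the nodes of the top level
-/

namespace Pool.Agent.P.MP_8f87b2_lc.DT

open Finset
open KS (dg enc)
open Cx

namespace EnuP

variable {E : Env} {c : Cx}

theorem card_LE (hM : Mth) (c : Cx) (m : ℕ) {i : ℕ} (hi : i ≤ c.k) : (c.LE m i).card ≤ c.Nt :=
  (hM.enumC c m hi).1.trans
    (Nat.mul_le_mul_left _ (Nat.pow_le_pow_right (by norm_num) hi))

theorem nxt_setv (σ : St) {x : ℕ} (v : ℕ) (hx : 25 ≠ x) : nxt (σ.setv x v) = nxt σ := by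
  simp [nxt, hx]

theorem cur_setv (σ : St) {x : ℕ} (v : ℕ) (hx : 24 ≠ x) : cur (σ.setv x v) = cur σ := by
  simp [cur, hx]

theorem bind_mono {s s' : Multiset ℕ} (h : s ≤ s') (f : ℕ → Multiset ℕ) :
    (s.bind f).card ≤ (s'.bind f).card := by
  obtain ⟨u, rfl⟩ := Multiset.le_iff_exists_add.1 h
  rw [Multiset.add_bind, Multiset.card_add]
  omega

/-- the loop over the nodes for one digit -/
theorem inner (hM : Mth) (h2 : SPar) (hB : Bnd c E) {σ : St} {t m i : ℕ} (hs : Hs c m σ)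
    (hi : i < c.k) (hc : cur σ = c.LE m i) (h60 : σ.var 60 = B ^ i)
    (h63 : σ.var 63 = B ^ (i + 1) - 1) (h25 : σ.var 25 = 0) :
    WP E (forL 35 24 pPar) (fun σ' t' => nxt σ' = c.LE m (i + 1) ∧
      t' ≤ t + c.Nt * (c.tBar + 10 * (B * B) + 10 + 2) + 2) σ t := by
  have hbig := hB.big
  have hΘ := hB.lΘ
  have hNt := hB.Nt
  have hT := c.T_pos
  have hl : σ.var 24 ≤ c.Nt := by
    have := card_LE hM c m hi.le
    rwa [← hc, cur, card_ms] at this
  have hn := card_LE hM c m (i := i + 1) hi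
  have hLE : c.LE m (i + 1) = (ms (σ.bank 5) (σ.var 24)).bind (c.chE m i) := by
    rw [Cx.LE, ← hc, cur]
  refine wp_for (σ.var 24) (c.tBar + 10 * (B * B) + 10)
    (fun p σ' => nxt σ' = (ms (σ.bank 5) p).bind (c.chE m i))
    [36, 37, 49, 42, 43, 44, 45, 46, 47, 48, 62, 71, 61, 64, 65, 66, 25] [6] false (by decide)
    (by decide) (by decide) (by decide) rfl (by omega) (by omega) (by simp [nxt, h25]) ?_
    fun σ' t' _ hI ht => ⟨hI.trans hLE.symm,
      ht.trans (by have := Nat.mul_le_mul_right (c.tBar + 10 * (B * B) + 10 + 2) hl; omega)⟩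
  intro p σ' t' hp hF h35 hI
  have e5 : σ'.bank 5 = σ.bank 5 := hF.bank 5 (by decide)
  have hz : σ.bank 5 p ∈ c.LE m i := by
    rw [← hc, cur, mem_ms]
    exact ⟨p, hp, rfl⟩
  have hsucc : (ms (σ.bank 5) (p + 1)).bind (c.chE m i) =
      nxt σ' + c.chE m i (σ.bank 5 p) := by
    rw [ms_succ, Multiset.add_bind, Multiset.singleton_bind, hI]
  have hcard := bind_mono (ms_le (σ.bank 5) (show p + 1 ≤ σ.var 24 from hp)) (c.chE m i)
  rw [hsucc, ← hLE, Multiset.card_add, nxt, card_ms] at hcard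
  refine (h2 hB (hs.frame hF (by decide) (by decide)) hi hz (by omega) (by rw [e5, h35])
    ((hF.var 60 (by decide)).trans h60) ((hF.var 63 (by decide)).trans h63) (by omega)).mono ?_
  rintro σ'' t'' ⟨a1, a2⟩
  exact ⟨by rw [nxt_setv _ _ (by decide), a1, hsucc], a2⟩

/-- one digit -/
theorem round (hM : Mth) (h1 : SCopy) (h2 : SPar) (hB : Bnd c E) {σ : St} {t m i : ℕ}
    (hs : Hs c m σ) (hi : i < c.k) (hc : cur σ = c.LE m i) (h34 : σ.var 34 = i) :
    WP E (blk [.set 60 (epw (emul (.c 20) (.v 34))),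
      .set 63 (esub (emul (.v 60) (.c 1048576)) (.c 1)), .set 25 (.c 0), forL 35 24 pPar, pCopy])
      (fun σ' t' => cur σ' = c.LE m (i + 1) ∧
        t' ≤ t + (c.Nt * (c.tBar + 10 * (B * B) + 20) + 18)) σ t := by
  have hbig := hB.big
  have hΘ := hB.lΘ
  have hNt := hB.Nt
  have hT := c.T_pos
  have hA := hB.lA
  have hkA := hB.kA
  have hM' := hB.lM
  have h20 := hB.l20
  have hpw : B ^ (i + 1) ≤ c.M := Nat.pow_le_pow_right B_pos hi
  have hpos : 0 < B ^ (i + 1) := pow_pos B_pos _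
  have hsu : B ^ i * 1048576 = B ^ (i + 1) := by rw [pow_succ, ← B_eq]
  have hn := card_LE hM c m (i := i + 1) hi
  simp only [wp_blk_cons, wp_set, wp_blk_nil, Expr.safe, Expr.eval, St.setv_var,
    if_true, BOp.safe, BOp.eval, h34, hs.par.T, hs.par.A, true_and, and_true,
    c.epw_eq (show 20 * i ≤ c.A by omega), ← B_pw, hsu]
  refine ⟨by omega, by omega, by omega, ?_⟩
  set σ₁ := ((σ.setv 60 (B ^ i)).setv 63 (B ^ (i + 1) - 1)).setv 25 0 with hσ₁
  have hF₁ : Frame [60, 63, 25] [] false σ σ₁ :=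
    (((Frame.refl _ _ _ σ₁).of_setv (by decide)).of_setv (by decide)).of_setv (by decide)
  refine (inner hM h2 hB (hs.frame hF₁ (by decide) (by decide)) hi
    (by rw [hσ₁, cur_setv _ _ (by decide), cur_setv _ _ (by decide), cur_setv _ _ (by decide), hc])
    (by simp [hσ₁]) (by simp [hσ₁]) (by simp [hσ₁])).mono ?_
  rintro σ₂ t₂ ⟨a1, a2⟩
  have h25 : σ₂.var 25 ≤ c.Nt := by rwa [← a1, nxt, card_ms] at hn
  refine (h1 hB (by omega)).mono ?_
  rintro σ₃ t₃ ⟨b1, b2⟩
  refine ⟨b1.trans a1, ?_⟩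
  have e : c.Nt * (c.tBar + 10 * (B * B) + 20) =
      c.Nt * (c.tBar + 10 * (B * B) + 10 + 2) + 8 * c.Nt := by ring
  omega

end EnuP

open EnuP

theorem sPEnum (hM : Mth) (h1 : SCopy) (h2 : SPar) : SPEnum := by
  intro E c hB σ t m hs
  have hbig := hB.big
  have hT := c.T_pos
  have hA := hB.lA
  have hkA := hB.kA
  have hz := hB.lz'
  have hlim := hB.lim
  have hM2 := c.M2_pos
  have hn2 : 2 * c.n + 4 ≤ c.T := (Nat.le_mul_of_pos_right _ hM2).trans hz
  unfold pEnum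
  rw [wp_blk_cons]
  refine wp_for (2 * c.n) 1 (fun p σ' => ∀ a < p, σ'.bank 5 a = a * c.M2) [] [5] false
    (by decide) (by decide) (by decide) (by decide) hs.par.n2 (by omega) (by omega) (by simp) ?_ ?_
  · intro p σ' t' hp hF h35 hI
    have hP := hs.par.frame hF (by decide)
    have : p * c.M2 ≤ (2 * c.n + 4) * c.M2 := Nat.mul_le_mul_right _ (by omega)
    simp only [wp_st, Expr.safe, Expr.eval, BOp.safe, BOp.eval, h35, hP.M2, true_and,
      St.setv_bank, St.setm_bank, if_true]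
    refine ⟨by omega, by omega, fun a ha => ?_, le_rfl⟩
    rw [Function.update_apply]
    split_ifs with h
    · rw [h]
    · exact hI a (by omega)
  intro σ₁ t₁ hF₁ hI₁ ht₁
  have hs₁ := hs.frame hF₁ (by decide) (by decide)
  simp only [wp_blk_cons, wp_set, wp_blk_nil, Expr.safe, Expr.eval, true_and, hs₁.par.n2]
  have hs₂ := hs₁.frame (frame_setv σ₁ 24 (2 * c.n)) (by decide) (by decide)
  refine wp_for c.k (c.Nt * (c.tBar + 10 * (B * B) + 20) + 18)
    (fun i σ' => cur σ' = c.LE m i)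
    [60, 63, 35, 36, 37, 49, 42, 43, 44, 45, 46, 47, 48, 62, 71, 61, 64, 65, 66, 25, 67, 24] [6, 5]
    false (by decide) (by decide) (by decide) (by decide) hs₂.par.k (by omega) (by omega) ?_ ?_
    fun σ' t' _ hI ht => ⟨hI, by
      unfold Cx.tEnum; simp only [Nat.add_assoc, Nat.reduceAdd] at ht ⊢; omega⟩
  · rw [cur_setv _ _ (by decide), cur, St.setv_var, if_pos rfl, St.setv_bank, Cx.LE]
    exact ms_congr hI₁
  · intro i σ' t' hi hF h34 hI
    refine (round hM h1 h2 hB (hs₂.frame hF (by decide) (by decide)) hi hI h34).mono ?_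
    rintro σ'' t'' ⟨a1, a2⟩
    exact ⟨by rw [cur_setv _ _ (by decide), a1], a2⟩

theorem sInit (hM : Mth) (h1 : SHash) (h2 : SPEnum) : SInit := by
  intro E c hB σ t m hP hd h20
  unfold pInit
  rw [wp_blk_cons]
  refine (h1 hB hP hd h20).mono ?_
  rintro σ₁ t₁ ⟨hs, a2⟩
  rw [wp_blk_cons]
  refine (h2 hB hs).call
    [34, 60, 63, 35, 36, 37, 49, 42, 43, 44, 45, 46, 47, 48, 62, 71, 61, 64, 65, 66, 25, 67, 24]
    [6, 5] false (by decide) ?_
  rintro σ₂ t₂ hF ⟨b1, b2⟩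
  have hs₂ := hs.frame hF (by decide) (by decide)
  have hn := card_LE hM c m (i := c.k) le_rfl
  rw [← b1, cur, card_ms] at hn
  simp only [wp_blk_cons, wp_set, wp_blk_nil, Expr.safe, Expr.eval, true_and, hs₂.par.k]
  refine ⟨hs₂.frame (frame_setv σ₂ 21 c.k) (by decide) (by decide), by simp, ?_, by simpa using hn,
    by unfold Cx.tInit; omega⟩
  rw [cur_setv _ _ (by decide), b1]
  exact hM.enum c hd

end Pool.Agent.P.MP_8f87b2_lc.DT
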