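import Pool.Agent.P.MP_8f87b2_lc.DT.Base

/-!
# Deterministic 3SUM: the list of nodes at the top level
-/

namespace Pool.Agent.P.MP_8f87b2_lc.DT

open Finset
open KS (dg enc)
open Cx

namespace EnumP

theorem card_bind {L : Multiset ℕ} {f : ℕ → Multiset ℕ} {P P' : ℕ → Prop} [DecidablePred P]
    [DecidablePred P'] (h : ∀ z ∈ L, ((f z).filter P').card = if P z then 1 else 0) :
    ((L.bind f).filter P').card = (L.filter P).card := by
  induction L using Multiset.induction_on with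
  | empty => simp
  | cons a L ih =>
    rw [Multiset.cons_bind, Multiset.filter_add, Multiset.card_add, Multiset.filter_cons,
      Multiset.card_add, ih fun z hz => h z (Multiset.mem_cons_of_mem hz),
      h a (Multiset.mem_cons_self _ _)]
    split_ifs <;> simp

theorem card_one {N : ℕ} {P : ℕ → Prop} [DecidablePred P] (h : ∃! r, r < N ∧ P r) :
    ((Multiset.range N).filter P).card = 1 := by
  obtain ⟨r, h1, h2⟩ := h
  refine (card_eq_one (s := (range N).filter P)).2 ⟨r, eq_singleton_iff_unique_mem.2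
    ⟨by simpa using h1, fun r' h => h2 r' (by simpa using h)⟩⟩

/-- the candidate `r` carries the letters `x`, `y` -/
def Fit (x y r : ℕ) : Prop :=
  (x = r / B ∧ y = (r / B + r % B) % B) ∨ (x = (r / B + r % B) % B ∧ y = r / B)

theorem md {a d y : ℕ} (ha : a < B) (hd : d < B) :
    y = (a + d) % B ↔ y < B ∧ (a + d = y ∨ a + d = y + B) := by
  rw [B_eq] at *
  omega

theorem cn {a d : ℕ} (ha : a < B) : canon a d ↔ 2 * d < B ∨ 2 * d = B ∧ 2 * a < B := by
  unfold canon
  rw [B_eq] at *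
  omega

theorem uniq {x y : ℕ} (hx : x < B) (hy : y < B) :
    ∃! r, r < B * B ∧ canon (r / B) (r % B) ∧ Fit x y r := by
  unfold Fit
  refine existsUnique_of_exists_of_unique ?_ fun r r' ⟨a1, a2, a3⟩ ⟨b1, b2, b3⟩ => ?_
  · obtain ⟨a, d, ha, hd, h⟩ : ∃ a d, a < B ∧ d < B ∧ canon a d ∧
        ((x = a ∧ y = (a + d) % B) ∨ (x = (a + d) % B ∧ y = a)) := by
      have e := B_eq
      rcases le_total x y with h | h
      · by_cases h1 : 2 * (y - x) ≤ B
        · exact ⟨x, y - x, hx, by omega, (cn hx).2 (by omega), .inl ⟨rfl, (md hx (by omega)).2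
            (by omega)⟩⟩
        · exact ⟨y, x + B - y, hy, by omega, (cn hy).2 (by omega), .inr ⟨(md hy (by omega)).2
            (by omega), rfl⟩⟩
      · by_cases h1 : 2 * (x - y) ≤ B
        · exact ⟨y, x - y, hy, by omega, (cn hy).2 (by omega), .inr ⟨(md hy (by omega)).2
            (by omega), rfl⟩⟩
        · exact ⟨x, y + B - x, hx, by omega, (cn hx).2 (by omega), .inl ⟨rfl, (md hx (by omega)).2
            (by omega)⟩⟩
    refine ⟨d + B * a, by nlinarith, ?_⟩
    rwa [Nat.add_mul_div_left _ _ B_pos, Nat.div_eq_of_lt hd, zero_add, Nat.add_mul_mod_self_left,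
      Nat.mod_eq_of_lt hd]
  · have a4 := Nat.div_lt_of_lt_mul a1
    have a5 := Nat.mod_lt r B_pos
    have b4 := Nat.div_lt_of_lt_mul b1
    have b5 := Nat.mod_lt r' B_pos
    rw [md a4 a5, md a4 a5] at a3
    rw [md b4 b5, md b4 b5] at b3
    rw [cn a4] at a2
    rw [cn b4] at b2
    rw [← Nat.div_add_mod r B, ← Nat.div_add_mod r' B]
    generalize r / B = a, r % B = d, r' / B = a', r' % B = d' at *
    obtain ⟨rfl, rfl⟩ : a = a' ∧ d = d' := by omega
    rfl

theorem enc_trunc {i k : ℕ} {f : ℕ → ℕ} (hi : i ≤ k) (h : ∀ j, i ≤ j → j < k → f j = 0) :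
    enc B k f = enc B i f :=
  (sum_subset (range_mono hi) fun j h1 h2 => by
    rw [h j (by simpa using h2) (mem_range.1 h1), zero_mul]).symm

variable {c : Cx} {m i : ℕ}

theorem tb (h : SEnumC) (h' : STop) (hi : i ≤ c.k) {z : ℕ} (hz : z ∈ c.LE m i) :
    z % c.M2 / c.M + c.bar (z % c.M2) =
      enc B i (c.al (z % c.M2)) + enc B i (c.be (z % c.M2)) := by
  obtain ⟨-, h1, -⟩ := (h c m hi).2 z hz
  obtain ⟨t1, -, t2, -⟩ := h' c (Nat.mod_lt z c.M2_pos)
  rw [← KS.enc_dg' t1, KS.enc_congr fun j hj => (t2 j hj).1,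
    enc_trunc hi fun j a b => (h1 j a b).2, bar,
    enc_trunc hi fun j a b => by rw [be, (h1 j a b).1, (h1 j a b).2, Nat.zero_mod]]

theorem cmp_sum {w p q : ℕ} (h : c.cmp i w p q) :
    enc B i (c.al w) + enc B i (c.be w) = p % B ^ i + q % B ^ i := by
  rw [← KS.enc_dg, ← KS.enc_dg]
  unfold KS.enc
  rw [← sum_add_distrib, ← sum_add_distrib]
  refine sum_congr rfl fun j hj => ?_
  rcases h j (mem_range.1 hj) with ⟨a, b⟩ | ⟨a, b⟩ <;> simp only [a, b]
  exact add_comm _ _

theorem inv (h : SEnumC) (h' : STop) (hi : i ≤ c.k) :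
    (∀ z ∈ c.LE m i, Can i (z % c.M2) ∧
      (z % c.M2 / c.M + c.bar (z % c.M2)) % B ^ i = c.tau m (z / c.M2) % B ^ i) ∧
    ∀ g < 2 * c.n, ∀ p q, p + q = c.tau m g →
      ((c.LE m i).filter fun z => z / c.M2 = g ∧ c.cmp i (z % c.M2) p q).card = 1 := by
  induction i with
  | zero =>
    refine ⟨fun z _ => ⟨fun j hj => absurd hj (by omega), by simp [Nat.mod_one]⟩,
      fun g hg p q _ => ?_⟩
    rw [Cx.LE, Multiset.filter_map, Multiset.card_map]
    refine card_one ⟨g, ⟨hg, Nat.mul_div_cancel _ c.M2_pos, fun j hj => absurd hj (by omega)⟩,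
      fun r hr => (Nat.mul_div_cancel _ c.M2_pos).symm.trans hr.2.1⟩
  | succ i ih =>
    obtain ⟨ih1, ih2⟩ := ih (by omega)
    have key : ∀ z ∈ c.LE m i, ∀ r < B * B, c.kidE i z r / c.M2 = z / c.M2 ∧
        (∀ j < i, df (c.kidE i z r % c.M2) j = df (z % c.M2) j ∧
          c.al (c.kidE i z r % c.M2) j = c.al (z % c.M2) j ∧
          c.be (c.kidE i z r % c.M2) j = c.be (z % c.M2) j) ∧
        df (c.kidE i z r % c.M2) i = r % B ∧ c.al (c.kidE i z r % c.M2) i = r / B ∧
        c.be (c.kidE i z r % c.M2) i = (r / B + r % B) % B := fun z hz r hr => by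
      obtain ⟨k1, k2⟩ := ((h c m (by omega)).2 z hz).2.2 r hr hi
      refine ⟨k1, fun j hj => ?_, ?_⟩
      · have := k2 j (by omega)
        rw [if_neg hj.ne, if_neg hj.ne] at this
        exact ⟨this.1, this.2, by rw [be, be, this.1, this.2]⟩
      · have := k2 i hi
        rw [if_pos rfl, if_pos rfl] at this
        exact ⟨this.1, this.2, by rw [be, this.1, this.2]⟩
    refine ⟨fun z' hz' => ?_, fun g hg p q e => ?_⟩
    · have t := tb h h' hi hz'
      obtain ⟨z, hz, hz'⟩ := Multiset.mem_bind.1 hz'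
      obtain ⟨r, hr, rfl⟩ := Multiset.mem_map.1 hz'
      obtain ⟨hr, o1, o2⟩ := Multiset.mem_filter.1 hr
      obtain ⟨k1, k2, k3, k4, k5⟩ := key z hz r (Multiset.mem_range.1 hr)
      refine ⟨fun j hj => ?_, ?_⟩
      · rcases Nat.lt_succ_iff_lt_or_eq.1 hj with hj | rfl
        · rw [(k2 j hj).1]; exact (ih1 z hz).1 j hj
        · rw [k3]
          unfold canon at o1
          have := B_eq
          omega
      · rw [t, k1, ← o2, tb h h' (by omega) hz, KS.enc_succ, KS.enc_succ, k4, k5,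
          KS.enc_congr fun j hj => (k2 j hj).2.1, KS.enc_congr fun j hj => (k2 j hj).2.2]
        congr 1
        ring
    refine (card_bind fun z hz => ?_).trans (ih2 g hg p q e)
    have kc : ∀ r < B * B, (c.kidE i z r / c.M2 = g ∧ c.cmp (i + 1) (c.kidE i z r % c.M2) p q) ↔
        (z / c.M2 = g ∧ c.cmp i (z % c.M2) p q) ∧ Fit (dg B i p) (dg B i q) r := fun r hr => by
      obtain ⟨k1, k2, -, k4, k5⟩ := key z hz r hr
      rw [k1, and_assoc, Cx.cmp, Nat.forall_lt_succ_right, k4, k5]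
      refine and_congr_right fun _ => and_congr_left fun _ => forall₂_congr fun j hj => ?_
      rw [(k2 j hj).2.1, (k2 j hj).2.2]
    rw [chE, Multiset.filter_map, Multiset.card_map, Multiset.filter_filter]
    split_ifs with hP
    · obtain ⟨r, ⟨r1, r2, r3⟩, r4⟩ := uniq (KS.dg_lt B_pos i p) (KS.dg_lt B_pos i q)
      refine card_one ⟨r, ⟨r1, (kc r r1).2 ⟨hP, r3⟩, r2, ?_⟩,
        fun r' ⟨a, b, d⟩ => r4 r' ⟨a, d.1, ((kc r' a).1 b).2⟩⟩
      have e1 : r / B + (r / B + r % B) % B = dg B i p + dg B i q := by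
        rcases r3 with ⟨a, b⟩ | ⟨a, b⟩ <;> omega
      rw [tb h h' (by omega) hz, cmp_sum hP.2, e1, hP.1, ← e, Nat.add_mod p q,
        ← KS.enc_dg B (i + 1) p, ← KS.enc_dg B (i + 1) q, KS.enc_succ, KS.enc_succ, KS.enc_dg,
        KS.enc_dg]
      congr 1
      ring
    · rw [Multiset.card_eq_zero, Multiset.filter_eq_nil]
      exact fun r hr a => hP ((kc r (Multiset.mem_range.1 hr)).1 a.1).1

end EnumP

theorem sEnum (h : SEnumC) (h' : STop) : SEnum := by
  intro c m hm
  obtain ⟨i1, i2⟩ := EnumP.inv (m := m) h h' (le_refl c.k)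
  refine ⟨fun z hz => ⟨((h c m le_rfl).2 z hz).1, (i1 z hz).1, (i1 z hz).2.trans ?_⟩,
    fun g hg a _ b _ e => ?_⟩
  · refine Nat.mod_eq_of_lt (lt_of_lt_of_le ?_ hm.2)
    have h1 : c.gc m (z / c.M2 / 2) < m := Nat.mod_lt _ hm.1
    have h2 := Nat.mul_le_mul_right m (show z / c.M2 % 2 ≤ 1 by omega)
    unfold tau
    omega
  · rw [← i2 g hg _ _ e]
    congr 1
    refine Multiset.filter_congr fun z _ => and_congr_right fun _ => ⟨fun h => h.2.2, fun h =>
      ⟨fun j hj => (h j hj).imp And.left fun a => ⟨hj, a.1⟩,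
        fun j hj => (h j hj).imp And.right fun a => ⟨hj, a.2⟩, h⟩⟩

end Pool.Agent.P.MP_8f87b2_lc.DT
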