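import Pool.Agent.P.MP_8f87b2_lc.DT.Base

/-!
# Deterministic 3SUM: the size of the lists of nodes and the digits of their members
-/

namespace Pool.Agent.P.MP_8f87b2_lc.DT

open Finset
open KS (dg enc)
open Cx

namespace EnumCP

theorem dg_mul_pow {x : ℕ} (hx : x < B) (a i : ℕ) :
    dg B i (x * B ^ a) = if i = a then x else 0 := by
  have h0 : (0 : ℕ) < B ^ a := pow_pos B_pos _
  rcases lt_trichotomy i a with h | rfl | h
  · have := KS.dg_add_mul_lt B_pos h 0 x
    rw [zero_add, KS.dg_zero] at this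
    rw [this, if_neg h.ne]
  · rw [if_pos rfl, dg, Nat.mul_div_cancel _ h0, Nat.mod_eq_of_lt hx]
  · rw [if_neg h.ne']
    refine KS.dg_of_lt' (q := a + 1) B_pos ?_ h
    rw [pow_succ']
    exact Nat.mul_lt_mul_of_pos_right hx h0

/-- writing a letter into an empty position -/
theorem add_dig {q a w x : ℕ} (ha : a < q) (hw : w < B ^ q) (hx : x < B) (h0 : dg B a w = 0) :
    w + x * B ^ a < B ^ q ∧
      ∀ i < q, dg B i (w + x * B ^ a) = if i = a then x else dg B i w := by
  have h1 : x * B ^ a < B ^ q := by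
    refine lt_of_lt_of_le ?_ (Nat.pow_le_pow_right B_pos (show a + 1 ≤ q from ha))
    rw [pow_succ']
    exact Nat.mul_lt_mul_of_pos_right hx (pow_pos B_pos _)
  have h2 := KS.add_nc hw h1 fun j _ => by
    rw [dg_mul_pow hx]
    split_ifs with e
    · rw [e, h0, zero_add]; exact hx
    · exact KS.dg_lt B_pos _ _
  refine ⟨h2.1, fun i hi => ?_⟩
  rw [h2.2 i hi, dg_mul_pow hx]
  split_ifs with e
  · rw [e, h0, zero_add]
  · rfl

/-- the digits of a candidate child -/
theorem kid (c : Cx) {i z r : ℕ} (hi : i < c.k) (hr : r < B * B)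
    (h1 : df (z % c.M2) i = 0) (h2 : c.al (z % c.M2) i = 0) :
    c.kidE i z r / c.M2 = z / c.M2 ∧ ∀ j < c.k,
      df (c.kidE i z r % c.M2) j = (if j = i then r % B else df (z % c.M2) j) ∧
      c.al (c.kidE i z r % c.M2) j = if j = i then r / B else c.al (z % c.M2) j := by
  have hw : z % c.M2 < B ^ (2 * c.k) := Nat.mod_lt _ c.M2_pos
  have ha : r / B < B := Nat.div_lt_of_lt_mul hr
  have hd : r % B < B := Nat.mod_lt _ B_pos
  obtain ⟨a1, a2⟩ := add_dig (a := c.k + i) (by omega) hw ha h2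
  have h3 : dg B i (z % c.M2 + r / B * B ^ (c.k + i)) = 0 := by
    rw [a2 i (by omega), if_neg (by omega)]; exact h1
  obtain ⟨b1, b2⟩ := add_dig (a := i) (by omega) a1 hd h3
  have e : c.kidE i z r =
      (z % c.M2 + r / B * B ^ (c.k + i) + r % B * B ^ i) + c.M2 * (z / c.M2) := by
    have := Nat.mod_add_div z c.M2
    have e2 : r / B * B ^ i * c.M = r / B * B ^ (c.k + i) := by
      rw [Cx.M, pow_add]; ring
    rw [Cx.kidE, e2]
    omega
  have b1' : z % c.M2 + r / B * B ^ (c.k + i) + r % B * B ^ i < c.M2 := b1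
  rw [e, Nat.add_mul_div_left _ _ c.M2_pos, Nat.div_eq_of_lt b1', zero_add,
    Nat.add_mul_mod_self_left, Nat.mod_eq_of_lt b1']
  refine ⟨rfl, fun j hj => ⟨?_, ?_⟩⟩
  · rw [df, b2 j (by omega), a2 j (by omega), if_neg (show j ≠ c.k + i by omega)]
    rfl
  · rw [Cx.al, b2 _ (by omega), if_neg (by omega), a2 _ (by omega)]
    by_cases e : j = i
    · rw [if_pos e, if_pos (by omega)]
    · rw [if_neg e, if_neg (by omega)]
      rfl

theorem arith {a d a' d' : ℕ} (ha : a < 1048576) (ha' : a' < 1048576)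
    (h : (a + (a + d) % 1048576) % 1048576 = (a' + (a' + d') % 1048576) % 1048576)
    (e : d / 2 * 2 + a / 524288 = d' / 2 * 2 + a' / 524288) : a = a' ∧ d = d' := by
  have e1 : d / 2 = d' / 2 := by omega
  have e2 : a / 524288 = a' / 524288 := by omega
  have e3 : d = d' := by omega
  subst e3
  exact ⟨by omega, rfl⟩

theorem card_le {N K : ℕ} (p : ℕ → Prop) [DecidablePred p] (f g : ℕ → ℕ)
    (h1 : ∀ r < N, p r → g r < K)
    (h2 : ∀ r < N, ∀ r' < N, p r → p r' → g r = g r' → r = r') :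
    (((Multiset.range N).filter p).map f).card ≤ K := by
  have e : (((Multiset.range N).filter p).map f).card = ((range N).filter p).card := by
    rw [Multiset.card_map]
    rfl
  rw [e, ← card_range K]
  refine card_le_card_of_injOn g ?_ ?_
  · intro r hr
    obtain ⟨a1, a2⟩ := mem_filter.mp (mem_coe.mp hr)
    exact mem_coe.mpr (mem_range.mpr (h1 r (mem_range.mp a1) a2))
  · intro r hr r' hr' hf
    obtain ⟨a1, a2⟩ := mem_filter.mp (mem_coe.mp hr)
    obtain ⟨b1, b2⟩ := mem_filter.mp (mem_coe.mp hr')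
    exact h2 r (mem_range.mp a1) r' (mem_range.mp b1) a2 b2 hf

/-- at most `524289` candidates are accepted -/
theorem card_ch (c : Cx) (m i z : ℕ) : (c.chE m i z).card ≤ 524289 := by
  refine card_le _ _ (fun r => r % B / 2 * 2 + r / B / 524288) ?_ ?_
  · intro r h1 h
    have h2 := h.1
    have ha : r / B < B := Nat.div_lt_of_lt_mul h1
    have hB := B_eq
    unfold canon at h2
    generalize r / B = a at ha h2 ⊢
    generalize r % B = d at h2 ⊢
    omega
  · intro r h1 r' h1' h h' hf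
    have ha : r / B < B := Nat.div_lt_of_lt_mul h1
    have ha' : r' / B < B := Nat.div_lt_of_lt_mul h1'
    have h4 := Nat.ModEq.add_left_cancel' _
      (show Nat.ModEq (B ^ (i + 1)) _ _ from h.2.trans h'.2.symm)
    rw [pow_succ'] at h4
    have h5 : (r / B + (r / B + r % B) % B) % B = (r' / B + (r' / B + r' % B) % B) % B :=
      Nat.ModEq.mul_right_cancel' (pow_pos B_pos i).ne' h4
    have e1 := Nat.div_add_mod r B
    have e2 := Nat.div_add_mod r' B
    generalize r / B = a at ha h5 e1 hf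
    generalize r % B = d at h5 e1 hf
    generalize r' / B = a' at ha' h5 e2 hf
    generalize r' % B = d' at h5 e2 hf
    rw [B_eq] at h5 ha ha'
    obtain ⟨e3, e4⟩ := arith ha ha' h5 hf
    rw [← e1, ← e2, e3, e4]

theorem mem_ch {c : Cx} {m i z y : ℕ} (h : y ∈ c.chE m i z) : ∃ r < B * B, y = c.kidE i z r := by
  obtain ⟨r, hr, rfl⟩ := Multiset.mem_map.mp h
  exact ⟨r, Multiset.mem_range.mp (Multiset.mem_filter.mp hr).1, rfl⟩

theorem card_bind_le (L : Multiset ℕ) (f : ℕ → Multiset ℕ) (K : ℕ) (h : ∀ z, (f z).card ≤ K) :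
    (L.bind f).card ≤ L.card * K := by
  induction L using Multiset.induction_on with
  | empty => simp
  | cons a L ih =>
    rw [Multiset.cons_bind, Multiset.card_add, Multiset.card_cons, add_mul, one_mul, add_comm]
    exact Nat.add_le_add ih (h a)

theorem LE_zero (c : Cx) (m : ℕ) :
    c.LE m 0 = (Multiset.range (2 * c.n)).map fun g => g * c.M2 := rfl

theorem LE_succ (c : Cx) (m i : ℕ) : c.LE m (i + 1) = (c.LE m i).bind (c.chE m i) := rfl

theorem card_LE (c : Cx) (m K : ℕ) (h : ∀ i z, (c.chE m i z).card ≤ K) (i : ℕ) :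
    (c.LE m i).card ≤ 2 * c.n * K ^ i := by
  induction i with
  | zero => rw [LE_zero, Multiset.card_map, Multiset.card_range, pow_zero, mul_one]
  | succ i ih =>
    rw [LE_succ, pow_succ, ← mul_assoc]
    exact (card_bind_le _ _ K (h i)).trans (Nat.mul_le_mul_right _ ih)

theorem mem_LE (c : Cx) (m i : ℕ) (hi : i ≤ c.k) : ∀ z ∈ c.LE m i, z / c.M2 < 2 * c.n ∧
    ∀ j, i ≤ j → j < c.k → df (z % c.M2) j = 0 ∧ c.al (z % c.M2) j = 0 := by
  induction i with
  | zero =>
    intro z hz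
    rw [LE_zero] at hz
    obtain ⟨g, hg, e⟩ := Multiset.mem_map.mp hz
    rw [← e, Nat.mul_div_cancel _ c.M2_pos, Nat.mul_mod_left]
    exact ⟨Multiset.mem_range.mp hg, fun j _ _ => ⟨KS.dg_zero _ _, KS.dg_zero _ _⟩⟩
  | succ i ih =>
    intro y hy
    rw [LE_succ] at hy
    obtain ⟨z, hz, hyz⟩ := Multiset.mem_bind.mp hy
    obtain ⟨r, hr, e⟩ := mem_ch hyz
    have hi' : i < c.k := hi
    obtain ⟨a1, a2⟩ := ih hi'.le z hz
    obtain ⟨b1, b2⟩ := kid c hi' hr (a2 i le_rfl hi').1 (a2 i le_rfl hi').2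
    rw [e, b1]
    refine ⟨a1, fun j hj hj' => ?_⟩
    have hne : j ≠ i := by omega
    rw [(b2 j hj').1, (b2 j hj').2, if_neg hne, if_neg hne]
    exact a2 j (by omega) hj'

end EnumCP

theorem sEnumC : SEnumC := by
  intro c m i hi
  refine ⟨EnumCP.card_LE c m _ (EnumCP.card_ch c m) i, fun z hz => ?_⟩
  obtain ⟨a1, a2⟩ := EnumCP.mem_LE c m i hi z hz
  exact ⟨a1, a2, fun r hr hik => EnumCP.kid c hik hr (a2 i le_rfl hik).1 (a2 i le_rfl hik).2⟩

end Pool.Agent.P.MP_8f87b2_lc.DT
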