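import Pool.Agent.P.MP_8f87b2_lc.DT.Ctx

/-!
# Deterministic 3SUM: filling the global rows
-/

namespace Pool.Agent.P.MP_8f87b2_lc.DT

open Finset
open KS (dg enc)
open Cx

namespace GlobP

theorem zer_succ (j y : ℕ) : zer (j + 1) y = zer j y + if df y j = 0 then 1 else 0 := by
  unfold zer
  rw [range_add_one, filter_insert]
  split_ifs with h
  · rw [card_insert_of_notMem (by simp)]
  · rfl

theorem zer_le (j y : ℕ) : zer j y ≤ j := (card_filter_le _ _).trans (card_range j).le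

theorem can_succ (j y : ℕ) : Can (j + 1) y ↔ Can j y ∧ df y j ≤ 524288 := by
  unfold Can
  exact Nat.forall_lt_succ_right

/-- the number of global lower halves below `y` -/
def gcn (c : Cx) (k' y : ℕ) : ℕ := ((range y).filter fun y' => c.Gl k' y').card

theorem gcn_succ (c : Cx) (k' y : ℕ) :
    gcn c k' (y + 1) = gcn c k' y + if c.Gl k' y then 1 else 0 := by
  unfold gcn
  rw [range_add_one, filter_insert]
  split_ifs with h
  · rw [card_insert_of_notMem (by simp)]
  · rfl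

theorem test {E : Env} {c : Cx} (hB : Bnd c E) {σ : St} {t m k' y : ℕ} (hL : Lv c m k' σ)
    (h53 : σ.var 53 = y) :
    WP E pTestG (fun σ' t' => (σ'.var 55 ≠ 0 ↔ c.Gl k' y) ∧ t' ≤ t + c.tTest) σ t := by
  have hbig := hB.big
  have l20 := hB.l20
  have lA := hB.lA
  have kA := hB.kA
  have hk := hL.le
  unfold pTestG
  simp only [wp_blk_cons, wp_set, wp_blk_nil]
  simp only [Expr.safe, Expr.eval]
  refine ⟨by omega, by omega, ?_⟩
  refine wp_for k' 5 (fun j σ' => (σ'.var 55 ≠ 0 ↔ Can j y) ∧ σ'.var 56 = zer j y)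
    [43, 55, 56] [] false (by decide) (by decide) (by decide) (by decide) (by simp [hL.kp])
    (by omega) (by omega) (by simp [Can, zer]) ?_ ?_
  · rintro j σ₂ t₂ hj hF₂ h42 ⟨h55, h56⟩
    have u53 : σ₂.var 53 = y := by rw [hF₂.var 53 (by decide)]; simp [h53]
    have z1 := zer_le j y
    have e : dg B j y = df y j := rfl
    rw [can_succ, zer_succ]
    simp only [wp_blk_cons, wp_set, wp_ite, wp_skip, wp_blk_nil]
    simp only [Expr.safe, Expr.eval, BOp.safe, BOp.eval, St.setv_var, h42, u53, h56,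
      Nat.reduceEqDiff, if_true, if_false, true_and, and_true, edg_eq, e]
    refine ⟨by omega, by omega, fun a => ⟨by omega, fun b => ?_, fun b => ?_⟩,
      fun a => ⟨fun b => ?_, fun b => ?_⟩⟩
    · have a' : ¬ df y j ≤ 524288 := fun e => by simp [Nat.not_lt.mpr e] at a
      simp [a', b]
    · simp [b] at a
    · have a' : df y j ≤ 524288 := by
        by_contra e
        simp [Nat.not_le.mp e] at a
      simp only [a', b, h55, and_true, if_false, add_zero, true_and]
      omega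
    · simp only [b, h55, if_true, true_and, Nat.zero_le, and_true]
      omega
  · rintro σ₂ t₂ hF₂ ⟨h55, h56⟩ ht
    have u22 : σ₂.var 22 = c.s k' := by rw [hF₂.var 22 (by decide)]; simp [hL.s]
    simp only [wp_set, wp_ite, wp_skip]
    simp only [Expr.safe, Expr.eval, BOp.safe, BOp.eval, St.setv_var, u22, h56, if_true,
      true_and, and_true]
    unfold Gl tTest
    refine ⟨fun a => ⟨by omega, ?_, by omega⟩, fun a => ⟨?_, by omega⟩⟩
    · have a' : ¬ c.s k' ≤ zer k' y := fun e => by simp [Nat.not_lt.mpr e] at a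
      simp [a']
    · have a' : c.s k' ≤ zer k' y := by
        by_contra e
        simp [Nat.not_le.mp e] at a
      simp only [a', h55, and_true]

theorem inner (hM : Mth) (h : SRow) {E : Env} {c : Cx} (hB : Bnd c E) {σ : St} {t m k' y : ℕ}
    (hL : Lv c m k' σ) (h53 : σ.var 53 = y) (hy : y < c.M) (hg : c.Gl k' y)
    (hI : ∀ w < c.M2, c.Gl k' w → w % c.M < y → Fil c m k' σ w) :
    WP E (forL 54 4 (blk [.set 41 (eadd (emul (.v 54) (.v 4)) (.v 53)), pRow]))
      (fun σ' t' => (∀ w < c.M2, c.Gl k' w → w % c.M < y + 1 → Fil c m k' σ' w) ∧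
        t' ≤ t + (c.M * (c.tRow + 3) + 2)) σ t := by
  have hbig := hB.big
  have lM := hB.lM
  have lM2 := hB.lM2
  have M0 := c.M_pos
  have hk := hL.le
  refine wp_for c.M (c.tRow + 1) (fun x σ' => ∀ w < c.M2, c.Gl k' w →
      (w % c.M < y ∨ (w % c.M = y ∧ w / c.M < x)) → Fil c m k' σ' w)
    [41, 49, 42, 43, 44, 45, 46, 47, 48, 50, 51, 52] [7, 8, 9] false (by decide) (by decide)
    (by decide) (by decide) hL.hs.par.M (by omega) (by omega) ?_ ?_ ?_
  · intro w hw hgw hlt
    exact hI w hw hgw (hlt.resolve_right fun e => Nat.not_lt_zero _ e.2)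
  · intro x σ₂ t₂ hx hF₂ h54 hJ
    have hL₂ := hL.frame hF₂ (by decide) (by decide)
    have u53 : σ₂.var 53 = y := by rw [hF₂.var 53 (by decide), h53]
    have hw0 : x * c.M + y < c.M2 := by
      have : (x + 1) * c.M ≤ c.M * c.M := Nat.mul_le_mul_right _ hx
      rw [c.M2_eq]
      rw [Nat.add_mul] at this
      omega
    have e1 : (x * c.M + y) % c.M = y := by rw [Nat.mul_add_mod_self_right, Nat.mod_eq_of_lt hy]
    have hg0 : c.Gl k' (x * c.M + y) := ((hM.top c hw0).2.2.2 k' hk).1 (e1.symm ▸ hg)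
    simp only [wp_blk_cons, wp_set, wp_blk_nil]
    simp only [Expr.safe, Expr.eval, BOp.safe, BOp.eval, h54, u53, hL₂.hs.par.M, true_and]
    refine ⟨by omega, ?_⟩
    refine (h hB (hL₂.frame (frame_setv _ _ _) (by decide) (by decide)) hw0 (by simp) ?_).mono ?_
    · intro j hj hd
      obtain ⟨-, -, d1, d2, -, -, d3⟩ := hM.dig c hw0 (hj.trans_le hk)
      obtain ⟨-, d4, d5, -⟩ := d3 hd
      obtain ⟨g1, g2⟩ := (hM.dep c hk hw0).1 hg0 j hj
      rw [e1] at d4 d5
      exact ⟨hJ _ d1 g1 (Or.inl d4), hJ _ d2 g2 (Or.inl d5)⟩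
    · rintro σ₃ t₃ ⟨f, hK, ht⟩
      refine ⟨fun w hw hgw hlt => ?_, by omega⟩
      by_cases e : w % c.M = y ∧ w / c.M = x
      · have : w = x * c.M + y := by rw [← e.1, ← e.2, Nat.div_add_mod']
        rw [this]
        exact f
      · exact hK w hw (hJ w hw hgw (by omega))
  · intro σ₂ t₂ _ hJ ht
    refine ⟨fun w hw hgw hlt => hJ w hw hgw ?_, by rw [Nat.add_assoc c.tRow] at ht; omega⟩
    have := (hM.top c hw).1
    omega

end GlobP

open GlobP

theorem sGlob (hM : Mth) (h : SRow) : SGlob := by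
  intro E c hB σ t m k' hL
  have hbig := hB.big
  have lM := hB.lM
  have M0 := c.M_pos
  unfold pGlob
  refine wp_forT c.M (fun y σ' t' => (∀ w < c.M2, c.Gl k' w → w % c.M < y → Fil c m k' σ' w) ∧
      t' ≤ t + (y * (c.tTest + 6) + gcn c k' y * (c.M * (c.tRow + 3)) + 1))
    [55, 56, 54, 41, 49, 42, 43, 44, 45, 46, 47, 48, 50, 51, 52] [7, 8, 9] false (by decide)
    (by decide) (by decide) (by decide) hL.hs.par.M (by omega) (by omega)
    ⟨fun w _ _ hlt => absurd hlt (Nat.not_lt_zero _), by omega⟩ ?_ ?_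
  · rintro y σ₁ t₁ hy hF₁ h53 ⟨hI, ht₁⟩
    have hL₁ := hL.frame hF₁ (by decide) (by decide)
    simp only [wp_blk_cons, wp_blk_nil]
    refine (test hB hL₁ h53).call [55, 56, 42, 43] [] false (by decide) ?_
    rintro σ₂ t₂ hF₂ ⟨h55, ht₂⟩
    have hL₂ := hL₁.frame hF₂ (by decide) (by decide)
    have u53 : σ₂.var 53 = y := by rw [hF₂.var 53 (by decide), h53]
    have hI₂ : ∀ w < c.M2, c.Gl k' w → w % c.M < y → Fil c m k' σ₂ w := fun w hw hg hlt =>
      Keeps.of_frame hF₂ (by decide) w hw (hI w hw hg hlt)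
    rw [wp_ite, gcn_succ, Nat.add_mul, Nat.add_mul]
    refine ⟨trivial, fun a => ?_, fun a => ?_⟩
    · have hg : c.Gl k' y := h55.1 a
      refine (inner hM h hB hL₂ u53 hy hg hI₂).mono ?_
      rintro σ₃ t₃ ⟨hJ, ht₃⟩
      rw [if_pos hg]
      exact ⟨hJ, by omega⟩
    · have hg : ¬ c.Gl k' y := fun e => h55.2 e a
      rw [wp_skip, if_neg hg]
      refine ⟨fun w hw hgw hlt => hI₂ w hw hgw ?_, by omega⟩
      have e : w % c.M ≠ y := fun e => hg (e ▸ ((hM.top c hw).2.2.2 k' hL.le).2 hgw)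
      omega
  · rintro σ₁ t₁ _ _ ⟨hI, ht₁⟩
    refine ⟨fun w hw hg => hI w hw hg (Nat.mod_lt _ M0), ?_⟩
    have e : gcn c k' c.M = c.DLc k' := rfl
    rw [e] at ht₁
    unfold tGlob
    omega

end Pool.Agent.P.MP_8f87b2_lc.DT
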