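import Pool.Agent.P.MP_8f87b2_lc.DT.Ctx

/-!
# Deterministic 3SUM: the greedy choice of the modulus
-/

set_option maxRecDepth 8000

namespace Pool.Agent.P.MP_8f87b2_lc.DT

open Finset
open KS (dg enc)
open Cx

namespace GreedyP

variable {E : Env} {c : Cx}

/-- the variables written by the subroutines -/
def vsI : List ℕ := [21, 22, 23, 24, 25, 26, 27, 34, 35, 36, 37, 38, 39, 40, 41, 42, 43, 44, 45,
  46, 47, 48, 49, 50, 51, 52, 53, 54, 55, 56, 57, 58, 59, 60, 61, 62, 63, 64, 65, 66, 67, 68, 69,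
  70, 71]

/-- the banks written by the subroutines -/
def bsI : List ℕ := [1, 2, 3, 5, 6, 7, 8, 9, 10]

theorem tLevel_mono (k' : ℕ) {a b : ℕ} (h : a ≤ b) : c.tLevel k' a ≤ c.tLevel k' b := by
  unfold Cx.tLevel
  have := Nat.mul_le_mul_right (c.tLoc k') h
  split_ifs <;> omega

theorem PS_lt (hM : Mth) (hB : Bnd c E) {m : ℕ} (hm : Md c m) : c.PS m < c.T :=
  (hM.sum c hm le_rfl (hM.enum c hm)).2.2.2.trans_lt hB.lP

theorem sTry (h1 : SInit) (h2 : SLevel) (hB : Bnd c E) {σ : St} {t mb p : ℕ} (hP : Par c σ)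
    (h28 : σ.var 28 = mb) (h32 : σ.var 32 = p) (hm : Md c (mb * (p + 1))) :
    WP E pTry (fun σ' t' =>
      ((c.PS (mb * (p + 1)) < σ.var 29 ∧ σ'.var 29 = c.PS (mb * (p + 1)) ∧ σ'.var 30 = p + 1) ∨
        (σ.var 29 ≤ c.PS (mb * (p + 1)) ∧ σ'.var 29 = σ.var 29 ∧ σ'.var 30 = σ.var 30)) ∧
      t' ≤ t + c.tTry) σ t := by
  have hb := hB.big
  have hT := c.T_pos
  have hM := hB.lM
  have hm1 := hm.1
  have hm2 := hm.2
  have hp : p + 1 ≤ mb * (p + 1) :=
    Nat.le_mul_of_pos_left _ (Nat.pos_of_mul_pos_right hm1)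
  unfold pTry
  simp only [wp_blk_cons, wp_set]
  refine ⟨by simp only [Expr.safe, Expr.eval, BOp.safe, BOp.eval, h28, h32, true_and]; omega, ?_⟩
  simp only [Expr.eval, BOp.eval, h28, h32]
  have hF0 := frame_setv σ 20 (mb * (p + 1))
  refine (h1 hB (hP.frame hF0 (by decide)) hm (by simp)).call vsI bsI false (by decide)
    fun σ₁ t₁ hF1 ⟨hH, h21, hL, h24, ht1⟩ => ?_
  refine (h2 hB hH h21 hB.k1 le_rfl hL (h24.trans hB.Nt)).call vsI bsI false (by decide)
    fun σ₂ t₂ hF2 ⟨_, h26, ht2⟩ => ?_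
  have e26 := h26 hB.k1k
  have e : ∀ x ∈ [29, 30, 32], σ₂.var x = σ.var x := fun x hx =>
    (hF2.var x (by revert x; decide)).trans ((hF1.var x (by revert x; decide)).trans
      (hF0.var x (by revert x; decide)))
  have e29 := e 29 (by decide)
  have e30 := e 30 (by decide)
  have e32 := (e 32 (by decide)).trans h32
  have ht3 := tLevel_mono (c := c) c.k h24
  simp only [wp_ite, wp_blk_cons, wp_set, wp_blk_nil, wp_skip, Expr.safe, Expr.eval, BOp.safe,
    BOp.eval, St.setv_var, e26, e29, e30, e32, true_and, and_true]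
  unfold Cx.tTry
  refine ⟨fun h => ?_, fun h => ?_⟩
  · have h' : c.PS (mb * (p + 1)) < σ.var 29 := by
      by_contra h''
      simp [h''] at h
    refine ⟨by simp [e32]; omega, .inl ⟨h', by simp, by simp [e32]⟩, by omega⟩
  · have h' : σ.var 29 ≤ c.PS (mb * (p + 1)) := by
      by_contra h''
      simp [not_le.1 h''] at h
    exact ⟨.inr h', by omega⟩

theorem sRound (hM : Mth) (h1 : SInit) (h2 : SLevel) (hB : Bnd c E)
    (hρ : c.ρ ^ 19999 ≤ 2 ^ c.κ) {σ : St} {t j : ℕ} (hP : Par c σ) (hj : j < 19999)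
    (hG : c.GInv j (σ.var 28)) :
    WP E pRound (fun σ' t' => (c.GInv (j + 1) (σ'.var 28) ∧ σ'.var 29 = c.PS (σ'.var 28)) ∧
      t' ≤ t + (c.Q * (c.tTry + 2) + 8)) σ t := by
  have hb := hB.big
  have hT := c.T_pos
  have hlM := hB.lM
  have hQ := c.Q_pos
  have hmd := (hM.grEnd c hB.inp hρ).1 j hj (σ.var 28)
  generalize h28 : σ.var 28 = mb at hG hmd
  have hQW : c.Q < E.W := by
    have := (hmd c.Q hG hQ le_rfl).2
    have := Nat.le_mul_of_pos_left c.Q hG.1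
    omega
  unfold pRound
  simp only [wp_blk_cons, wp_set]
  refine ⟨trivial, by simp only [Expr.safe]; omega, ?_⟩
  simp only [Expr.eval, hP.T]
  have hF0 : Frame [29, 30] [] false σ ((σ.setv 29 c.T).setv 30 1) :=
    ((frame_setv σ 29 c.T).weaken (by decide) (by decide) id).trans
      ((frame_setv _ 30 1).weaken (by decide) (by decide) id)
  have hP0 := hP.frame hF0 (by decide)
  refine wp_for c.Q c.tTry (fun p σ' => (∀ p', 1 ≤ p' → p' ≤ p → σ'.var 29 ≤ c.PS (mb * p')) ∧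
    ((p = 0 ∧ σ'.var 29 = c.T) ∨ (1 ≤ σ'.var 30 ∧ σ'.var 30 ≤ p ∧
      σ'.var 29 = c.PS (mb * σ'.var 30)))) (20 :: 29 :: 30 :: vsI) bsI false (by decide)
    (by decide) (by decide) (by decide) hP0.Q hQW (by omega)
    ⟨fun p' a b => by omega, .inl ⟨rfl, by simp⟩⟩ ?_ ?_
  · intro p σ₁ t₁ hp hF h32 ⟨hI1, hI2⟩
    have hm := hmd (p + 1) hG (by omega) hp
    have hlt := PS_lt hM hB hm
    refine (sTry h1 h2 hB (hP0.frame hF (by decide))
      ((hF.var 28 (by decide)).trans ((hF0.var 28 (by decide)).trans h28)) h32 hm).mono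
      fun σ₂ t₂ ⟨h, ht⟩ => ⟨?_, ht⟩
    simp only [St.setv_var, Nat.reduceEqDiff, if_false]
    rcases h with ⟨a, b, d⟩ | ⟨a, b, d⟩
    · rw [b, d]
      refine ⟨fun p' h3 h4 => ?_, .inr ⟨by omega, le_rfl, rfl⟩⟩
      rcases h4.lt_or_eq with h5 | rfl
      · exact a.le.trans (hI1 p' h3 (by omega))
      · exact le_rfl
    · rw [b, d]
      refine ⟨fun p' h3 h4 => ?_, .inr ?_⟩
      · rcases h4.lt_or_eq with h5 | rfl
        · exact hI1 p' h3 (by omega)
        · exact a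
      · rcases hI2 with ⟨-, e⟩ | ⟨e1, e2, e3⟩
        · omega
        · exact ⟨e1, by omega, e3⟩
  · intro σ₁ t₁ hF ⟨hI1, hI2⟩ ht
    obtain ⟨e1, e2, e3⟩ := hI2.resolve_left fun h => hQ.ne' h.1
    have e28 : σ₁.var 28 = mb := (hF.var 28 (by decide)).trans ((hF0.var 28 (by decide)).trans h28)
    have hm := (hmd _ hG e1 e2).2
    simp only [wp_blk_nil, Expr.safe, Expr.eval, BOp.safe, BOp.eval, e28, true_and, St.setv_var,
      Nat.reduceEqDiff, if_false, if_true]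
    refine ⟨by omega, ⟨(hM.gr c hB.inp).2 j mb _ hG ⟨_, e1, e2, rfl, fun p' h3 h4 => ?_⟩, e3⟩,
      by omega⟩
    rw [← e3]
    exact hI1 p' h3 h4

end GreedyP

open GreedyP in
theorem sGreedy (hM : Mth) (h1 : SInit) (h2 : SLevel) : SGreedy := by
  intro E c hB hρ σ t hP
  have hb := hB.big
  have hT := hB.l20
  unfold pGreedy
  simp only [wp_blk_cons, wp_set, wp_blk_nil]
  refine ⟨by simp only [Expr.safe]; omega, ?_⟩
  simp only [Expr.eval]
  have hP0 := hP.frame (frame_setv σ 28 1) (by decide)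
  refine wp_for 19999 (c.Q * (c.tTry + 2) + 8) (fun j σ' => c.GInv j (σ'.var 28) ∧
    (0 < j → σ'.var 29 = c.PS (σ'.var 28))) (28 :: 32 :: 20 :: 29 :: 30 :: vsI) bsI false
    (by decide) (by decide) (by decide) (by decide) hP0.J (by omega) (by omega)
    ⟨by simpa using (hM.gr c hB.inp).1, fun h => absurd h (lt_irrefl _)⟩ ?_ ?_
  · intro j σ₁ t₁ hj hF _ ⟨hI, _⟩
    refine (sRound hM h1 h2 hB hρ (hP0.frame hF (by decide)) hj hI).mono
      fun σ₂ t₂ ⟨⟨a, b⟩, ht⟩ => ⟨?_, ht⟩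
    simp only [St.setv_var, Nat.reduceEqDiff, if_false]
    exact ⟨a, fun _ => b⟩
  · intro σ₁ t₁ _ ⟨hI1, hI2⟩ ht
    refine ⟨hI1, hI2 (by norm_num), ?_⟩
    unfold Cx.tGreedy
    rw [Nat.add_assoc _ 8 2] at ht
    generalize 19999 * (c.Q * (c.tTry + 2) + 10) = y at ht ⊢
    omega

end Pool.Agent.P.MP_8f87b2_lc.DT
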