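import Pool.Agent.P.MP_8f87b2_lc.DT.Ctx

/-!
# Deterministic 3SUM: reading the input, the table of values and the residues
-/

namespace Pool.Agent.P.MP_8f87b2_lc.DT

open Finset
open KS (dg enc)
open Cx

theorem sRd (hM : Mth) : SRd := by
  intro E c hB i hi
  obtain ⟨h1, h2, h3, h4⟩ := hM.val c hB.inp i hi
  have hbig := hB.big
  have hl4 := hB.l4
  have hW : (0 : ℤ) < E.W := by exact_mod_cast (show 0 < E.W by omega)
  have r0 : 0 ≤ c.x i % E.W := Int.emod_nonneg _ hW.ne'
  have r1 : c.x i % E.W < E.W := Int.emod_lt_of_pos _ hW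
  have e : (E.inp (i + 1) : ℤ) = c.x i % E.W := by rw [hB.rd i hi, Int.toNat_of_nonneg r0]
  have hlt : E.inp (i + 1) < E.W := by exact_mod_cast e ▸ r1
  constructor
  · apply Nat.cast_injective (R := ℤ)
    push_cast
    rw [e, Int.emod_add_emod, ← h1]
    exact Int.emod_eq_of_lt (by positivity) (by exact_mod_cast (show c.u i < E.W by omega))
  · rw [Nat.mod_eq_of_lt hlt]
    apply Nat.cast_injective (R := ℤ)
    push_cast [Nat.cast_sub hlt.le]
    have e2 : (c.N4 : ℤ) + c.N4 + (E.W - E.inp (i + 1)) =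
        c.v i + E.W * (1 + c.x i / E.W) := by
      rw [e, h2, Int.emod_def]; ring
    rw [e2, Int.add_mul_emod_self_left]
    exact Int.emod_eq_of_lt (by positivity) (by exact_mod_cast (show c.v i < E.W by omega))

theorem sPres (hM : Mth) (h : SRd) : SPres := by
  intro E c hB σ t hP h4
  have hbig := hB.big
  have hl4 := hB.l4
  have hln := hB.ln
  have hn1 := hB.n1
  have hlim := hB.lim
  unfold pPres
  refine wp_for c.n 1 (fun j σ' => (∀ i < j, σ'.bank 4 (c.u i) = i + 1) ∧
      ∀ a, σ'.bank 4 a ≠ 0 → ∃ i < j, σ'.bank 4 a = i + 1 ∧ c.u i = a)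
    [] [4] false (by decide) (by decide) (by decide) (by decide) hP.n (by omega) (by omega)
    ⟨by simp, by simp [h4]⟩ ?_ ?_
  · intro j σ₂ t₂ hj hF hij ⟨h1, h2⟩
    have hP' := hP.frame hF (by decide)
    obtain ⟨e1, -, e3, -⟩ := hM.val c hB.inp j hj
    simp only [wp_st, Expr.safe, Expr.eval, BOp.safe, BOp.eval, hij, hP'.N4, (h hB j hj).1,
      St.setv_bank, St.setm_bank, if_true, true_and, and_true]
    refine ⟨by omega, by omega, by omega, ⟨fun i hi => ?_, fun a ha => ?_⟩, le_rfl⟩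
    · by_cases e : i = j
      · rw [e, Function.update_self]
      · have hne : c.u i ≠ c.u j := fun e' => e (hB.inp.inj i (by omega) j hj (by
          have e4 := (hM.val c hB.inp i (by omega)).1
          rw [e', e1] at e4
          omega))
        rw [Function.update_of_ne hne]
        exact h1 i (by omega)
    · by_cases e : a = c.u j
      · exact ⟨j, by omega, by rw [e, Function.update_self], e.symm⟩
      · rw [Function.update_of_ne e] at ha ⊢
        obtain ⟨i, hi, h3⟩ := h2 a ha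
        exact ⟨i, by omega, h3⟩
  · intro σ₂ t₂ _ hI ht
    exact ⟨hI, by omega⟩

namespace HashP

variable {E : Env} {c : Cx}

theorem four_N4 (c : Cx) : 4 * c.N4 = 2 ^ c.Lb := by
  rw [N4, Lb, pow_add]; ring

theorem mod_ok (hB : Bnd c E) {σ : St} {t m u : ℕ} (hP : Par c σ) (hm : Md c m)
    (h20 : σ.var 20 = m) (hu : u < 4 * c.N4) (h57 : σ.var 57 = u) :
    WP E pMod (fun σ' t' => σ'.var 57 = u % m ∧ t' ≤ t + c.tMod) σ t := by
  have hbig := hB.big
  have hlm := hB.lm
  have hLA := hB.LA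
  have hlA := hB.lA
  have hT := c.T_pos
  obtain ⟨m1, m2⟩ := hm
  have hq : m * 2 ^ c.Lb ≤ c.T := (Nat.mul_le_mul_right _ (by omega)).trans hlm
  have ht : c.tMod = 5 * c.Lb + 10 := rfl
  unfold pMod
  simp only [wp_blk_cons, wp_set, wp_blk_nil, Expr.safe, Expr.eval, BOp.safe, BOp.eval, hP.T, hP.A,
    hP.Lb, h20, Nat.add_sub_cancel, c.epw_eq (show c.Lb ≤ c.A by omega), true_and, and_true]
  refine ⟨by omega, ?_⟩
  refine wp_for (c.Lb + 1) 3 (fun e σ' => σ'.var 57 % m = u % m ∧
      σ'.var 57 < m * 2 ^ (c.Lb + 1 - e) ∧ (e ≤ c.Lb → σ'.var 58 = m * 2 ^ (c.Lb - e)))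
    [57, 58] [] false (by decide) (by decide) (by decide) (by decide) (by simp [hP.Lb]) (by omega)
    (by omega) ?_ ?_ ?_
  · simp only [St.setv_var, Nat.reduceEqDiff, if_true, if_false, h57, Nat.sub_zero, true_and,
      implies_true, and_true]
    rw [four_N4] at hu
    calc u < 1 * 2 ^ c.Lb := by omega
      _ ≤ m * 2 ^ (c.Lb + 1) := Nat.mul_le_mul m1 (Nat.pow_le_pow_right (by norm_num) (by omega))
  · intro e σ₂ t₂ he hF hie ⟨h1, h2, h3⟩
    have h58 := h3 (by omega)
    have e1 : m * 2 ^ (c.Lb + 1 - e) = 2 * (m * 2 ^ (c.Lb - e)) := by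
      rw [show c.Lb + 1 - e = c.Lb - e + 1 by omega, pow_succ]; ring
    have e2 : e + 1 ≤ c.Lb → (m * 2 ^ (c.Lb - e)) >>> 1 = m * 2 ^ (c.Lb - (e + 1)) := fun h => by
      rw [Nat.shiftRight_eq_div_pow, show c.Lb - e = c.Lb - (e + 1) + 1 by omega, pow_succ,
        ← mul_assoc, pow_one, Nat.mul_div_cancel _ (by norm_num)]
    simp only [wp_blk_cons, wp_set, wp_blk_nil, wp_ite, wp_skip]
    simp only [Expr.safe, Expr.eval, BOp.safe, BOp.eval, St.setv_var, h58, Nat.reduceEqDiff,
      if_true, if_false, true_and, and_true, Nat.add_sub_add_right]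
    refine ⟨fun h => ?_, fun h => ?_⟩
    · have h' : σ₂.var 57 < m * 2 ^ (c.Lb - e) := by
        by_contra hc
        simp [hc] at h
      exact ⟨by omega, ⟨h1, h', e2⟩, by omega⟩
    · have h' : m * 2 ^ (c.Lb - e) ≤ σ₂.var 57 := by
        by_contra hc
        simp [not_le.1 hc] at h
      refine ⟨h', by omega, ⟨?_, by omega, e2⟩, by omega⟩
      rw [← h1, ← Nat.add_mul_mod_self_left _ m (2 ^ (c.Lb - e)), Nat.sub_add_cancel h']
  · intro σ₂ t₂ _ ⟨h1, h2, _⟩ ht
    rw [Nat.sub_self, pow_zero, mul_one] at h2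
    exact ⟨by rw [← h1, Nat.mod_eq_of_lt h2], by omega⟩

/-- the number of the first `i` entries in the cell `p` -/
def Xi (c : Cx) (m i p : ℕ) : ℕ := ((range i).filter fun a => c.ga m a = p).card

theorem Xi_le (c : Cx) (m i p : ℕ) : Xi c m i p ≤ i :=
  (card_filter_le _ _).trans (card_range i).le

theorem Xi_succ (c : Cx) (m i p : ℕ) :
    Xi c m (i + 1) p = if c.ga m i = p then Xi c m i p + 1 else Xi c m i p := by
  unfold Xi
  rw [range_add_one, filter_insert]
  split_ifs
  · rw [card_insert_of_notMem (by simp)]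
  · rfl

theorem addr {N p p' j j' : ℕ} (hj : j < N) (hj' : j' < N) (h : p * N + j = p' * N + j') :
    p = p' ∧ j = j' := by
  have h1 : (p * N + j) % N = (p' * N + j') % N := by rw [h]
  rw [Nat.mul_add_mod_self_right, Nat.mul_add_mod_self_right, Nat.mod_eq_of_lt hj,
    Nat.mod_eq_of_lt hj'] at h1
  subst h1
  exact ⟨Nat.eq_of_mul_eq_mul_right (by omega) (Nat.add_right_cancel h), rfl⟩

/-- the invariant of the main loop -/
def HI (c : Cx) (m i : ℕ) (f1 f2 f3 : ℕ → ℕ) : Prop :=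
  (∀ a < i, f1 a = c.gc m a) ∧ (∀ p < c.M, f2 p = Xi c m i p) ∧
    (∀ p < c.M, ∀ j < Xi c m i p, f3 (p * c.Nn + j) < c.n) ∧
    ∀ a < i, ∃ j < Xi c m i (c.ga m a), f3 (c.ga m a * c.Nn + j) = a

theorem HI.step {m i : ℕ} {f1 f2 f3 : ℕ → ℕ} (h : HI c m i f1 f2 f3) (hi : i < c.n)
    (hn : c.n < c.Nn) :
    HI c m (i + 1) (Function.update f1 i (c.gc m i))
      (Function.update f2 (c.ga m i) (Xi c m i (c.ga m i) + 1))
      (Function.update f3 (c.ga m i * c.Nn + Xi c m i (c.ga m i)) i) := by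
  obtain ⟨h1, h2, h3, h4⟩ := h
  have hX : ∀ p, Xi c m i p < c.Nn := fun p => by have := Xi_le c m i p; omega
  have hne : ∀ p j, j < Xi c m i p →
      p * c.Nn + j ≠ c.ga m i * c.Nn + Xi c m i (c.ga m i) := fun p j hj e => by
    obtain ⟨rfl, e2⟩ := addr (hj.trans (hX p)) (hX _) e
    omega
  refine ⟨fun a ha => ?_, fun p hp => ?_, fun p hp j hj => ?_, fun a ha => ?_⟩
  · by_cases e : a = i
    · rw [e, Function.update_self]
    · rw [Function.update_of_ne e]; exact h1 a (by omega)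
  · rw [Xi_succ]
    split_ifs with e
    · rw [e, Function.update_self]
    · rw [Function.update_of_ne (Ne.symm e)]; exact h2 p hp
  · by_cases e : j < Xi c m i p
    · rw [Function.update_of_ne (hne p j e)]; exact h3 p hp j e
    · rw [Xi_succ] at hj
      split_ifs at hj with e2
      · rw [e2, show j = Xi c m i p by omega, Function.update_self]; exact hi
      · omega
  · by_cases e : a = i
    · exact ⟨Xi c m i (c.ga m i), by rw [e, Xi_succ, if_pos rfl]; omega,
        by rw [e, Function.update_self]⟩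
    · obtain ⟨j, hj, h5⟩ := h4 a (by omega)
      refine ⟨j, ?_, by rw [Function.update_of_ne (hne _ j hj)]; exact h5⟩
      rw [Xi_succ]
      split_ifs <;> omega

theorem in_ok (hM : Mth) (h : SRd) (hB : Bnd c E) {σ : St} {t m i : ℕ} (hP : Par c σ)
    (hm : Md c m) (h20 : σ.var 20 = m) (hi : i < c.n) (h34 : σ.var 34 = i)
    (hI : HI c m i (σ.bank 1) (σ.bank 2) (σ.bank 3)) :
    WP E pHashIn (fun σ' t' => HI c m (i + 1) (σ'.bank 1) (σ'.bank 2) (σ'.bank 3) ∧
      t' ≤ t + (2 * c.tMod + 8)) σ t := by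
  have hbig := hB.big
  have hl4 := hB.l4
  have hln := hB.ln
  have hn1 := hB.n1
  have hlim := hB.lim
  have hlK := hB.lK
  have hlM := hB.lM
  have hnN := hB.inp.nN
  obtain ⟨-, -, v1, v2⟩ := hM.val c hB.inp i hi
  obtain ⟨r1, r2⟩ := h hB i hi
  have hga : c.ga m i < c.M := (Nat.mod_lt _ hm.1).trans_le (by have := hm.2; omega)
  have hX := Xi_le c m i (c.ga m i)
  have had : c.ga m i * c.Nn + c.Nn ≤ c.M * c.Nn := by
    rw [← Nat.succ_mul]; exact Nat.mul_le_mul_right _ hga
  unfold pHashIn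
  rw [wp_blk_cons, wp_set]
  simp only [Expr.safe, Expr.eval, BOp.safe, BOp.eval, h34, hP.N4, r2, true_and, and_true]
  refine ⟨by omega, ?_⟩
  rw [wp_blk_cons]
  refine (mod_ok hB (hP.frame (frame_setv _ _ _) (by decide)) hm (by simp [h20]) v2
    (by simp)).call [57, 58, 59] [] false (by decide) fun σ₁ t₁ hF ⟨h57, ht₁⟩ => ?_
  have hF₁ : Frame [57, 58, 59] [] false σ σ₁ := hF.of_setv (by decide)
  have hP₁ := hP.frame hF₁ (by decide)
  have g34 : σ₁.var 34 = i := (hF₁.var 34 (by decide)).trans h34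
  have g20 : σ₁.var 20 = m := (hF₁.var 20 (by decide)).trans h20
  rw [wp_blk_cons, wp_st, wp_blk_cons, wp_set]
  simp only [Expr.safe, Expr.eval, BOp.safe, BOp.eval, St.setm_var, g34, h57, hP₁.N4, r1,
    true_and, and_true]
  refine ⟨by omega, by omega, ?_⟩
  rw [wp_blk_cons]
  refine (mod_ok hB ((hP₁.frame (frame_setm _ _ _ _) (by decide)).frame (frame_setv _ _ _)
    (by decide)) hm (by simp [g20]) v1 (by simp)).call [57, 58, 59] [] false (by decide)
    fun σ₂ t₂ hG ⟨k57, ht₂⟩ => ?_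
  have hG₁ : Frame [57, 58, 59] [] false (σ₁.setm 1 i (c.v i % m)) σ₂ := hG.of_setv (by decide)
  have k34 : σ₂.var 34 = i := (hG₁.var 34 (by decide)).trans g34
  have k18 : σ₂.var 18 = c.Nn := (hG₁.var 18 (by decide)).trans hP₁.Nn
  have b1 : σ₂.bank 1 = Function.update (σ.bank 1) i (c.gc m i) := by
    rw [hG₁.bank 1 (by decide), St.setm_bank, if_pos rfl, hF₁.bank 1 (by decide)]; rfl
  have b2 : σ₂.bank 2 = σ.bank 2 := by
    rw [hG₁.bank 2 (by decide), St.setm_bank, if_neg (by decide), hF₁.bank 2 (by decide)]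
  have b3 : σ₂.bank 3 = σ.bank 3 := by
    rw [hG₁.bank 3 (by decide), St.setm_bank, if_neg (by decide), hF₁.bank 3 (by decide)]
  have k57' : σ₂.var 57 = c.ga m i := k57
  simp only [wp_blk_cons, wp_st, wp_blk_nil]
  simp only [Expr.safe, Expr.eval, BOp.safe, BOp.eval, St.setm_var, St.setm_bank, k34, k18, k57',
    b1, b2, b3, hI.2.1 _ hga, Nat.reduceEqDiff, if_true, if_false, true_and]
  exact ⟨by omega, by omega, by omega, by omega, hI.step hi hnN, by omega⟩

end HashP

open HashP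

theorem sHash (hM : Mth) (h : SRd) : SHash := by
  intro E c hB σ t m hP hm h20
  have hbig := hB.big
  have hln := hB.ln
  have hlim := hB.lim
  have hlM := hB.lM
  have hT : c.tHash = 3 * c.M + c.n * (2 * c.tMod + 8 + 2) + 10 := rfl
  unfold pHash
  simp only [wp_blk_cons, wp_blk_nil]
  refine wp_for c.M 1 (fun j σ' => ∀ p < j, σ'.bank 2 p = 0) [] [2] false (by decide) (by decide)
    (by decide) (by decide) hP.M (by omega) (by omega) (by simp) ?_ ?_
  · intro j σ₂ t₂ hj hF hij hI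
    simp only [wp_st, Expr.safe, Expr.eval, hij, St.setv_bank, St.setm_bank, if_true, true_and]
    refine ⟨by omega, by omega, fun p hp => ?_, le_rfl⟩
    by_cases e : p = j
    · rw [e, Function.update_self]
    · rw [Function.update_of_ne e]; exact hI p (by omega)
  · intro σ₁ t₁ hF hI ht₁
    have hP₁ := hP.frame hF (by decide)
    have g20 : σ₁.var 20 = m := (hF.var 20 (by decide)).trans h20
    refine wp_for c.n (2 * c.tMod + 8)
      (fun i σ' => HI c m i (σ'.bank 1) (σ'.bank 2) (σ'.bank 3)) [57, 58, 59] [1, 2, 3] false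
      (by decide) (by decide) (by decide) (by decide) hP₁.n (by omega) (by omega)
      ⟨by simp, fun p hp => by simp [Xi, hI p hp], by simp [Xi], by simp⟩ ?_ ?_
    · intro i σ₂ t₂ hi hG hij hJ
      exact in_ok hM h hB (hP₁.frame hG (by decide)) hm ((hG.var 20 (by decide)).trans g20) hi hij hJ
    · intro σ₂ t₂ hG ⟨h1, h2, h3, h4⟩ ht₂
      exact ⟨⟨hP₁.frame hG (by decide), hm, (hG.var 20 (by decide)).trans g20, h1, h2, h3, h4⟩,
        by omega⟩

end Pool.Agent.P.MP_8f87b2_lc.DT
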