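import Pool.Agent.P.MP_8f87b2_lc.DT.Ctx

/-!
# Deterministic 3SUM: the leaves
-/

namespace Pool.Agent.P.MP_8f87b2_lc.DT

open Finset
open KS (dg enc)
open Cx

namespace LeafP

variable {E : Env} {c : Cx}

theorem out_trans {a b d : ℕ} (h : Out c a b) (h' : Out c b d) : Out c a d := by
  rcases h' with rfl | h'
  · exact h
  · exact Or.inr h'

theorem out_one {a b : ℕ} (h : Out c a b) (ha : a = 1) : b = 1 := by
  rcases h with rfl | h
  · exact ha
  · exact h.1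

theorem X_le (m p : ℕ) : c.X m p ≤ c.n := (card_filter_le _ _).trans (card_range _).le

/-- the entries `a` and `i` are part of a solution -/
def Sol (c : Cx) (a i : ℕ) : Prop :=
  ∃ b < c.n, a ≠ b ∧ a ≠ i ∧ b ≠ i ∧ c.x a + c.x b + c.x i = 0

theorem look (hM : Mth) (h1 : SRd) (hB : Bnd c E) {σ : St} {t m p j i : ℕ} (hH : Hs c m σ)
    (hP : Prs c σ) (hp : p < c.M) (hj : j < c.X m p) (hi : i < c.n) (e62 : σ.var 62 = p)
    (e73 : σ.var 73 = j) (e71 : σ.var 71 = i) (e75 : σ.var 75 = c.v i) :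
    WP E pLook (fun σ' t' => Out c (σ.var 0) (σ'.var 0) ∧
      (Sol c (σ.bank 3 (p * c.Nn + j)) i → σ'.var 0 = 1) ∧ t' ≤ t + 9) σ t := by
  have hbig := hB.big
  have hK := hB.lK
  have hn := hB.ln
  have hl := hB.lim
  have hn1 := hB.n1
  have h4 := hB.l4
  have hnN := hB.inp.nN
  have hX := X_le (c := c) m p
  have hpN : p * c.Nn + c.Nn ≤ c.M * c.Nn := by
    rw [← Nat.succ_mul]; exact Nat.mul_le_mul_right _ hp
  have ha := hH.bk p hp j hj
  generalize e : σ.bank 3 (p * c.Nn + j) = a at ha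
  obtain ⟨ua, -, -, -⟩ := hM.val c hB.inp a ha
  obtain ⟨-, vi, -, vl⟩ := hM.val c hB.inp i hi
  have key : ∀ b < c.n, c.x a + c.x b + c.x i = 0 ↔ c.u a + c.u b = c.v i := fun b hb => by
    have := (hM.val c hB.inp b hb).1
    omega
  unfold pLook
  simp only [wp_blk_cons, wp_set, wp_ite, wp_skip, wp_blk_nil, Expr.safe, Expr.eval, BOp.safe,
    BOp.eval, St.setv_var, St.setv_bank, Nat.reduceEqDiff, if_true, if_false, true_and, and_true,
    e62, e73, e71, e75, hH.par.Nn, hH.par.N4, e, (h1 hB a ha).1, eeq_val]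
  refine ⟨by omega, by omega, fun h => ?_, fun h => ?_⟩
  · refine ⟨Or.inl rfl, fun ⟨b, hb, _, _, _, h5⟩ => ?_, by omega⟩
    have := (key b hb).1 h5
    rw [if_neg (by omega)] at h
    exact absurd rfl h
  have hle : c.u a ≤ c.v i := by
    by_contra h'
    rw [if_pos (by omega)] at h
    exact one_ne_zero h
  have hs : Sol c a i → ∃ b, σ.bank 4 (c.v i - c.u a) = b + 1 ∧ a ≠ b ∧ a ≠ i ∧ b ≠ i :=
    fun ⟨b, hb, s1, s2, s3, h5⟩ => ⟨b, by
      rw [← (key b hb).1 h5, Nat.add_sub_cancel_left]; exact hP.1 b hb, s1, s2, s3⟩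
  refine ⟨by omega, fun h => ?_, fun h => ⟨Or.inl rfl, fun s => ?_, by omega⟩⟩
  swap
  · obtain ⟨b, s, -⟩ := hs s
    omega
  obtain ⟨b, hb, eb, ub⟩ := hP.2 _ h
  rw [eb] at hs ⊢
  refine ⟨by omega, fun h => ⟨Or.inl rfl, fun s => ?_, by omega⟩, fun g1 => ⟨by omega,
    fun h => ⟨Or.inl rfl, fun s => ?_, by omega⟩, fun g2 => ⟨by omega,
    fun h => ⟨Or.inl rfl, fun s => ?_, by omega⟩, fun g3 => ⟨by omega, Or.inr ⟨rfl,
      a, ha, b, hb, i, hi, ?_, ?_, ?_, (key b hb).2 (by omega)⟩, fun _ => trivial, by omega⟩⟩⟩⟩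
  all_goals first
    | (obtain ⟨b', s0, s1, s2, s3⟩ := hs s; split_ifs at h <;> omega)
    | (split_ifs at g1 g2 g3; omega)

/-- the node `z` shows a solution -/
def Hit (c : Cx) (m z : ℕ) : Prop := ∃ a < c.n, Sol c a (z / c.M2 / 2) ∧
  z % c.M2 / c.M = c.ga m a ∧ c.X m (c.bar (z % c.M2)) ≠ 0

/-- the number of entries looked at for the node `z` -/
def wk (c : Cx) (m z : ℕ) : ℕ :=
  if c.X m (c.bar (z % c.M2)) = 0 then 0 else c.X m (z % c.M2 / c.M)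

theorem Prs.frame {σ σ' : St} {vs : List ℕ} {r : Bool} (h : Prs c σ) (hF : Frame vs [] r σ σ') :
    Prs c σ' := by
  unfold Prs
  rw [hF.bank 4 (by decide)]
  exact h

theorem node (hM : Mth) (h1 : SRd) (h2 : SBar) (hB : Bnd c E) {σ : St} {t m z : ℕ}
    (hH : Hs c m σ) (hP : Prs c σ) (hz : z / c.M2 < 2 * c.n) (h35 : σ.var 35 < c.T)
    (e5 : σ.bank 5 (σ.var 35) = z) :
    WP E (blk [.set 36 (.ld 5 (.v 35)), .set 37 erow, pBar 37, .ite (.ld 2 (.v 49)) (blk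
      [.set 62 (eshr (.v 37) (.v 6)), .set 71 (eshr (eshr (.v 36) (.v 19)) (.c 1)),
        .set 75 (evv (.v 71)), .set 74 (.ld 2 (.v 62)), forL 73 74 pLook]) .skip])
      (fun σ' t' => Out c (σ.var 0) (σ'.var 0) ∧ (Hit c m z → σ'.var 0 = 1) ∧
        t' ≤ t + (c.tBar + 9) + 11 * wk c m z) σ t := by
  have hbig := hB.big
  have hn := hB.ln
  have hl := hB.lim
  have hn1 := hB.n1
  have h4 := hB.l4
  have hlM := hB.lM
  have hM2 := c.M2_pos
  have hw : z % c.M2 < c.M2 := Nat.mod_lt _ hM2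
  obtain ⟨t1, t2, -⟩ := hM.top c hw
  simp only [wp_blk_cons, wp_set, Expr.safe, Expr.eval, BOp.safe, BOp.eval, St.setv_var,
    Nat.reduceEqDiff, if_true, if_false, true_and, e5, hH.par.M2, c.and_M2]
  refine ⟨by omega, ⟨by omega, trivial⟩, ?_⟩
  set σ₁ := (σ.setv 36 z).setv 37 (z % c.M2) with hσ₁
  have hF₁ : Frame [36, 37] [] false σ σ₁ :=
    ((frame_setv _ _ _).weaken (by decide) (by decide) id).trans
      ((frame_setv _ _ _).weaken (by decide) (by decide) id)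
  refine (h2 hB (Or.inl rfl) (hH.par.frame hF₁ (by decide)) hw (by simp [hσ₁])).call
    [42, 43, 44, 45, 46, 47, 48, 49] [] false (by decide) ?_
  rintro σ₂ t₂ hF₂ ⟨e49, ht₂⟩
  have hH₂ := (hH.frame hF₁ (by decide) (by decide)).frame hF₂ (by decide) (by decide)
  have hP₂ := Prs.frame (Prs.frame hP hF₁) hF₂
  have e0 : σ₂.var 0 = σ.var 0 := (hF₂.var 0 (by decide)).trans (hF₁.var 0 (by decide))
  have e36 : σ₂.var 36 = z := by rw [hF₂.var 36 (by decide)]; simp [hσ₁]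
  have e37 : σ₂.var 37 = z % c.M2 := by rw [hF₂.var 37 (by decide)]; simp [hσ₁]
  have hi : z / c.M2 / 2 < c.n := by omega
  simp only [wp_blk_cons, wp_set, wp_ite, wp_skip, wp_blk_nil, Expr.safe, Expr.eval, BOp.safe,
    BOp.eval, St.setv_var, St.setv_bank, Nat.reduceEqDiff, if_true, if_false, true_and, and_true,
    e49, e36, e37, e0, hH₂.X _ t1, hH₂.X _ t2, hH₂.par.lb, hH₂.par.lb2, hH₂.par.N4, c.shr_M,
    c.shr_M2, Nat.shiftRight_one, (h1 hB _ hi).2]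
  refine ⟨by omega, fun h => ⟨by omega, by omega, by omega, ?_⟩,
    fun h => ⟨Or.inl rfl, fun ⟨_, _, _, _, h'⟩ => absurd h h', by omega⟩⟩
  rw [wk, if_neg h]
  unfold Hit
  generalize z / c.M2 / 2 = i at *
  generalize z % c.M2 / c.M = p at *
  have hX := X_le (c := c) m p
  set σ₃ := (((σ₂.setv 62 p).setv 71 i).setv 75 (c.v i)).setv 74 (c.X m p) with hσ₃
  have hF₃ : Frame [62, 71, 75, 74] [] false σ₂ σ₃ :=
    ⟨fun x hx => by simp_all, fun _ _ => rfl, fun _ => rfl⟩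
  refine wp_for (c.X m p) 9 (fun j σ' => Out c (σ.var 0) (σ'.var 0) ∧
      ∀ j' < j, Sol c (σ₂.bank 3 (p * c.Nn + j')) i → σ'.var 0 = 1) [0, 57, 72, 76] [] false
    (by decide) (by decide) (by decide) (by decide) (by simp [hσ₃]) (by omega) (by omega)
    ⟨Or.inl (by simp [hσ₃, e0]), by simp⟩ ?_ ?_
  · rintro j σ₄ t₄ hj hF₄ e73 ⟨a1, a2⟩
    refine (look hM h1 hB ((hH₂.frame hF₃ (by decide) (by decide)).frame hF₄ (by decide)
      (by decide)) (Prs.frame (Prs.frame hP₂ hF₃) hF₄) t1 hj hi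
      (by rw [hF₄.var 62 (by decide)]; simp [hσ₃]) e73
      (by rw [hF₄.var 71 (by decide)]; simp [hσ₃])
      (by rw [hF₄.var 75 (by decide)]; simp [hσ₃])).mono ?_
    rintro σ₅ t₅ ⟨b1, b2, b3⟩
    rw [hF₄.bank 3 (by decide), hF₃.bank 3 (by decide)] at b2
    refine ⟨⟨out_trans a1 b1, fun j' hj' s => ?_⟩, b3⟩
    rcases Nat.lt_succ_iff_lt_or_eq.1 hj' with h' | rfl
    · exact out_one b1 (a2 j' h' s)
    · exact b2 s
  · rintro σ₄ t₄ - ⟨a1, a2⟩ ht
    refine ⟨a1, fun ⟨a, ha, s, e, _⟩ => ?_, by omega⟩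
    obtain ⟨j, hj, e'⟩ := hH₂.bk' a ha
    rw [← e] at hj e'
    exact a2 j hj (e'.symm ▸ s)

end LeafP

open LeafP in
theorem sLeaf (hM : Mth) (h1 : SRd) (h2 : SBar) : SLeaf := by
  intro E c hB σ t m hH hP hL hlen hPS
  have hbig := hB.big
  have hΘ := hB.lΘ
  have hΘ1 := hB.Θ1
  obtain ⟨l1, l2⟩ := hM.leaf c hB.inp hH.md hL
  set K := c.tBar + 11 with hK
  unfold pLeaf
  refine wp_forT (σ.var 24) (fun p σ' t' => Out c (σ.var 0) (σ'.var 0) ∧
      (∀ q < p, Hit c m (σ.bank 5 q) → σ'.var 0 = 1) ∧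
      t' ≤ t + 1 + p * K + 11 * ((ms (σ.bank 5) p).map (wk c m)).sum)
    [0, 36, 37, 42, 43, 44, 45, 46, 47, 48, 49, 57, 62, 71, 72, 73, 74, 75, 76] [] false
    (by decide) (by decide) (by decide) (by decide) rfl (by omega) (by omega)
    ⟨Or.inl (by simp), by simp, by simp⟩ ?_ ?_
  · rintro p σ₁ t₁ hp hF e35 ⟨a1, a2, a3⟩
    refine (node hM h1 h2 hB (hH.frame hF (by decide) (by decide)) (Prs.frame hP hF)
      (hL.node _ (mem_ms.2 ⟨p, hp, rfl⟩)).g (by omega)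
      (by rw [hF.bank 5 (by decide), e35])).mono ?_
    rintro σ₂ t₂ ⟨b1, b2, b3⟩
    refine ⟨out_trans a1 b1, fun q hq s => ?_, ?_⟩
    · rcases Nat.lt_succ_iff_lt_or_eq.1 hq with h' | rfl
      · exact out_one b1 (a2 q h' s)
      · exact b2 s
    · rw [ms_succ, Multiset.map_add, Multiset.sum_add, Multiset.map_singleton,
        Multiset.sum_singleton, Nat.add_mul]
      omega
  · rintro σ₁ t₁ - - ⟨a1, a2, a3⟩
    refine ⟨a1, fun ⟨a, ha, b, hb, i, hi, s1, s2, s3, s4⟩ => ?_, ?_⟩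
    · obtain ⟨z, hz, rfl, z2, z3⟩ := l1 a ha b hb i hi s4
      obtain ⟨q, hq, rfl⟩ := mem_ms.1 hz
      exact a2 q hq ⟨a, ha, ⟨b, hb, s1, s2, s3, s4⟩, z2, z3⟩
    · have l3 : ((ms (σ.bank 5) (σ.var 24)).map (wk c m)).sum ≤ c.PS m := l2
      have l4 := Nat.mul_le_mul_right K hlen
      have l5 : c.tLeaf = c.Θ * K + 19 * c.Θ + 2 := by rw [tLeaf, hK]; ring
      omega

end Pool.Agent.P.MP_8f87b2_lc.DT
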