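import Pool.Agent.P.MP_8f87b2_lc.DT.Ctx

/-!
# Deterministic 3SUM: the local rows of a node and its children
-/

namespace Pool.Agent.P.MP_8f87b2_lc.DT

open Finset
open KS (dg enc)
open Cx

namespace LocP

variable {E : Env} {c : Cx}

theorem addr (hB : Bnd c E) {j w : ℕ} (hj : j ≤ c.k) (hw : w < c.M2) : j * c.M2 + w < c.T := by
  have h1 := hB.lU
  have h2 : j * c.M2 ≤ c.k * c.M2 := Nat.mul_le_mul_right _ hj
  rw [Nat.succ_mul] at h1
  omega

theorem app (hM : Mth) (h1 : SPDep) (hB : Bnd c E) {σ : St} {t m k' w p : ℕ} (hL : Lv c m k' σ)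
    (hw : w < c.M2) (h37 : σ.var 37 = w) (h40 : σ.var 40 = p) :
    WP E pApply (fun σ' t' => σ'.var 41 = c.rT w p k' ∧ t' ≤ t + c.tApply) σ t := by
  have hbig := hB.big
  have hlA := hB.lA
  have hkA := hB.kA
  have hk := hL.le
  obtain ⟨-, -, r1, -⟩ := hM.dep c hk hw
  unfold pApply
  simp only [wp_blk_cons, wp_set, wp_blk_nil, Expr.safe, Expr.eval, h37, true_and]
  refine wp_for k' 10 (fun j σ' => σ'.var 41 = c.rT w p j) [70, 43, 44, 45, 46, 47, 48, 41] []
    false (by decide) (by decide) (by decide) (by decide) (by simp [hL.kp]) (by omega) (by omega)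
    (by simp [rT]) ?_ fun σ' t' _ e ht => ⟨e, by unfold Cx.tApply; omega⟩
  intro j σ' t' hj hF hi e
  have hF' : Frame [42, 70, 43, 44, 45, 46, 47, 48, 41] [] false σ σ' := hF.of_setv (by decide)
  have g40 : σ'.var 40 = p := (hF'.var 40 (by decide)).trans h40
  rw [wp_blk_cons, wp_set, wp_blk_cons, wp_ite]
  simp only [Expr.safe, Expr.eval, BOp.safe, BOp.eval, g40, hi, ed4_eq, St.setv_var, if_true,
    true_and, and_true]
  refine ⟨by omega, fun h0 => ?_, fun h0 => ?_⟩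
  · rw [wp_blk_cons]
    refine (h1 hB (Or.inr rfl) ((hL.hs.par.frame hF' (by decide)).frame (frame_setv _ 70 _)
      (by decide)) (r1 p j (by omega)) (hj.trans_le hk) (by simp [e]) (by simp [hi])).call
      [43, 44, 45, 46, 47, 48] [] false (by decide) ?_
    rintro σ₁ t₁ hF₁ ⟨-, -, g46, -, g48, ht⟩
    have g70 : σ₁.var 70 = dg 4 j p := by rw [hF₁.var 70 (by decide)]; simp
    simp only [wp_blk_cons, wp_set, wp_ite, wp_blk_nil, Expr.safe, Expr.eval, St.setv_var,
      Nat.reduceEqDiff, if_true, if_false, BOp.safe, BOp.eval, g46, g48, g70, true_and, and_true,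
      rT, if_neg h0]
    refine ⟨by omega, fun a => ⟨(if_neg fun b => by simp [b] at a).symm, by omega⟩,
      fun a => ⟨(if_pos ?_).symm, by omega⟩⟩
    by_contra b
    rw [if_pos (by omega)] at a
    omega
  · simp only [wp_skip, wp_blk_nil, St.setv_var, Nat.reduceEqDiff, if_false, rT, if_pos h0, e,
      true_and]
    omega

theorem pt_zero (hB : Bnd c E) (k' : ℕ) : c.Pt k' 0 := by
  have := hB.inp.κ1
  refine ⟨fun j _ => by simp [dg], ?_⟩
  have e : Cx.wt k' 0 = 0 := by simp [Cx.wt, dg]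
  rw [e, Cx.s]
  omega

end LocP

open LocP

theorem sLoc (hM : Mth) (h1 : SPDep) (h2 : SRow) : SLoc := by
  intro E c hB σ t m k' w hT hw hC h37
  have hbig := hB.big
  have hk := hT.lv.le
  have hΘ := hB.lΘ
  have hΘ1 := hB.Θ1
  have hN : c.PLc k' ≤ c.Θ := by
    refine (card_filter_le _ _).trans ?_
    rw [card_range]
    exact (Nat.pow_le_pow_right (by norm_num) hk).trans hB.p4
  obtain ⟨-, r0, r1, r2⟩ := hM.dep c hk hw
  unfold pLoc
  rw [wp_blk_cons]
  refine wp_for (c.PLc k') (c.tApply + c.tRow + 1) (fun i σ' => Keeps c m k' σ σ' ∧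
      ∀ i' < i, Fil c m k' σ' (c.rT w (σ.bank 10 i') k'))
    [40, 41, 42, 70, 43, 44, 45, 46, 47, 48, 49, 50, 51, 52] [7, 8, 9] false (by decide)
    (by decide) (by decide) (by decide) hT.pats.len (by omega) (by omega)
    ⟨fun _ _ h => h, by simp⟩ ?_ ?_
  · intro i σ' t' hi hF h39 ⟨e1, e2⟩
    rw [wp_blk_cons, wp_set, wp_blk_cons]
    simp only [Expr.safe, Expr.eval, h39, hF.bank 10 (by decide), hB.lim, true_and]
    refine ⟨by omega, ?_⟩
    have hL₀ := (hT.lv.frame hF (by decide) (by decide)).frame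
      (frame_setv σ' 40 (σ.bank 10 i)) (by decide) (by decide)
    refine (app hM h1 hB hL₀ hw (by simp [hF.var 37 (by decide), h37]) (p := σ.bank 10 i)
      (by simp)).call [41, 42, 70, 43, 44, 45, 46, 47, 48] [] false (by decide) ?_
    rintro σ₁ t₁ hF₁ ⟨g41, ht₁⟩
    have k1 : Keeps c m k' σ' σ₁ :=
      (Keeps.of_frame (frame_setv σ' 40 _) (by decide)).trans (Keeps.of_frame hF₁ (by decide))
    obtain ⟨p1, p2⟩ := hT.pats.mem i hi
    have key : ∀ j < k', df (c.rT w (σ.bank 10 i) k') j ≠ 0 →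
        ∀ w' ∈ [w1 (c.rT w (σ.bank 10 i) k') j, c.w2 (c.rT w (σ.bank 10 i) k') j],
          w' < c.M2 → Fil c m k' σ₁ w' := by
      intro j hj h0 w' hw' hlt
      refine k1 _ hlt ?_
      rcases r2 hC _ p1 p2 j hj h0 w' hw' with g | ⟨t', a1, a2, a3, rfl⟩
      · exact e1 _ hlt (hT.gl _ hlt g)
      · obtain ⟨i', b1, rfl⟩ := hT.pats.all t' a2 a3
        refine e2 i' (lt_of_not_ge fun b => ?_)
        rcases b.eq_or_lt with rfl | b
        · omega
        · have := hT.pats.dec i i' b b1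
          omega
    rw [wp_blk_cons]
    refine (h2 hB (hL₀.frame hF₁ (by decide) (by decide)) (r1 _ k' hk) g41 fun j hj h0 => ?_).mono ?_
    · obtain ⟨-, -, d3, d4, -⟩ := hM.dig c (r1 (σ.bank 10 i) k' hk) (hj.trans_le hk)
      exact ⟨key j hj h0 _ (by simp) d3, key j hj h0 _ (by simp) d4⟩
    · rintro σ₂ t₂ ⟨f1, f2, ht₂⟩
      rw [wp_blk_nil]
      refine ⟨⟨(e1.trans k1).trans f2, fun i' hi' => ?_⟩, by omega⟩
      rcases (Nat.lt_succ_iff_lt_or_eq.1 hi') with b | rfl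
      · exact f2 _ (r1 _ k' hk) (k1 _ (r1 _ k' hk) (e2 i' b))
      · exact f1
  · intro σ' t' hF ⟨e1, e2⟩ ht
    have hL := hT.lv.frame hF (by decide) (by decide)
    obtain ⟨i, b1, b2⟩ := hT.pats.all 0 (by positivity) (pt_zero hB k')
    have f := e2 i b1
    rw [b2, r0] at f
    have a := addr hB hk hw
    have a2 : c.PLc k' * (c.tApply + c.tRow + 1 + 2) ≤ c.PLc k' * (c.tApply + c.tRow + 5) :=
      Nat.mul_le_mul_left _ (by omega)
    simp only [wp_blk_cons, wp_set, wp_blk_nil, Expr.safe, Expr.eval, BOp.safe, BOp.eval, hL.kp,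
      hL.hs.par.M2, hF.var 37 (by decide), h37, hB.lim, St.setv_var, if_true, true_and,
      f.2.2 k' le_rfl]
    exact ⟨by omega, e1, by unfold Cx.tLoc; omega⟩

theorem sNode (hM : Mth) (h1 : SPDep) (h2 : SLoc) : SNode := by
  intro E c hB σ t m k' z hL hk1 hT h27 hz h35 hb h25 h26
  have hbig := hB.big
  have hk := hL.le
  have lM2 := hB.lM2
  have l20 := hB.l20
  have lz := hB.lz'
  have lnn := hB.lnn
  have M20 := c.M2_pos
  have hzT : z ≤ c.T := by
    have := (Nat.div_lt_iff_lt_mul M20).1 hz.g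
    rw [Nat.add_mul] at lz
    omega
  have hw : z % c.M2 < c.M2 := Nat.mod_lt _ M20
  have hZ : c.Z m k' z ≤ c.n * c.n := (hM.recu c hL.hs.md hk hw).2.2.2.2.2.2 k'
  unfold pNode
  rw [wp_blk_cons, wp_set, wp_blk_cons, wp_set, wp_blk_cons]
  simp only [Expr.safe, Expr.eval, BOp.safe, BOp.eval, St.setv_var, hb, hL.hs.par.M2,
    Nat.reduceEqDiff, if_true, if_false, c.and_M2, true_and, and_true, hB.lim]
  refine ⟨h35, by omega, ?_⟩
  set σ₀ := (σ.setv 36 z).setv 37 (z % c.M2) with hσ₀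
  have hF₀ : Frame [36, 37] [] false σ σ₀ :=
    ((Frame.refl _ _ _ σ₀).of_setv (by decide)).of_setv (by decide)
  have k0 : Keeps c m k' σ σ₀ := Keeps.of_frame hF₀ (by decide)
  have st : WP E (.ite (.v 27) pLoc (.set 38 (.c 1))) (fun σ' t' => Keeps c m k' σ₀ σ' ∧
      σ'.var 38 = (if c.k1 ≤ k' then c.Z m k' z else 1) ∧
      t' ≤ t + ((if c.k1 ≤ k' then c.tLoc k' else 0) + 4)) σ₀ (t + 1 + 1) := by
    rw [wp_ite, wp_set]
    simp only [Expr.safe, Expr.eval, hF₀.var 27 (by decide), h27, true_and]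
    split_ifs with h
    · refine ⟨fun _ => (h2 hB ((hT h).keep hF₀ (by decide) (by decide) k0) hw hz.can
        (by simp [hσ₀])).mono ?_, by simp⟩
      rintro σ' t' ⟨a1, a2, a3⟩
      exact ⟨a1, a2, by omega⟩
    · exact ⟨by simp, fun _ => ⟨by omega, fun _ _ h => h, by simp, by omega⟩⟩
  refine st.call [38, 39, 40, 41, 42, 70, 43, 44, 45, 46, 47, 48, 49, 50, 51, 52] [7, 8, 9] false
    (by decide) ?_
  rintro σ₁ t₁ hF₁ ⟨k1, g38, ht₁⟩
  have hL₁ := (hL.frame hF₀ (by decide) (by decide)).frame hF₁ (by decide) (by decide)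
  have g36 : σ₁.var 36 = z := by rw [hF₁.var 36 (by decide)]; simp [hσ₀]
  have g37 : σ₁.var 37 = z % c.M2 := by rw [hF₁.var 37 (by decide)]; simp [hσ₀]
  have g26 : σ₁.var 26 = σ.var 26 := (hF₁.var 26 (by decide)).trans (hF₀.var 26 (by decide))
  have g25 : σ₁.var 25 = σ.var 25 := (hF₁.var 25 (by decide)).trans (hF₀.var 25 (by decide))
  have b6 : σ₁.bank 6 = σ.bank 6 := (hF₁.bank 6 (by decide)).trans (hF₀.bank 6 (by decide))
  generalize hV : (if c.k1 ≤ k' then c.Z m k' z else 1) = V at g38 ⊢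
  have hVT : V ≤ c.T := by rw [← hV]; split_ifs <;> omega
  have hch : c.chO m k' z = if V = 0 then 0 else c.ori (k' - 1) z := by
    rw [← hV, chO]
    by_cases h : c.k1 ≤ k' <;> simp [h]
  unfold pPush
  rw [wp_blk_cons, wp_set, wp_blk_cons, wp_ite, wp_blk_cons, wp_blk_cons, wp_st]
  simp only [wp_blk_cons, wp_set, wp_skip, wp_blk_nil, Expr.safe, Expr.eval, BOp.safe, BOp.eval,
    St.setv_var, St.setm_var, Nat.reduceEqDiff, if_true, if_false, g36, g26, g25, g38, hL₁.kp,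
    hB.lim, true_and]
  refine ⟨by omega, fun h0 => ⟨by omega, by omega, by omega, ?_⟩, fun h0 =>
    ⟨k0.trans k1, by simp [hch, h0, nxt, g25, b6], by omega⟩⟩
  set σ₂ := (((σ₁.setv 26 (σ.var 26 + V)).setm 6 (σ.var 25) z).setv 25 (σ.var 25 + 1)).setv 42
    (k' - 1) with hσ₂
  have hF₂ : Frame [26, 25, 42] [6] false σ₁ σ₂ :=
    ⟨fun x hx => by
      simp only [List.mem_cons, List.not_mem_nil, or_false, not_or] at hx
      simp [hσ₂, hx.1, hx.2.1, hx.2.2], fun b hb => by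
      simp only [List.mem_cons, List.not_mem_nil, or_false] at hb
      simp [hσ₂, hb], fun _ => rfl⟩
  refine (h1 hB (Or.inl rfl) (hL₁.hs.par.frame hF₂ (by decide)) hw (show k' - 1 < c.k by omega)
    ((hF₂.var 37 (by decide)).trans g37) (by simp [hσ₂])).call [43, 44, 45, 46, 47, 48] [] false
    (by decide) ?_
  rintro σ₃ t₃ hF₃ ⟨g43, g45, -, -, g48, ht₃⟩
  have k3 : Keeps c m k' σ σ₃ := ((k0.trans k1).trans (Keeps.of_frame hF₂ (by decide))).trans
    (Keeps.of_frame hF₃ (by decide))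
  have u36 : σ₃.var 36 = z := by rw [hF₃.var 36 (by decide), hF₂.var 36 (by decide), g36]
  have u37 : σ₃.var 37 = z % c.M2 := by rw [hF₃.var 37 (by decide), hF₂.var 37 (by decide), g37]
  have u26 : σ₃.var 26 = σ.var 26 + V := by rw [hF₃.var 26 (by decide)]; simp [hσ₂]
  have u25 : σ₃.var 25 = σ.var 25 + 1 := by rw [hF₃.var 25 (by decide)]; simp [hσ₂]
  have n3 : nxt σ₃ = nxt σ + {z} := by
    rw [nxt, u25, hF₃.bank 6 (by decide), nxt, ← ms_push]
    simp [hσ₂, b6]
  obtain ⟨-, -, -, -, -, -, d7⟩ := hM.dig c hw (show k' - 1 < c.k by omega)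
  have a1 : df (z % c.M2) (k' - 1) < 1048576 := B_eq ▸ KS.dg_lt B_pos _ _
  have a2 := Nat.mod_le z c.M2
  have e : c.w2 (z % c.M2) (k' - 1) + (1048576 - df (z % c.M2) (k' - 1)) * B ^ (k' - 1) =
      c.sw (z % c.M2) (k' - 1) := by rw [sw, ← B_eq]
  simp only [wp_blk_cons, wp_set, wp_st, wp_ite, wp_skip, wp_blk_nil, Expr.safe, Expr.eval,
    BOp.safe, BOp.eval, St.setv_var, St.setm_var, Nat.reduceEqDiff, if_false, u36, u37,
    u26, g43, g45, g48, hB.lim, true_and, hch, if_neg h0, ori]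
  refine ⟨fun a => ?_, fun a => ⟨k3, by rw [if_pos a, n3], by omega⟩⟩
  have a3 := (d7 a).1
  rw [e, if_neg a]
  refine ⟨by omega, by omega, by omega, fun w hw h => ?_, ?_, by omega⟩
  · simpa [Fil] using k3 w hw h
  · rw [Multiset.insert_eq_cons, ← Multiset.singleton_add, ← add_assoc, ← n3]
    simp only [nxt, St.setv_var, St.setv_bank, St.setm_bank, if_true]
    exact ms_push _ _ _

end Pool.Agent.P.MP_8f87b2_lc.DT
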