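import Pool.Agent.P.MP_8f87b2_lc.DT.Ctx

/-!
# Deterministic 3SUM: the main program and its running time
-/

namespace Pool.Agent.P.MP_8f87b2_lc.DT

open Finset
open KS (dg enc)
open Cx

namespace MainP

theorem prs_frame {c : Cx} {σ σ' : St} {vs bs : List ℕ} {r : Bool} (h : Prs c σ)
    (hF : Frame vs bs r σ σ') (hb : 4 ∉ bs) : Prs c σ' := by
  unfold Prs
  rw [hF.bank 4 hb]
  exact h

theorem bd_le {c : Cx} (h : Th c) : c.Bd ≤ c.Θ := by
  have h1 := h.e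
  have h2 : 1 ≤ 2 ^ c.k1 := Nat.one_le_two_pow
  have h3 : 2 * c.Bd * 1 ≤ 2 * c.Bd * 2 ^ c.k1 := Nat.mul_le_mul_left _ h2
  omega

/-- the final phase -/
theorem fin (h4 : SInit) (h5 : SDesc) (h6 : SLeaf) {E : Env} {c : Cx} (hB : Bnd c E) {σ : St}
    {t : ℕ} (hP : Par c σ) (hR : Prs c σ) (hm : Md c (σ.var 28)) (hS : c.PS (σ.var 28) ≤ c.Bd)
    (h0 : σ.var 0 = 0) :
    WP E pFin (fun σ' t' => (σ'.var 0 ≠ 0 ↔ c.Yes) ∧ t' ≤ t + c.tFin) σ t := by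
  unfold pFin
  simp only [wp_blk_cons, wp_set, wp_blk_nil, Expr.safe, Expr.eval, true_and]
  have F0 := frame_setv σ 20 (σ.var 28)
  refine WP.call (h4 hB (m := σ.var 28) (hP.frame F0 (by decide)) hm (by simp))
    (List.range' 21 60) [1, 2, 3, 5, 6] false (by decide) fun σ1 t1 F1 q1 => ?_
  obtain ⟨H1, k1, L1, l1, T1⟩ := q1
  refine WP.call (h5 hB H1 k1 L1 l1 hS)
    (List.range' 21 60) [5, 6, 7, 8, 9, 10] false (by decide +kernel) fun σ2 t2 F2 q2 => ?_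
  obtain ⟨L2, l2, T2⟩ := q2
  have R2 : Prs c σ2 :=
    prs_frame (prs_frame (prs_frame hR F0 (by decide)) F1 (by decide)) F2 (by decide)
  have z2 : σ2.var 0 = 0 := by
    rw [F2.var 0 (by decide), F1.var 0 (by decide), F0.var 0 (by decide), h0]
  refine WP.mono (h6 hB (H1.frame F2 (by decide) (by decide)) R2 L2 l2
    (hS.trans (bd_le hB.th))) fun σ3 t3 q3 => ?_
  obtain ⟨O3, Y3, T3⟩ := q3
  refine ⟨⟨fun hne => ?_, fun hy => by rw [Y3 hy]; exact one_ne_zero⟩, ?_⟩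
  · rcases O3 with e | e
    · exact absurd (e.trans z2) hne
    · exact e.2
  · unfold Cx.tFin
    omega

/-- the time bound in terms of the two size parameters -/
theorem poly {c : Cx} (h : Th c) (hκ : 1 ≤ c.κ) {D : ℕ} (hD : B * B = D) :
    c.tAll ≤ 10 ^ 8 * (D + 1) * (c.A * (c.A * c.Θ)) := by
  have hk : c.k ≤ c.A := by unfold Cx.k Cx.A; omega
  have hL : c.Lb ≤ c.A := by unfold Cx.Lb Cx.A; omega
  have A1 : 1 ≤ c.A := by unfold Cx.A; omega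
  have kk : c.k1 ≤ c.k := by unfold Cx.k Cx.k1; omega
  have Q1 : 1 ≤ c.Q := c.Q_pos
  have g := h.g c.k kk le_rfl
  have l1 := h.l1
  have p := h.p
  have hn := h.n
  have Θ1 : 1 ≤ c.Θ := by unfold Cx.Θ; exact Nat.pow_pos (by norm_num)
  have gM : c.Q * c.M + c.Q * c.M * c.DLc c.k ≤ c.Θ := le_of_eq_of_le (by ring) g
  have gN : c.Q * c.Nt + c.Q * c.Nt * c.PLc c.k ≤ c.Θ := le_of_eq_of_le (by ring) l1
  have gn : c.Q * c.n + c.Q ≤ c.Θ := le_of_eq_of_le (by ring) hn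
  have a1 : c.Θ ≤ c.A * c.Θ := Nat.le_mul_of_pos_left _ A1
  have a2 : c.A * c.Θ ≤ c.A * (c.A * c.Θ) := Nat.le_mul_of_pos_left _ A1
  have a3 : c.A ≤ c.A * c.Θ := Nat.le_mul_of_pos_right _ Θ1
  have n1 : c.n ≤ c.Q * c.n := Nat.le_mul_of_pos_left _ Q1
  have vMod : 2 * c.tMod + 10 ≤ 40 * c.A := by unfold Cx.tMod; omega
  have vBar : c.tBar ≤ 15 * c.A := by unfold Cx.tBar; omega
  have vRow : c.tRow ≤ 60 * c.A := by unfold Cx.tRow; omega
  have vTest : c.tTest ≤ 18 * c.A := by unfold Cx.tTest; omega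
  have vApp : c.tApply ≤ 17 * c.A := by unfold Cx.tApply; omega
  have vHash : c.Q * c.tHash ≤ 53 * (c.A * c.Θ) := by
    have h1 : c.Q * c.n * (2 * c.tMod + 10) ≤ c.Θ * (40 * c.A) :=
      Nat.mul_le_mul (by omega) vMod
    have e : c.Q * c.tHash =
        3 * (c.Q * c.M) + c.Q * c.n * (2 * c.tMod + 10) + 10 * c.Q := by
      unfold Cx.tHash; ring
    rw [e]
    linarith [Nat.zero_le (c.Q * c.M * c.DLc c.k), Nat.zero_le (c.Q * c.n)]
  have vGlob : c.Q * c.tGlob c.k ≤ 89 * (c.A * c.Θ) := by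
    have h1 : c.Q * c.M * (c.tTest + 6) ≤ c.Θ * (24 * c.A) :=
      Nat.mul_le_mul (by omega) (by omega)
    have h2 : c.Q * c.M * c.DLc c.k * (c.tRow + 3) ≤ c.Θ * (63 * c.A) :=
      Nat.mul_le_mul (by omega) (by omega)
    have e : c.Q * c.tGlob c.k = c.Q * c.M * (c.tTest + 6) +
        c.Q * c.M * c.DLc c.k * (c.tRow + 3) + 2 * c.Q := by
      unfold Cx.tGlob; ring
    rw [e]
    linarith [Nat.zero_le (c.Q * c.n)]
  have vPat : c.Q * c.tPat ≤ 31 * (c.A * c.Θ) := by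
    have h1 : c.Q * 4 ^ c.k * (c.tTest + 8) ≤ c.Θ * (26 * c.A) :=
      Nat.mul_le_mul p (by omega)
    have e : c.Q * c.tPat = c.Q * 4 ^ c.k * (c.tTest + 8) + 5 * c.Q := by
      unfold Cx.tPat; ring
    rw [e]
    linarith [Nat.zero_le (c.Q * c.n)]
  have vLoc : c.Q * (c.Nt * c.tLoc c.k) ≤ 87 * (c.A * c.Θ) := by
    have h1 : c.Q * c.Nt * c.PLc c.k * (c.tApply + c.tRow + 5) ≤ c.Θ * (82 * c.A) :=
      Nat.mul_le_mul (by omega) (by omega)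
    have e : c.Q * (c.Nt * c.tLoc c.k) =
        c.Q * c.Nt * c.PLc c.k * (c.tApply + c.tRow + 5) + 5 * (c.Q * c.Nt) := by
      unfold Cx.tLoc; ring
    rw [e]
    linarith [Nat.zero_le (c.Q * c.Nt * c.PLc c.k)]
  have vLev : c.Q * c.tLevel c.k c.Nt ≤ 267 * (c.A * c.Θ) := by
    have e : c.Q * c.tLevel c.k c.Nt = c.Q * c.tPat + c.Q * c.tGlob c.k +
        c.Q * (c.Nt * c.tLoc c.k) + 40 * (c.Q * c.Nt) + 20 * c.Q := by
      unfold Cx.tLevel; rw [if_pos kk]; ring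
    rw [e]
    linarith [Nat.zero_le (c.Q * c.Nt * c.PLc c.k), Nat.zero_le (c.Q * c.n)]
  obtain ⟨X, hX⟩ : ∃ X, X = (D + 1) * (c.A * (c.A * c.Θ)) := ⟨_, rfl⟩
  have x1 : c.A * (c.A * c.Θ) ≤ X := by
    rw [hX]; exact Nat.le_mul_of_pos_left _ (Nat.succ_pos _)
  have vEnum : c.Q * c.tEnum ≤ 71 * X := by
    have d1 : D + 1 ≤ (D + 1) * c.A := Nat.le_mul_of_pos_right _ A1
    have d2 : c.A ≤ (D + 1) * c.A := Nat.le_mul_of_pos_left _ (Nat.succ_pos _)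
    have h1 : c.Q * c.Nt * (c.tBar + 10 * D + 20) ≤ c.Θ * (35 * ((D + 1) * c.A)) :=
      Nat.mul_le_mul (by omega) (by omega)
    have h2 : c.k * (c.Q * c.Nt * (c.tBar + 10 * D + 20)) ≤
        c.A * (c.Θ * (35 * ((D + 1) * c.A))) := Nat.mul_le_mul hk h1
    have h3 : c.k * c.Q ≤ c.A * c.Θ := Nat.mul_le_mul hk (by omega)
    have e1 : c.A * (c.Θ * (35 * ((D + 1) * c.A))) = 35 * X := by rw [hX]; ring
    have e : c.Q * c.tEnum = 6 * (c.Q * c.n) + 10 * c.Q +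
        c.k * (c.Q * c.Nt * (c.tBar + 10 * D + 20)) + 20 * (c.k * c.Q) := by
      unfold Cx.tEnum; rw [hD]; ring
    rw [e]
    omega
  have vInit : c.Q * c.tInit ≤ 125 * X := by
    have e : c.Q * c.tInit = c.Q * c.tHash + c.Q * c.tEnum + c.Q := by
      unfold Cx.tInit; ring
    rw [e]
    omega
  have vTry : c.Q * (c.tTry + 2) ≤ 399 * X := by
    have e : c.Q * (c.tTry + 2) = c.Q * c.tInit + c.Q * c.tLevel c.k c.Nt + 7 * c.Q := by
      unfold Cx.tTry; ring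
    rw [e]
    omega
  have vGr : c.tGreedy ≤ 10000000 * X := by
    unfold Cx.tGreedy
    omega
  have vDesc : c.k * (c.tLev + 3) ≤ 603 * X := by
    have h1 : (c.k + 1) * c.Θ ≤ (2 * c.A) * c.Θ := Nat.mul_le_mul_right _ (by omega)
    have h2 : c.tLev + 3 ≤ 603 * (c.A * c.Θ) := by
      unfold Cx.tLev
      linarith
    have h3 : c.k * (c.tLev + 3) ≤ c.A * (603 * (c.A * c.Θ)) := Nat.mul_le_mul hk h2
    linarith
  have vLeaf : c.tLeaf ≤ 47 * X := by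
    have h1 : c.Θ * (c.tBar + 30) ≤ c.Θ * (45 * c.A) := Nat.mul_le_mul_left _ (by omega)
    unfold Cx.tLeaf
    linarith
  have i1 : c.tInit ≤ c.Q * c.tInit := Nat.le_mul_of_pos_left _ Q1
  rw [mul_assoc, ← hX]
  unfold Cx.tAll Cx.tFin
  omega

theorem tAll_le {c : Cx} (h : Th c) (hκ : 1 ≤ c.κ) {D β : ℕ} (hD : B * B = D) (hβ : β = 38752) :
    c.tAll ≤ 10 ^ 18 * (D + 1) * 2 ^ 100 * (2 ^ β) ^ c.κ := by
  refine (poly h hκ hD).trans ?_
  have k1 : c.κ ≤ 2 ^ c.κ := Nat.lt_two_pow_self.le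
  have e : (2 ^ β) ^ c.κ = 2 ^ c.κ * (2 ^ c.κ * 2 ^ (38750 * c.κ)) := by
    rw [← pow_mul, ← pow_add, ← pow_add]
    congr 1
    rw [hβ]; omega
  have e2 : c.Θ = 2 ^ (38750 * c.κ) * 2 ^ 100 := by rw [Cx.Θ, pow_add]
  rw [e, e2, Cx.A]
  generalize 2 ^ (38750 * c.κ) = Y
  generalize 2 ^ 100 = Z
  calc 10 ^ 8 * (D + 1) * (100000 * c.κ * (100000 * c.κ * (Y * Z)))
      = 10 ^ 18 * (D + 1) * Z * (c.κ * (c.κ * Y)) := by ring
    _ ≤ _ := by gcongr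

end MainP

open MainP in
theorem sMain (hM : Mth) (h1 : SSetup) (h2 : SPres) (h3 : SGreedy) (h4 : SInit) (h5 : SDesc)
    (h6 : SLeaf) : SMain := by
  intro E c κ0 hS hB hn hρ
  unfold pMain
  rw [wp_seq]
  refine WP.mono (h1 hS hB hn) fun σ1 t1 q1 => ?_
  obtain ⟨P1, z1, b1, T1⟩ := q1
  unfold pRest
  simp only [wp_blk_cons, wp_blk_nil]
  refine WP.call (h2 hB P1 (fun a => by rw [b1]; rfl)) [34] [4] false (by decide)
    fun σ2 t2 F2 q2 => ?_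
  obtain ⟨R2, T2⟩ := q2
  have P2 := P1.frame F2 (by decide)
  refine WP.call (h3 hB hρ P2) (List.range' 20 60) [1, 2, 3, 5, 6, 7, 8, 9, 10] false
    (by decide +kernel) fun σ3 t3 F3 q3 => ?_
  obtain ⟨G3, S3, T3⟩ := q3
  have P3 := P2.frame F3 (by decide)
  have R3 := prs_frame R2 F3 (by decide)
  have z3 : σ3.var 0 = 0 := by
    rw [F3.var 0 (by decide), F2.var 0 (by decide), z1]; rfl
  obtain ⟨hm, hy⟩ := (hM.grEnd c hB.inp hρ).2 _ G3
  have w1 : 1 < E.W := by have := hB.big; have := c.T_pos; omega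
  rw [wp_ite]
  simp only [Expr.safe, Expr.eval, BOp.safe, BOp.eval, true_and, P3.Bd, S3]
  refine ⟨fun hc => ?_, fun hc => ?_⟩
  · have hlt : c.Bd < c.PS (σ3.var 28) := by
      by_contra hh
      exact hc (if_neg hh)
    have yes : c.Yes := by
      by_contra hh
      exact absurd (hy hh) (by omega)
    simp only [wp_set, Expr.safe, Expr.eval]
    refine ⟨w1, by simp [yes], ?_⟩
    unfold Cx.tAll
    omega
  · have hle : c.PS (σ3.var 28) ≤ c.Bd := by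
      by_contra hh
      rw [if_pos (by omega)] at hc
      exact one_ne_zero hc
    refine WP.mono (fin h4 h5 h6 hB P3 R3 hm hle z3) fun σ4 t4 q4 => ⟨q4.1, ?_⟩
    have := q4.2
    unfold Cx.tAll
    omega

open MainP in
theorem sTime (h : STh) : STime := by
  intro κ0 hκ0
  obtain ⟨β, hβ⟩ : ∃ β : ℕ, β = 38752 := ⟨_, rfl⟩
  obtain ⟨D, hD⟩ : ∃ D, B * B = D := ⟨_, rfl⟩
  obtain ⟨C, hC⟩ : ∃ C : ℕ, C = 10 ^ 18 * (D + 1) * 2 ^ 100 := ⟨_, rfl⟩
  obtain ⟨Λ, hΛ⟩ : ∃ Λ : ℝ, Λ = 2 ^ β := ⟨_, rfl⟩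
  have hΛ1 : 1 ≤ Λ := hΛ ▸ one_le_pow₀ (by norm_num)
  refine ⟨(C : ℝ) * Λ ^ κ0, fun c hS => ?_⟩
  have hκ : 1 ≤ c.κ := hκ0.trans hS.s1
  have e1 := tAll_le (h c hκ hS.nN) hκ hD hβ
  rw [← hC] at e1
  have e2 : (c.tAll : ℝ) ≤ (C : ℝ) * Λ ^ c.κ := by
    rw [hΛ]; exact_mod_cast e1
  rw [show (((199 / 100 : ℚ)) : ℝ) = (199 / 100 : ℝ) by push_cast; rfl]
  have h0 : (0 : ℝ) ≤ (c.n : ℝ) ^ (199 / 100 : ℝ) := by positivity
  refine e2.trans ?_
  rw [mul_assoc]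
  refine mul_le_mul_of_nonneg_left ?_ (by positivity)
  rcases Nat.lt_or_ge κ0 c.κ with hs | hs
  · obtain ⟨s, hs'⟩ : ∃ s, c.κ = s + 1 := ⟨c.κ - 1, by omega⟩
    have e3 : (2 : ℝ) ^ (19475 * s) ≤ c.n := by exact_mod_cast hS.smin s (by omega) (by omega)
    have e4 : Λ ^ s ≤ (c.n : ℝ) ^ (199 / 100 : ℝ) := by
      refine le_trans ?_ (Real.rpow_le_rpow (by positivity) e3 (by norm_num))
      rw [hΛ, ← pow_mul, ← Real.rpow_natCast, ← Real.rpow_natCast, ← Real.rpow_mul (by norm_num)]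
      refine Real.rpow_le_rpow_of_exponent_le (by norm_num) ?_
      rw [hβ]
      push_cast
      have : (0 : ℝ) ≤ s := Nat.cast_nonneg s
      linarith
    rw [hs', pow_succ']
    exact mul_le_mul (le_self_pow₀ hΛ1 (by omega)) (by linarith) (by positivity) (by positivity)
  · exact (pow_le_pow_right₀ hΛ1 hs).trans (le_mul_of_one_le_right (by positivity) (by linarith))

end Pool.Agent.P.MP_8f87b2_lc.DT
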