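import Pool.Agent.P.MP_8f87b2_lc.DT.Base

/-! Orienting one block keeps the invariant of the lists of nodes. -/

namespace Pool.Agent.P.MP_8f87b2_lc.DT

open Finset
open KS (dg enc)
open Cx

namespace OriP

theorem card_bind (L : Multiset ℕ) (f : ℕ → Multiset ℕ) (P Q : ℕ → Prop) [DecidablePred P]
    [DecidablePred Q] (h : ∀ z ∈ L, ((f z).filter P).card = if Q z then 1 else 0) :
    ((L.bind f).filter P).card = (L.filter Q).card := by
  induction L using Multiset.induction_on with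
  | empty => simp
  | cons z L ih =>
    rw [Multiset.cons_bind, Multiset.filter_add, Multiset.card_add,
      ih fun y hy => h y (Multiset.mem_cons_of_mem hy), h z (Multiset.mem_cons_self _ _),
      Multiset.filter_cons, Multiset.card_add]
    split_ifs <;> rfl

theorem pr_iff (c : Cx) (k' w p q : ℕ) : c.prU k' k' w p q ↔ c.cmp k' w p q ∧
    ∀ i, k' ≤ i → i < c.k → dg B i p = c.al w i ∧ dg B i q = c.be w i := by
  constructor
  · rintro ⟨h1, h2, h3⟩
    exact ⟨h3, fun i a b => ⟨(h1 i b).resolve_right fun h => absurd h.1 (not_lt.2 a),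
      (h2 i b).resolve_right fun h => absurd h.1 (not_lt.2 a)⟩⟩
  · rintro ⟨h1, h2⟩
    refine ⟨fun i b => ?_, fun i b => ?_, h1⟩ <;> rcases lt_or_ge i k' with a | a
    · exact (h1 i a).imp And.left fun h => ⟨a, h.1⟩
    · exact Or.inl (h2 i a b).1
    · exact (h1 i a).imp And.right fun h => ⟨a, h.2⟩
    · exact Or.inl (h2 i a b).2

theorem pr_succ (c : Cx) {j : ℕ} (hj : j < c.k) (w p q : ℕ) :
    (c.prU j j w p q ↔ (dg B j p = c.al w j ∧ dg B j q = c.be w j) ∧ c.cmp j w p q ∧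
      ∀ i, j + 1 ≤ i → i < c.k → dg B i p = c.al w i ∧ dg B i q = c.be w i) ∧
    (c.prU (j + 1) (j + 1) w p q ↔ (dg B j p = c.al w j ∧ dg B j q = c.be w j ∨
      dg B j p = c.be w j ∧ dg B j q = c.al w j) ∧ c.cmp j w p q ∧
      ∀ i, j + 1 ≤ i → i < c.k → dg B i p = c.al w i ∧ dg B i q = c.be w i) := by
  rw [pr_iff, pr_iff]
  refine ⟨⟨fun h => ⟨h.2 j le_rfl hj, h.1, fun i a b => h.2 i (by omega) b⟩,
    fun h => ⟨h.2.1, fun i a b => ?_⟩⟩, fun h => ⟨h.1 j (by omega), fun i a => h.1 i (by omega), h.2⟩,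
    fun h => ⟨fun i a => ?_, h.2.2⟩⟩
  · rcases a.eq_or_lt with rfl | a
    · exact h.1
    · exact h.2.2 i a b
  · rcases (Nat.le_of_lt_succ a).eq_or_lt with rfl | a
    · exact h.1
    · exact h.2.1 i a

theorem al_lt (c : Cx) (w j : ℕ) : c.al w j < B := KS.dg_lt B_pos _ _

theorem df_lt (w j : ℕ) : df w j < B := KS.dg_lt B_pos _ _

theorem top_bar (h' : STop) (c : Cx) {w : ℕ} (hw : w < c.M2) :
    w / c.M + c.bar w = enc B c.k fun i => c.al w i + c.be w i := by
  obtain ⟨h1, -, h2, -⟩ := h' c hw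
  rw [← KS.enc_dg' (b := B) (q := c.k) h1, KS.enc_congr fun i hi => (h2 i hi).1]
  simp only [bar, enc, add_mul, sum_add_distrib]

theorem sw_dig (h : SDig) (c : Cx) {w j : ℕ} (hw : w < c.M2) (hj : j < c.k) (d : df w j ≠ 0) :
    c.sw w j < c.M2 ∧ c.al (c.sw w j) j = c.be w j ∧ c.be (c.sw w j) j = c.al w j ∧
      c.al w j ≠ c.be w j ∧ ∀ i < c.k, i ≠ j → df (c.sw w j) i = df w i ∧
        c.al (c.sw w j) i = c.al w i ∧ c.be (c.sw w j) i = c.be w i := by
  obtain ⟨h1, -, -, h2⟩ := (h c hw hj).2.2.2.2.2.2 d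
  have a1 := al_lt c w j
  have a2 := df_lt w j
  have e1 := h2 j hj
  rw [if_pos rfl, if_pos rfl] at e1
  refine ⟨h1, e1.2, ?_, ?_, fun i hi ne => ?_⟩
  · rw [be, e1.1, e1.2, be]
    rw [B_eq] at a1 a2 ⊢
    omega
  · rw [be]
    rw [B_eq] at a1 a2 ⊢
    omega
  · have e2 := h2 i hi
    rw [if_neg ne, if_neg ne] at e2
    exact ⟨e2.1, e2.2, by rw [be, be, e2.1, e2.2]⟩

theorem div_mod (c : Cx) (z : ℕ) {w : ℕ} (hw : w < c.M2) :
    (z - z % c.M2 + w) / c.M2 = z / c.M2 ∧ (z - z % c.M2 + w) % c.M2 = w := by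
  have e : z - z % c.M2 + w = w + c.M2 * (z / c.M2) := by
    have := Nat.mod_add_div z c.M2
    omega
  rw [e, Nat.add_mul_div_left _ _ c.M2_pos, Nat.add_mul_mod_self_left, Nat.div_eq_of_lt hw,
    Nat.mod_eq_of_lt hw, zero_add]
  exact ⟨rfl, rfl⟩

theorem ite_card {G X Y R : Prop} {d1 : Decidable (G ∧ X ∧ R)} {d2 : Decidable (G ∧ Y ∧ R)}
    {d3 : Decidable (G ∧ (X ∨ Y) ∧ R)} {x y : ℕ} (ex : X → Y → False) :
    (@ite _ _ d1 ({x} : Multiset ℕ) 0).card + (@ite _ _ d2 ({y} : Multiset ℕ) ∅).card =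
      @ite _ _ d3 1 0 := by
  split_ifs <;> first | rfl | tauto

end OriP

open OriP in
theorem sOri (h : SDig) (h' : STop) : SOri := by
  intro c m k' L _ h1 h2 hL
  obtain ⟨j, rfl⟩ : ∃ j, k' = j + 1 := ⟨k' - 1, by omega⟩
  have hj : j < c.k := h2
  rw [Nat.add_sub_cancel]
  refine ⟨fun z' hz' => ?_, fun g hg a ha b hb e => ?_⟩
  · obtain ⟨z, hz, hz'⟩ := Multiset.mem_bind.1 hz'
    obtain ⟨n1, n2, n3⟩ := hL.node z hz
    have hw := Nat.mod_lt z c.M2_pos
    have n0 : c.Node m j z := ⟨n1, fun i hi => n2 i (by omega), n3⟩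
    unfold chO ori at hz'
    rw [Nat.add_sub_cancel] at hz'
    split_ifs at hz' with c1 c2
    · exact absurd hz' (Multiset.notMem_zero _)
    · exact Multiset.mem_singleton.1 hz' ▸ n0
    · rcases Multiset.mem_cons.1 hz' with rfl | hz'
      · exact n0
      · obtain ⟨s1, s2, s3, -, s4⟩ := sw_dig h c hw hj c2
        obtain ⟨d1, d2⟩ := div_mod c z s1
        rw [Multiset.mem_singleton.1 hz']
        refine ⟨d1 ▸ n1, fun i hi => ?_, ?_⟩
        · rw [d2, (s4 i (by omega) hi.ne).1]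
          exact n2 i (by omega)
        · rw [d1, d2, ← n3, top_bar h' c s1, top_bar h' c hw]
          refine congrArg (· % c.M) (KS.enc_congr fun i hi => ?_)
          by_cases ne : i = j
          · rw [ne, s2, s3, add_comm]
          · rw [(s4 i hi ne).2.1, (s4 i hi ne).2.2]
  · refine (card_bind _ _ _ _ fun z _ => ?_).trans (hL.one g hg a ha b hb e)
    have hw := Nat.mod_lt z c.M2_pos
    obtain ⟨p1, p2⟩ := pr_succ c hj (z % c.M2) (c.ga m a) (c.ga m b)
    unfold chO ori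
    rw [Nat.add_sub_cancel]
    by_cases c1 : c.k1 ≤ j + 1 ∧ c.Z m (j + 1) z = 0
    · rw [if_pos c1, if_neg fun hc => ?_]
      · rfl
      · exact card_ne_zero.2 ⟨(a, b), mem_filter.2 ⟨mem_product.2 ⟨mem_range.2 ha, mem_range.2 hb⟩,
          hc.2⟩⟩ c1.2
    rw [if_neg c1]
    by_cases c2 : df (z % c.M2) j = 0
    · have e1 : c.be (z % c.M2) j = c.al (z % c.M2) j := by
        rw [be, c2, add_zero, Nat.mod_eq_of_lt (al_lt c _ _)]
      rw [e1] at p1 p2
      rw [or_self, ← p1] at p2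
      rw [if_pos c2, Multiset.filter_singleton]
      simp only [p2]
      split_ifs <;> rfl
    · obtain ⟨s1, s2, s3, s5, s4⟩ := sw_dig h c hw hj c2
      obtain ⟨d1, d2⟩ := div_mod c z s1
      have p3 := (pr_succ c hj (c.sw (z % c.M2) j) (c.ga m a) (c.ga m b)).1
      have e1 : c.cmp j (c.sw (z % c.M2) j) (c.ga m a) (c.ga m b) ↔
          c.cmp j (z % c.M2) (c.ga m a) (c.ga m b) := forall₂_congr fun i hi => by
        rw [(s4 i (by omega) hi.ne).2.1, (s4 i (by omega) hi.ne).2.2]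
      have e2 : (∀ i, j + 1 ≤ i → i < c.k → dg B i (c.ga m a) = c.al (c.sw (z % c.M2) j) i ∧
          dg B i (c.ga m b) = c.be (c.sw (z % c.M2) j) i) ↔ ∀ i, j + 1 ≤ i → i < c.k →
          dg B i (c.ga m a) = c.al (z % c.M2) i ∧ dg B i (c.ga m b) = c.be (z % c.M2) i :=
        forall₃_congr fun i h1 h2 => by
          rw [(s4 i h2 (by omega)).2.1, (s4 i h2 (by omega)).2.2]
      rw [s2, s3, e1, e2] at p3
      rw [if_neg c2, Multiset.insert_eq_cons, Multiset.filter_cons, Multiset.filter_singleton,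
        Multiset.card_add]
      simp only [d1, d2, p1, p2, p3]
      exact ite_card fun x y => s5 (x.1.symm.trans y.1)

end Pool.Agent.P.MP_8f87b2_lc.DT
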