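import Pool.Agent.P.MP_8f87b2_lc.DT.Base

/-!
# Deterministic 3SUM: counting the pseudo-solutions
-/

namespace Pool.Agent.P.MP_8f87b2_lc.DT

open Finset
open KS (dg enc)
open Cx

namespace PSP

theorem dvd_iff {m p q r : ℕ} (hm : 1 ≤ m) : (m : ℤ) ∣ (p : ℤ) + q - r ↔
    (p % m + q % m = r % m ∨ p % m + q % m = r % m + m) := by
  have h1 : (m : ℤ) ∣ (p : ℤ) + q - r ↔ r % m = (p % m + q % m) % m := by
    rw [← Nat.add_mod, ← Nat.cast_add, ← Nat.modEq_iff_dvd]
    rfl
  rw [h1]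
  have hp := Nat.mod_lt p hm
  have hq := Nat.mod_lt q hm
  have hr := Nat.mod_lt r hm
  generalize p % m = a at *
  generalize q % m = b at *
  generalize r % m = d at *
  by_cases h : a + b < m
  · rw [Nat.mod_eq_of_lt h]
    omega
  · rw [Nat.mod_eq_sub_mod (by omega), Nat.mod_eq_of_lt (by omega)]
    omega

theorem dvd_iff' (hv : SVal) {c : Cx} (hc : Inp c) {m a b i : ℕ} (hm : 1 ≤ m) (ha : a < c.n)
    (hb : b < c.n) (hi : i < c.n) : (m : ℤ) ∣ c.x a + c.x b + c.x i ↔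
    (c.ga m a + c.ga m b = c.gc m i ∨ c.ga m a + c.ga m b = c.gc m i + m) := by
  have h : c.x a + c.x b + c.x i = (c.u a : ℤ) + c.u b - c.v i := by
    rw [(hv c hc a ha).1, (hv c hc b hb).1, (hv c hc i hi).2.1]
    ring
  rw [h, dvd_iff hm]
  rfl

theorem ps_eq (hv : SVal) {c : Cx} (hc : Inp c) {m : ℕ} (hm : 1 ≤ m) : c.PS m =
    ((range c.n ×ˢ range c.n ×ˢ range c.n).filter fun e =>
      (m : ℤ) ∣ c.x e.1 + c.x e.2.1 + c.x e.2.2).card := by
  unfold PS
  refine card_nbij (fun e => (e.2.1, e.2.2, e.1 / 2)) ?_ ?_ ?_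
  · rintro ⟨g, a, b⟩ h
    simp only [coe_filter, mem_product, mem_range, Set.mem_ofPred_eq, tau] at h ⊢
    obtain ⟨⟨hg, ha, hb⟩, h⟩ := h
    have hi : g / 2 < c.n := by omega
    refine ⟨⟨ha, hb, hi⟩, (dvd_iff' hv hc hm ha hb hi).2 ?_⟩
    rcases Nat.mod_two_eq_zero_or_one g with e | e <;> rw [e] at h <;> omega
  · rintro ⟨g, a, b⟩ h ⟨g', a', b'⟩ h' e
    simp only [coe_filter, mem_product, mem_range, Set.mem_ofPred_eq, tau, Prod.mk.injEq]
      at h h' e ⊢
    obtain ⟨rfl, rfl, e⟩ := e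
    refine ⟨?_, rfl, rfl⟩
    have h1 := h.2
    have h2 := h'.2
    rw [e] at h1
    rcases Nat.mod_two_eq_zero_or_one g with e1 | e1 <;>
      rcases Nat.mod_two_eq_zero_or_one g' with e2 | e2 <;> rw [e1] at h1 <;> rw [e2] at h2 <;>
      omega
  · rintro ⟨a, b, i⟩ h
    simp only [coe_filter, mem_product, mem_range, Set.mem_ofPred_eq] at h
    obtain ⟨⟨ha, hb, hi⟩, h⟩ := h
    rcases (dvd_iff' hv hc hm ha hb hi).1 h with h | h
    · refine ⟨(2 * i, a, b), ?_, ?_⟩
      · simp only [coe_filter, mem_product, mem_range, Set.mem_ofPred_eq, tau]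
        rw [show 2 * i / 2 = i by omega, show 2 * i % 2 = 0 by omega]
        exact ⟨⟨by omega, ha, hb⟩, by omega⟩
      · simp only [show 2 * i / 2 = i by omega]
    · refine ⟨(2 * i + 1, a, b), ?_, ?_⟩
      · simp only [coe_filter, mem_product, mem_range, Set.mem_ofPred_eq, tau]
        rw [show (2 * i + 1) / 2 = i by omega, show (2 * i + 1) % 2 = 1 by omega]
        exact ⟨⟨by omega, ha, hb⟩, by omega⟩
      · simp only [show (2 * i + 1) / 2 = i by omega]

theorem s0_le {c : Cx} (hc : Inp c) (hy : ¬c.Yes) : c.S0 ≤ 3 * c.n := by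
  unfold S0
  rw [← card_range (3 * c.n)]
  refine card_le_card_of_injOn (fun e => if e.1 = e.2.1 then 3 * e.1 else
    if e.1 = e.2.2 then 3 * e.1 + 1 else 3 * e.2.1 + 2) ?_ ?_
  · rintro ⟨a, b, i⟩ h
    simp only [coe_filter, mem_product, mem_range, Set.mem_ofPred_eq, coe_range,
      Set.mem_Iio] at h ⊢
    obtain ⟨⟨ha, hb, hi⟩, -⟩ := h
    split_ifs <;> omega
  · rintro ⟨a, b, i⟩ h ⟨a', b', i'⟩ h' e
    simp only [coe_filter, mem_product, mem_range, Set.mem_ofPred_eq, Prod.mk.injEq] at h h' e ⊢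
    obtain ⟨⟨ha, hb, hi⟩, h⟩ := h
    obtain ⟨⟨ha', hb', hi'⟩, h'⟩ := h'
    have k : a = b ∨ a = i ∨ b = i := by
      by_contra hk
      simp only [not_or] at hk
      exact hy ⟨a, ha, b, hb, i, hi, hk.1, hk.2.1, hk.2.2, h⟩
    have k' : a' = b' ∨ a' = i' ∨ b' = i' := by
      by_contra hk
      simp only [not_or] at hk
      exact hy ⟨a', ha', b', hb', i', hi', hk.1, hk.2.1, hk.2.2, h'⟩
    split_ifs at e with e1 e2 e3 e4 e5 e6 e7 e8
    · obtain rfl : a = a' := by omega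
      subst e1 e2
      exact ⟨rfl, rfl, hc.inj _ hi _ hi' (by linarith)⟩
    · omega
    · omega
    · omega
    · obtain rfl : a = a' := by omega
      subst e4 e6
      exact ⟨rfl, hc.inj _ hb _ hb' (by linarith), rfl⟩
    · omega
    · omega
    · omega
    · obtain rfl : b = b' := by omega
      obtain rfl : b = i := by omega
      obtain rfl : b = i' := by omega
      exact ⟨hc.inj _ ha _ ha' (by linarith), rfl, rfl⟩

end PSP

open PSP in
theorem sPS (hv : SVal) : SPS := by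
  intro c hc
  refine ⟨fun m hm => ?_, s0_le hc⟩
  rw [ps_eq hv hc hm, ← card_filter_add_card_filter_not
    (fun e : ℕ × ℕ × ℕ => c.x e.1 + c.x e.2.1 + c.x e.2.2 = 0), filter_filter, filter_filter]
  unfold S0 Nz
  congr 2
  · refine filter_congr fun e _ => ⟨fun h => h.2, fun h => ⟨?_, h⟩⟩
    rw [h]
    exact dvd_zero _
  · exact filter_congr fun e _ => and_comm

end Pool.Agent.P.MP_8f87b2_lc.DT
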