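import Pool.Agent.P.MP_8f87b2_lc.DT.Ctx

/-!
# Deterministic 3SUM: the children of one node in the enumeration
-/

namespace Pool.Agent.P.MP_8f87b2_lc.DT

open Finset
open KS (dg enc)
open Cx

namespace ParP

/-- the children among the first `r` candidates -/
def part (c : Cx) (m i z r : ℕ) : Multiset ℕ :=
  ((Multiset.range r).filter (c.okE m i z)).map (c.kidE i z)

theorem part_succ (c : Cx) (m i z r : ℕ) : part c m i z (r + 1) =
    part c m i z r + if c.okE m i z r then {c.kidE i z r} else 0 := by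
  unfold part
  rw [Multiset.range_succ, Multiset.filter_cons, Multiset.map_add, add_comm]
  split_ifs <;> simp

theorem part_le (c : Cx) (m i z : ℕ) {r : ℕ} (h : r ≤ B * B) :
    (part c m i z r).card ≤ (c.chE m i z).card :=
  Multiset.card_le_card (Multiset.map_le_map (Multiset.filter_le_filter _
    (Multiset.range_le.mpr h)))

theorem shr20 (r : ℕ) : r >>> 20 = r / B := by rw [Nat.shiftRight_eq_div_pow, B_pow]

theorem shr19 (r : ℕ) : r >>> 19 = r / 524288 := by rw [Nat.shiftRight_eq_div_pow]

theorem test (p : Prop) [Decidable p] (q : Prop) [Decidable q] :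
    ((if p then 1 else 0) &&& if q then 1 else 0 : ℕ) = if p ∧ q then 1 else 0 := by
  by_cases p <;> by_cases q <;> simp [*]

end ParP

open ParP

theorem sPar (hM : Mth) (h : SBar) : SPar := by
  intro E c hB σ t m i z hH hi hz h35 hb h60 h63 hc
  have hP := hH.par
  have hbig := hB.big
  have hlim := hB.lim
  have lM := hB.lM
  have lM2 := hB.lM2
  have ln := hB.ln
  have l20 := hB.l20
  have lB := hB.lB
  have lz := hB.lz'
  have M0 := c.M_pos
  have M20 := c.M2_pos
  have hg : z / c.M2 < 2 * c.n := ((hM.enumC c m hi.le).2 z hz).1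
  have hzT : z ≤ c.T := by
    have := (Nat.div_lt_iff_lt_mul M20).1 hg
    rw [Nat.add_mul] at lz
    omega
  have hw : z % c.M2 < c.M2 := Nat.mod_lt _ M20
  obtain ⟨w1, w2, -⟩ := hM.top c hw
  have hm := hH.md
  have hg2 : z / c.M2 / 2 < c.n := by omega
  have hgc : c.gc m (z / c.M2 / 2) < m := Nat.mod_lt _ hm.1
  have hm2 := hm.2
  have hgm : z / c.M2 % 2 * m ≤ m := by
    rcases Nat.mod_two_eq_zero_or_one (z / c.M2) with e | e <;> simp [e]
  have hBi : B * B ^ i ≤ c.M := by
    rw [← pow_succ']; exact Nat.pow_le_pow_right B_pos hi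
  unfold pPar
  simp only [wp_blk_cons, wp_set, wp_blk_nil]
  simp only [Expr.safe, Expr.eval, BOp.safe, BOp.eval, St.setv_var, hb, hP.M2, Nat.reduceEqDiff,
    if_true, if_false, c.and_M2, true_and, and_true]
  refine ⟨by omega, by omega, ?_⟩
  refine (h hB (Or.inl rfl) ((hP.frame (frame_setv _ _ _) (by decide)).frame (frame_setv _ _ _)
    (by decide)) hw (by simp)).call [49, 42, 43, 44, 45, 46, 47, 48] [] false (by decide) ?_
  rintro σ₁ t₁ hF ⟨h49, ht₁⟩
  have hF₁ : Frame [36, 37, 49, 42, 43, 44, 45, 46, 47, 48] [] false σ σ₁ :=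
    (((frame_setv σ 36 z).weaken (by decide) (by decide) id).trans
      ((frame_setv _ 37 _).weaken (by decide) (by decide) id)).trans
      (hF.weaken (by decide) (by decide) id)
  have hH₁ := hH.frame hF₁ (by decide) (by decide)
  have hP₁ := hH₁.par
  have v36 : σ₁.var 36 = z := by rw [hF.var 36 (by decide)]; simp
  have v37 : σ₁.var 37 = z % c.M2 := by rw [hF.var 37 (by decide)]; simp
  have v60 : σ₁.var 60 = B ^ i := by rw [hF₁.var 60 (by decide), h60]
  have v63 : σ₁.var 63 = B ^ (i + 1) - 1 := by rw [hF₁.var 63 (by decide), h63]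
  have n1 : nxt σ₁ = nxt σ := by rw [nxt, hF₁.var 25 (by decide), hF₁.bank 6 (by decide), nxt]
  simp only [St.setv_bank, v36, v37, h49,
    v63, hP₁.lb, hP₁.lb2, hH₁.hm, c.shr_M, c.shr_M2,
    Nat.shiftRight_one, Nat.and_one_is_mod, hH₁.gc _ hg2, and_pw]
  refine ⟨by omega, by omega, ?_⟩
  refine wp_for (B * B) 5 (fun r σ' => nxt σ' = nxt σ + part c m i z r) [65, 66, 25] [6] false
    (by decide) (by decide) (by decide) (by decide) (by simp [hP₁.BB]) (by omega) (by omega)
    (by simpa [part, nxt] using n1) ?_ ?_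
  · intro r σ₂ t₂ hr hF₂ h64 hI
    have u36 : σ₂.var 36 = z := by rw [hF₂.var 36 (by decide)]; simp [v36]
    have u4 : σ₂.var 4 = c.M := by rw [hF₂.var 4 (by decide)]; simp [hP₁.M]
    have u60 : σ₂.var 60 = B ^ i := by rw [hF₂.var 60 (by decide)]; simp [v60]
    have u63 : σ₂.var 63 = B ^ (i + 1) - 1 := by rw [hF₂.var 63 (by decide)]; simp [v63]
    have u62 : σ₂.var 62 = z % c.M2 / c.M + c.bar (z % c.M2) := by
      rw [hF₂.var 62 (by decide)]; simp
    have u61 : σ₂.var 61 = c.tau m (z / c.M2) % B ^ (i + 1) := by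
      rw [hF₂.var 61 (by decide)]; simp [tau]
    have a1 : r / B < B := Nat.div_lt_of_lt_mul hr
    have a2 : r % B < B := Nat.mod_lt _ B_pos
    have a3 : (r / B + r % B) % B < B := Nat.mod_lt _ B_pos
    have a4 : r / B * B ^ i ≤ c.M := (Nat.mul_le_mul_right _ a1.le).trans hBi
    have a5 : r % B * B ^ i ≤ c.M := (Nat.mul_le_mul_right _ a2.le).trans hBi
    have a6 : (r / B + (r / B + r % B) % B) * B ^ i ≤ 2 * c.M := by
      have := (Nat.mul_le_mul_right (B ^ i) a3.le).trans hBi
      rw [Nat.add_mul]; omega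
    have a7 : r / B * B ^ i * c.M ≤ c.M2 := by rw [c.M2_eq]; exact Nat.mul_le_mul_right _ a4
    have a8 : c.tau m (z / c.M2) % B ^ (i + 1) ≤ c.M :=
      (Nat.mod_lt _ (pow_pos B_pos _)).le.trans (by rwa [pow_succ'])
    have a9 : ∀ a, a % B ^ (i + 1) ≤ c.M := fun a =>
      (Nat.mod_lt _ (pow_pos B_pos _)).le.trans (by rwa [pow_succ'])
    have a10 := a9 (z % c.M2 / c.M + c.bar (z % c.M2) + (r / B + (r / B + r % B) % B) * B ^ i)
    have hBe := B_eq
    have k25 : σ₂.var 25 = σ.var 25 + (part c m i z r).card := by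
      simpa [nxt] using congrArg Multiset.card hI
    have k1 := part_le c m i z (show r + 1 ≤ B * B from hr)
    rw [part_succ] at k1 ⊢
    have ok : c.okE m i z r ↔ r % B + r % B + r / B / 524288 < 1048577 ∧
        (z % c.M2 / c.M + c.bar (z % c.M2) + (r / B + (r / B + r % B) % B) * B ^ i) % B ^ (i + 1) =
          c.tau m (z / c.M2) % B ^ (i + 1) := by
      unfold okE canon
      exact and_congr_left fun _ => by omega
    unfold pKid pPush
    simp only [wp_blk_cons, wp_set, wp_st, wp_ite, wp_skip, wp_blk_nil]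
    simp only [Expr.safe, Expr.eval, BOp.safe, BOp.eval, St.setv_var, St.setm_var,
      h64, u36, u4, u60, u61, u62, u63, Nat.reduceEqDiff, if_true, if_false, true_and, and_true,
      shr20, shr19, and_B, and_pw, eeq_val]
    simp only [test, ← ok]
    refine ⟨by omega, by omega, by omega, fun a => ?_, fun a => ?_⟩
    · have a' : c.okE m i z r := by
        by_contra e
        simp [e] at a
      rw [if_pos a'] at k1 ⊢
      rw [Multiset.card_add, Multiset.card_singleton] at k1
      refine ⟨by omega, by omega, by omega, ?_, by omega⟩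
      rw [← add_assoc, ← hI]
      simp only [nxt, St.setv_var, St.setv_bank, St.setm_bank, Nat.reduceEqDiff, if_true, if_false]
      exact ms_push _ _ _
    · have a' : ¬ c.okE m i z r := fun e => by simp [e] at a
      rw [if_neg a', add_zero, ← hI]
      exact ⟨by simp [nxt], by omega⟩
  · intro σ₂ t₂ _ hI ht
    exact ⟨hI, by omega⟩

end Pool.Agent.P.MP_8f87b2_lc.DT
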