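import Pool.Agent.P.MP_8f87b2_lc.DT.Ctx

/-!
# Deterministic 3SUM: the list of patterns and the copy loop
-/

namespace Pool.Agent.P.MP_8f87b2_lc.DT

open Finset
open KS (dg enc)
open Cx

namespace PatP

theorem wt_succ (j t : ℕ) : Cx.wt (j + 1) t = Cx.wt j t + if dg 4 j t = 0 then 0 else 1 := by
  unfold Cx.wt
  rw [range_add_one, filter_insert]
  by_cases h : dg 4 j t = 0
  · simp [h]
  · rw [if_pos h, if_neg h, card_insert_of_notMem (by simp)]

theorem wt_le (j t : ℕ) : Cx.wt j t ≤ j :=
  (card_filter_le _ _).trans (card_range j).le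

/-- the test for patterns -/
theorem testP {E : Env} {c : Cx} (hB : Bnd c E) {σ : St} {t k' s p : ℕ} (hk : k' ≤ c.k)
    (h21 : σ.var 21 = k') (h22 : σ.var 22 = s) (h40 : σ.var 40 = p) :
    WP E pTestP (fun σ' t' => (σ'.var 55 ≠ 0 ↔ (∀ j < k', dg 4 j p ≤ 2) ∧ Cx.wt k' p < s) ∧
      t' ≤ t + c.tTest) σ t := by
  have hbig := hB.big
  have hlA := hB.lA
  have hkA := hB.kA
  have hT : c.tTest = 8 * c.k + 10 := rfl
  unfold pTestP
  simp only [wp_blk_cons, wp_set, wp_blk_nil, Expr.safe, Expr.eval]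
  refine ⟨by omega, by omega, ?_⟩
  refine wp_for k' 5
    (fun j σ' => (σ'.var 55 ≠ 0 ↔ ∀ i < j, dg 4 i p ≤ 2) ∧ σ'.var 56 = Cx.wt j p)
    [70, 55, 56] [] false (by decide) (by decide) (by decide) (by decide) (by simp [h21])
    (by omega) (by omega) (by simp [Cx.wt]) ?_ ?_
  · intro j σ₂ t₂ hj hF hij ⟨h55, h56⟩
    have e40 : σ₂.var 40 = p := by rw [hF.var 40 (by decide)]; simp [h40]
    have h1 := wt_le j p
    have h2 := wt_succ j p
    have h3 : (∀ i < j + 1, dg 4 i p ≤ 2) ↔ (∀ i < j, dg 4 i p ≤ 2) ∧ dg 4 j p ≤ 2 :=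
      Nat.forall_lt_succ_right
    rw [h3]
    simp only [wp_blk_cons, wp_set, wp_blk_nil, wp_ite, wp_skip]
    simp only [Expr.safe, Expr.eval, BOp.safe, BOp.eval, St.setv_var, e40, hij, h56,
      Nat.reduceEqDiff, if_true, if_false, ed4_eq, true_and, and_true]
    refine ⟨by omega, by omega, fun h => ?_, fun h => ?_⟩
    · have h' : 2 < dg 4 j p := by
        by_contra hc
        simp [hc] at h
      rw [if_neg (by omega)] at h2
      refine ⟨by omega, fun _ => ⟨by omega, ⟨?_, h2.symm⟩, by omega⟩, fun h0 => by omega⟩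
      simp only [ne_eq, not_true_eq_false, false_iff, not_and]
      omega
    · have h' : ¬ 2 < dg 4 j p := by
        intro hc
        simp [hc] at h
      refine ⟨fun h0 => ?_, fun h0 => ?_⟩
      · rw [if_neg h0] at h2
        exact ⟨by omega, ⟨by rw [h55]; exact ⟨fun a => ⟨a, by omega⟩, fun a => a.1⟩, h2.symm⟩,
          by omega⟩
      · rw [if_pos h0] at h2
        exact ⟨⟨by rw [h55]; exact ⟨fun a => ⟨a, by omega⟩, fun a => a.1⟩, h2.symm⟩, by omega⟩
  · intro σ₂ t₂ hF ⟨h55, h56⟩ ht
    have e22 : σ₂.var 22 = s := by rw [hF.var 22 (by decide)]; simp [h22]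
    simp only [wp_ite, wp_set, wp_skip]
    simp only [Expr.safe, Expr.eval, BOp.safe, BOp.eval, St.setv_var, e22, h56,
      if_true, true_and]
    refine ⟨fun h => ?_, fun h => ?_⟩
    · have h' : Cx.wt k' p < s := by
        by_contra hc
        simp [hc] at h
      exact ⟨by rw [h55]; exact ⟨fun a => ⟨a, h'⟩, fun a => a.1⟩, by omega⟩
    · have h' : ¬ Cx.wt k' p < s := by
        intro hc
        simp [hc] at h
      refine ⟨by omega, ?_, by omega⟩
      simp only [ne_eq, not_true_eq_false, false_iff, not_and]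
      exact fun _ => h'

/-- the number of listed patterns after `i` rounds -/
def pcn (P : ℕ → Prop) [DecidablePred P] (N i : ℕ) : ℕ :=
  ((range N).filter fun t => N ≤ t + i ∧ P t).card

theorem pcn_succ (P : ℕ → Prop) [DecidablePred P] {N i : ℕ} (hi : i < N) :
    pcn P N (i + 1) = pcn P N i + if P (N - (i + 1)) then 1 else 0 := by
  unfold pcn
  split_ifs with h
  · rw [← card_insert_of_notMem (a := N - (i + 1)) (by simp; omega)]
    congr 1
    ext t
    simp only [mem_filter, mem_range, mem_insert]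
    constructor
    · rintro ⟨h1, h2, h3⟩
      by_cases e : t = N - (i + 1)
      · exact Or.inl e
      · exact Or.inr ⟨h1, by omega, h3⟩
    · rintro (rfl | ⟨h1, h2, h3⟩)
      · exact ⟨by omega, by omega, h⟩
      · exact ⟨h1, by omega, h3⟩
  · rw [add_zero]
    congr 1
    ext t
    simp only [mem_filter, mem_range]
    constructor
    · rintro ⟨h1, h2, h3⟩
      refine ⟨h1, ?_, h3⟩
      by_contra e
      exact h ((show t = N - (i + 1) by omega) ▸ h3)
    · rintro ⟨h1, h2, h3⟩
      exact ⟨h1, by omega, h3⟩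

/-- the list after `i` rounds -/
structure PLs (P : ℕ → Prop) [DecidablePred P] (N i len : ℕ) (f : ℕ → ℕ) : Prop where
  eq : len = pcn P N i
  le : len ≤ i
  mem : ∀ a < len, N ≤ f a + i ∧ f a < N ∧ P (f a)
  dec : ∀ a b, a < b → b < len → f b < f a
  all : ∀ t < N, N ≤ t + i → P t → ∃ a < len, f a = t

variable {P : ℕ → Prop} [DecidablePred P] {N i len : ℕ} {f : ℕ → ℕ}

theorem PLs.push (h : PLs P N i len f) (hi : i < N) (hP : P (N - (i + 1))) :
    PLs P N (i + 1) (len + 1) (Function.update f len (N - (i + 1))) := by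
  refine ⟨by rw [pcn_succ P hi, if_pos hP, h.eq], by have := h.le; omega, fun a ha => ?_,
    fun a b hab hb => ?_, fun t ht h1 h2 => ?_⟩
  · rw [Function.update_apply]
    split_ifs with e
    · exact ⟨by omega, by omega, hP⟩
    · have := h.mem a (by omega)
      exact ⟨by omega, this.2⟩
  · rw [Function.update_of_ne (show a ≠ len by omega), Function.update_apply]
    split_ifs with e
    · have := h.mem a (by omega)
      omega
    · exact h.dec a b hab (by omega)
  · by_cases e : t = N - (i + 1)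
    · exact ⟨len, by omega, by rw [Function.update_self, e]⟩
    · obtain ⟨a, ha, e'⟩ := h.all t ht (by omega) h2
      exact ⟨a, by omega, by rw [Function.update_of_ne ha.ne, e']⟩

theorem PLs.skip (h : PLs P N i len f) (hi : i < N) (hP : ¬ P (N - (i + 1))) :
    PLs P N (i + 1) len f := by
  refine ⟨by rw [pcn_succ P hi, if_neg hP, h.eq, add_zero], by have := h.le; omega,
    fun a ha => ?_, h.dec, fun t ht h1 h2 => h.all t ht ?_ h2⟩
  · have := h.mem a ha
    exact ⟨by omega, this.2⟩
  · by_contra e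
    exact hP ((show t = N - (i + 1) by omega) ▸ h2)

end PatP

open PatP

theorem sPat : SPat := by
  intro E c hB σ t m k' hL
  have hbig := hB.big
  have hlA := hB.lA
  have hkA := hB.kA
  have hlim := hB.lim
  have hΘ := hB.lΘ
  have hp4 := hB.p4
  have hk := hL.le
  have hP := hL.hs.par
  have hN : 4 ^ k' ≤ 4 ^ c.k := Nat.pow_le_pow_right (by norm_num) hk
  have hT : c.tPat = 4 ^ c.k * (c.tTest + 8) + 5 := rfl
  have e4 : c.T >>> (c.A - 2 * k') = 4 ^ k' := by
    rw [c.epw_eq (by omega), pow_mul]; rfl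
  unfold pPat
  simp only [wp_blk_cons, wp_set, wp_blk_nil]
  simp only [Expr.safe, Expr.eval, BOp.safe, BOp.eval, hP.T, hP.A, hL.kp, e4, true_and, and_true]
  refine ⟨by omega, by omega, ?_⟩
  refine wp_for (4 ^ k') (c.tTest + 4)
    (fun i σ' => PLs (c.Pt k') (4 ^ k') i (σ'.var 23) (σ'.bank 10))
    [40, 55, 56, 42, 70, 23] [10] false (by decide) (by decide) (by decide) (by decide) (by simp)
    (by omega) (by omega) ?_ ?_ ?_
  · refine ⟨?_, by simp, by simp, by simp, fun t h1 h2 => by omega⟩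
    simp only [St.setv_var, Nat.reduceEqDiff, if_true, if_false, pcn]
    rw [eq_comm, card_eq_zero, filter_eq_empty_iff]
    intro x hx
    have := mem_range.mp hx
    omega
  · intro i σ₂ t₂ hi hF h69 hI
    have e68 : σ₂.var 68 = 4 ^ k' := by rw [hF.var 68 (by decide)]; simp
    have e21 : σ₂.var 21 = k' := by rw [hF.var 21 (by decide)]; simp [hL.kp]
    have e22 : σ₂.var 22 = c.s k' := by rw [hF.var 22 (by decide)]; simp [hL.s]
    have hle := hI.le
    simp only [wp_blk_cons, wp_set, wp_blk_nil]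
    simp only [Expr.safe, Expr.eval, BOp.safe, BOp.eval, e68, h69, true_and]
    refine ⟨by omega, ?_⟩
    refine (testP hB hk (s := c.s k') (p := 4 ^ k' - (i + 1)) (by simp [e21]) (by simp [e22])
      (by simp)).call [55, 56, 42, 70] [] false (by decide) ?_
    rintro σ₃ t₃ hF₃ ⟨h55, ht₃⟩
    have e23 : σ₃.var 23 = σ₂.var 23 := by rw [hF₃.var 23 (by decide)]; simp
    have e40 : σ₃.var 40 = 4 ^ k' - (i + 1) := by rw [hF₃.var 40 (by decide)]; simp
    have e10 : σ₃.bank 10 = σ₂.bank 10 := by rw [hF₃.bank 10 (by decide)]; simp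
    simp only [wp_blk_cons, wp_set, wp_blk_nil, wp_ite, wp_st, wp_skip]
    simp only [Expr.safe, Expr.eval, BOp.safe, BOp.eval, St.setv_var, St.setv_bank, St.setm_var,
      St.setm_bank, e23, e40, e10, Nat.reduceEqDiff, if_true, if_false, true_and]
    refine ⟨fun h => ⟨by omega, by omega, hI.push hi (h55.mp h), by omega⟩, fun h => ?_⟩
    exact ⟨hI.skip hi fun hc => h55.mpr hc h, by omega⟩
  · intro σ₂ t₂ _ hI ht
    have hlen : σ₂.var 23 = c.PLc k' := by
      rw [hI.eq, pcn, PLc]
      congr 1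
      exact filter_congr fun x _ => ⟨fun a => a.2, fun a => ⟨by omega, a⟩⟩
    refine ⟨⟨hlen, fun a ha => (hI.mem a (hlen ▸ ha)).2, fun a b hab hb =>
      hI.dec a b hab (hlen ▸ hb), fun x hx hp => hlen ▸ hI.all x hx (by omega) hp⟩, ?_⟩
    have h4 : 4 ^ k' * (c.tTest + 4 + 2) ≤ 4 ^ c.k * (c.tTest + 8) :=
      Nat.mul_le_mul hN (by omega)
    omega

theorem sCopy : SCopy := by
  intro E c hB σ t h25
  have hbig := hB.big
  have hlim := hB.lim
  have hT := c.T_pos
  unfold pCopy
  simp only [wp_blk_cons, wp_blk_nil]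
  refine wp_for (σ.var 25) 1 (fun i σ' => ∀ a < i, σ'.bank 5 a = σ.bank 6 a) [] [5] false
    (by decide) (by decide) (by decide) (by decide) rfl (by omega) (by omega) (by simp) ?_ ?_
  · intro i σ₂ t₂ hi hF h67 hI
    have e6 : σ₂.bank 6 = σ.bank 6 := hF.bank 6 (by decide)
    simp only [wp_st, Expr.safe, Expr.eval, St.setv_bank, St.setm_bank, h67, e6, if_true,
      true_and]
    refine ⟨by omega, by omega, fun a ha => ?_, le_rfl⟩
    rw [Function.update_apply]
    split_ifs with h
    · rw [h]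
    · exact hI a (by omega)
  · intro σ₂ t₂ hF hI ht
    have e25 : σ₂.var 25 = σ.var 25 := hF.var 25 (by decide)
    simp only [wp_set, Expr.safe, Expr.eval, true_and, e25]
    refine ⟨?_, by omega⟩
    unfold cur nxt
    rw [St.setv_var, if_pos rfl, St.setv_bank]
    exact ms_congr hI

end Pool.Agent.P.MP_8f87b2_lc.DT
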