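import Pool.Agent.P.MP_8f87b2_lc.DT.Base

/-!
# Deterministic 3SUM: a good prime for the next round of the choice of the modulus
-/

namespace Pool.Agent.P.MP_8f87b2_lc.DT

open Finset
open KS (dg enc)
open Cx

namespace PrimeP

theorem lin_le {κ : ℕ} (h : 4 ≤ κ) : 2 * (κ + 1) ≤ 2 ^ κ := by
  induction κ, h using Nat.le_induction with
  | base => norm_num
  | succ n _ ih => rw [pow_succ]; omega

theorem pi_low {κ : ℕ} (h : 4 ≤ κ) : 2 ^ κ ≤ 2 * κ * Nat.primeCounting (2 ^ κ) := by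
  have h1 := Chebyshev.pi_ge (2 ^ κ)
  have hl : 0 < Real.log 2 := Real.log_pos (by norm_num)
  have hκ : (0 : ℝ) < κ := by exact_mod_cast (by omega : 0 < κ)
  have h2 : Real.log (((2 ^ κ : ℕ) : ℝ) + 1) ≤ (κ + 1) * Real.log 2 := by
    have e : ((κ : ℝ) + 1) * Real.log 2 = Real.log (2 ^ (κ + 1)) := by
      rw [Real.log_pow]; push_cast; ring
    rw [e]
    refine Real.log_le_log (by positivity) ?_
    have : (1 : ℝ) ≤ 2 ^ κ := one_le_pow₀ (by norm_num)
    push_cast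
    rw [pow_succ]
    linarith
  have h3 : Real.log ((2 ^ κ : ℕ) : ℝ) = κ * Real.log 2 := by
    push_cast
    rw [Real.log_pow]
  have h4 : 2 * ((κ : ℝ) + 1) ≤ ((2 ^ κ : ℕ) : ℝ) := by exact_mod_cast lin_le h
  rw [h3, div_le_iff₀ (by positivity)] at h1
  have h5 : ((2 ^ κ : ℕ) : ℝ) * Real.log 2 ≤
      (2 * κ * Nat.primeCounting (2 ^ κ)) * Real.log 2 := by nlinarith
  exact_mod_cast le_of_mul_le_mul_right h5 hl

theorem card_primes (Q : ℕ) : ((range (Q + 1)).filter Nat.Prime).card = Nat.primeCounting Q := by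
  rw [Nat.primeCounting, Nat.primeCounting', Nat.count_eq_card_filter_range]

theorem card_pf {s L : ℕ} (h0 : s ≠ 0) (h : s < 2 ^ L) : s.primeFactors.card ≤ L := by
  have h1 : 2 ^ s.primeFactors.card ≤ ∏ p ∈ s.primeFactors, p :=
    Finset.pow_card_le_prod _ _ _ fun p hp => (Nat.prime_of_mem_primeFactors hp).two_le
  have h2 := Nat.le_of_dvd (Nat.pos_of_ne_zero h0) (Nat.prod_primeFactors_dvd s)
  exact ((Nat.pow_lt_pow_iff_right (by norm_num)).1 ((h1.trans h2).trans_lt h)).le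

theorem sum_lt {c : Cx} (h : Inp c) {a b i : ℕ} (ha : a < c.n) (hb : b < c.n) (hi : i < c.n) :
    (c.x a + c.x b + c.x i).natAbs < 2 ^ c.Lb := by
  have h1 := abs_le.1 (h.xb a ha)
  have h2 := abs_le.1 (h.xb b hb)
  have h3 := abs_le.1 (h.xb i hi)
  have h4 : 2 ^ c.Lb = 4 * c.N4 := by rw [Lb, N4, pow_add]; ring
  have h5 := c.N4_pos
  omega

end PrimeP

open PrimeP

theorem sPrime : SPrime := by
  intro c h m
  have hQ : c.Q ≤ 2 * c.κ * ((range (c.Q + 1)).filter Nat.Prime).card := by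
    rw [card_primes]
    exact pi_low h.κ1
  have hne : ((range (c.Q + 1)).filter Nat.Prime).Nonempty := by
    rw [← card_pos]
    have := c.Q_pos
    by_contra h0
    rw [Nat.eq_zero_of_not_pos h0] at hQ
    omega
  obtain ⟨p, hp, hmin⟩ := exists_min_image _ (fun p => c.Nz (m * p)) hne
  obtain ⟨hp1, hp2⟩ := mem_filter.1 hp
  refine ⟨p, hp2.one_lt.le, Nat.lt_succ_iff.1 (mem_range.1 hp1), ?_⟩
  have key : ((range (c.Q + 1)).filter Nat.Prime).card * c.Nz (m * p) ≤ c.Nz m * c.Lb := by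
    refine card_mul_le_card_mul
      (fun (q : ℕ) (e : ℕ × ℕ × ℕ) => (q : ℤ) ∣ c.x e.1 + c.x e.2.1 + c.x e.2.2)
      (fun q hq => (hmin q hq).trans (card_le_card fun e he => ?_)) fun e he => ?_
    · simp only [mem_filter, mem_bipartiteAbove, Nat.cast_mul] at he ⊢
      exact ⟨⟨he.1, he.2.1, (dvd_mul_right _ _).trans he.2.2⟩, (dvd_mul_left _ _).trans he.2.2⟩
    · simp only [mem_filter, mem_product, mem_range] at he
      obtain ⟨⟨ha, hb, hi⟩, h0, -⟩ := he
      have h1 := Int.natAbs_ne_zero.2 h0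
      refine le_trans (card_le_card fun q hq => ?_) (card_pf h1 (sum_lt h ha hb hi))
      simp only [mem_filter, mem_bipartiteBelow] at hq
      exact Nat.mem_primeFactors.2 ⟨hq.1.2, Int.natCast_dvd.1 hq.2, h1⟩
  calc c.Nz (m * p) * c.Q
      ≤ c.Nz (m * p) * (2 * c.κ * ((range (c.Q + 1)).filter Nat.Prime).card) :=
        Nat.mul_le_mul_left _ hQ
    _ = 2 * c.κ * (((range (c.Q + 1)).filter Nat.Prime).card * c.Nz (m * p)) := by ring
    _ ≤ 2 * c.κ * (c.Nz m * c.Lb) := Nat.mul_le_mul_left _ key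
    _ = c.ρ * c.Nz m := by rw [ρ]; ring

end Pool.Agent.P.MP_8f87b2_lc.DT
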