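import Pool.Agent.P.MP_8f87b2_lc.DT.Base

/-!
# Deterministic 3SUM: the recursion for the tables
-/

namespace Pool.Agent.P.MP_8f87b2_lc.DT

open Finset
open KS (dg enc)
open Cx

namespace RecP

theorem card_split {α : Type*} (s : Finset α) (p q r : α → Prop) [DecidablePred p]
    [DecidablePred q] [DecidablePred r] (h : ∀ a ∈ s, p a ↔ q a ∨ r a)
    (hd : ∀ a ∈ s, ¬ (q a ∧ r a)) :
    (s.filter p).card = (s.filter q).card + (s.filter r).card := by
  rw [card_filter, card_filter, card_filter, ← sum_add_distrib]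
  refine sum_congr rfl fun a ha => ?_
  have h1 := h a ha
  have h2 := hd a ha
  by_cases hq : q a <;> by_cases hr : r a <;> simp_all

theorem card_split3 {α : Type*} (s : Finset α) (p q r t : α → Prop) [DecidablePred p]
    [DecidablePred q] [DecidablePred r] [DecidablePred t] (h : ∀ a ∈ s, p a ↔ q a ∨ r a ∨ t a)
    (h1 : ∀ a ∈ s, ¬ (q a ∧ r a)) (h2 : ∀ a ∈ s, ¬ (q a ∧ t a)) (h3 : ∀ a ∈ s, ¬ (r a ∧ t a)) :
    (s.filter p).card = (s.filter q).card + (s.filter r).card + (s.filter t).card := by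
  rw [card_filter, card_filter, card_filter, card_filter, ← sum_add_distrib, ← sum_add_distrib]
  refine sum_congr rfl fun a ha => ?_
  have h0 := h a ha
  have h1 := h1 a ha
  have h2 := h2 a ha
  have h3 := h3 a ha
  by_cases hq : q a <;> by_cases hr : r a <;> by_cases ht : t a <;> simp_all

theorem al_lt (c : Cx) (w j : ℕ) : c.al w j < B := KS.dg_lt B_pos _ _
theorem df_lt (w j : ℕ) : df w j < B := KS.dg_lt B_pos _ _

theorem be_zero (c : Cx) {w j : ℕ} (h : df w j = 0) : c.be w j = c.al w j := by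
  unfold be; rw [h, add_zero, Nat.mod_eq_of_lt (al_lt c w j)]

theorem be_ne (c : Cx) {w j : ℕ} (h : df w j ≠ 0) : c.al w j ≠ c.be w j := by
  have h1 := al_lt c w j
  have h2 := df_lt w j
  unfold be
  rw [B_eq] at *
  omega

/-- letters of the two neighbouring rows -/
theorem nb (h : SDig) (c : Cx) {w j : ℕ} (hw : w < c.M2) (hj : j < c.k) {i : ℕ} (hi : i < c.k) :
    c.al (w1 w j) i = c.al w i ∧ c.be (w1 w j) i = (if i = j then c.al w j else c.be w i) ∧
    c.al (c.w2 w j) i = (if i = j then c.be w j else c.al w i) ∧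
    c.be (c.w2 w j) i = c.be w i := by
  obtain ⟨-, -, -, -, h1, h2, -⟩ := h c hw hj
  obtain ⟨a1, a2⟩ := h1 i hi
  obtain ⟨b1, b2⟩ := h2 i hi
  refine ⟨a2, ?_, b2, ?_⟩
  · by_cases e : i = j
    · subst e
      rw [if_pos rfl] at a1 ⊢
      rw [be_zero c a1, a2]
    · rw [if_neg e] at a1 ⊢
      unfold be; rw [a1, a2]
  · by_cases e : i = j
    · subst e
      rw [if_pos rfl] at b1 b2
      rw [be_zero c b1, b2]
    · rw [if_neg e] at b1 b2
      unfold be; rw [b1, b2]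

section

variable (h : SDig) (c : Cx) {k' w j : ℕ} (hk : k' ≤ c.k) (hw : w < c.M2) (hj : j < k')
include h hk hw hj

theorem inA1 (p : ℕ) : c.inA k' (w1 w j) p ↔ c.inA k' w p ∧ dg B j p = c.al w j := by
  have hjk : j < c.k := lt_of_lt_of_le hj hk
  constructor
  · intro H
    have Hj := H j hjk
    obtain ⟨e1, e2, -, -⟩ := nb h c hw hjk hjk
    rw [e1, e2, if_pos rfl] at Hj
    refine ⟨fun i hi => ?_, by tauto⟩
    have Hi := H i hi
    obtain ⟨e1, e2, -, -⟩ := nb h c hw hjk hi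
    rw [e1, e2] at Hi
    by_cases e : i = j
    · subst e; tauto
    · rwa [if_neg e] at Hi
  · rintro ⟨H, H2⟩ i hi
    obtain ⟨e1, e2, -, -⟩ := nb h c hw hjk hi
    rw [e1, e2]
    by_cases e : i = j
    · subst e; exact Or.inl H2
    · rw [if_neg e]; exact H i hi

theorem inB1 (p : ℕ) : c.inB k' (w1 w j) p ↔ c.inB k' w p ∧ dg B j p = c.al w j := by
  have hjk : j < c.k := lt_of_lt_of_le hj hk
  constructor
  · intro H
    have Hj := H j hjk
    obtain ⟨e1, e2, -, -⟩ := nb h c hw hjk hjk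
    rw [e1, e2, if_pos rfl] at Hj
    refine ⟨fun i hi => ?_, by tauto⟩
    have Hi := H i hi
    obtain ⟨e1, e2, -, -⟩ := nb h c hw hjk hi
    rw [e1, e2] at Hi
    by_cases e : i = j
    · subst e; tauto
    · rwa [if_neg e] at Hi
  · rintro ⟨H, H2⟩ i hi
    obtain ⟨e1, e2, -, -⟩ := nb h c hw hjk hi
    rw [e1, e2]
    by_cases e : i = j
    · subst e; rw [if_pos rfl]; exact Or.inl H2
    · rw [if_neg e]; exact H i hi

theorem inA2 (p : ℕ) : c.inA k' (c.w2 w j) p ↔ c.inA k' w p ∧ dg B j p = c.be w j := by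
  have hjk : j < c.k := lt_of_lt_of_le hj hk
  constructor
  · intro H
    have Hj := H j hjk
    obtain ⟨-, -, e1, e2⟩ := nb h c hw hjk hjk
    rw [e1, e2, if_pos rfl] at Hj
    refine ⟨fun i hi => ?_, by tauto⟩
    have Hi := H i hi
    obtain ⟨-, -, e1, e2⟩ := nb h c hw hjk hi
    rw [e1, e2] at Hi
    by_cases e : i = j
    · subst e; tauto
    · rwa [if_neg e] at Hi
  · rintro ⟨H, H2⟩ i hi
    obtain ⟨-, -, e1, e2⟩ := nb h c hw hjk hi
    rw [e1, e2]
    by_cases e : i = j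
    · subst e; rw [if_pos rfl]; exact Or.inl H2
    · rw [if_neg e]; exact H i hi

theorem inB2 (p : ℕ) : c.inB k' (c.w2 w j) p ↔ c.inB k' w p ∧ dg B j p = c.be w j := by
  have hjk : j < c.k := lt_of_lt_of_le hj hk
  constructor
  · intro H
    have Hj := H j hjk
    obtain ⟨-, -, e1, e2⟩ := nb h c hw hjk hjk
    rw [e1, e2, if_pos rfl] at Hj
    refine ⟨fun i hi => ?_, by tauto⟩
    have Hi := H i hi
    obtain ⟨-, -, e1, e2⟩ := nb h c hw hjk hi
    rw [e1, e2] at Hi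
    by_cases e : i = j
    · subst e; tauto
    · rwa [if_neg e] at Hi
  · rintro ⟨H, H2⟩ i hi
    obtain ⟨-, -, e1, e2⟩ := nb h c hw hjk hi
    rw [e1, e2]
    by_cases e : i = j
    · subst e; exact Or.inl H2
    · rw [if_neg e]; exact H i hi

theorem cmp1 (p q : ℕ) : c.cmp j (w1 w j) p q ↔ c.cmp j w p q := by
  have hjk : j < c.k := lt_of_lt_of_le hj hk
  refine forall_congr' fun i => forall_congr' fun hi => ?_
  obtain ⟨e1, e2, -, -⟩ := nb h c hw hjk (hi.trans hjk)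
  rw [e1, e2, if_neg hi.ne]

theorem cmp2 (p q : ℕ) : c.cmp j (c.w2 w j) p q ↔ c.cmp j w p q := by
  have hjk : j < c.k := lt_of_lt_of_le hj hk
  refine forall_congr' fun i => forall_congr' fun hi => ?_
  obtain ⟨-, -, e1, e2⟩ := nb h c hw hjk (hi.trans hjk)
  rw [e1, e2, if_neg hi.ne]

end

theorem cmp_succ (c : Cx) (j w p q : ℕ) : c.cmp (j + 1) w p q ↔ c.cmp j w p q ∧
    ((dg B j p = c.al w j ∧ dg B j q = c.be w j) ∨ (dg B j p = c.be w j ∧ dg B j q = c.al w j)) :=
  Nat.forall_lt_succ_right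

end RecP

open RecP

theorem sRec (h : SDig) (h' : STop) : SRec := by
  intro c m k' w hm hk hw
  obtain ⟨t1, t2, t3, -⟩ := h' c hw
  have hga : ∀ a, c.ga m a < c.M := fun a => by
    have h1 : c.ga m a < m := Nat.mod_lt _ hm.1
    have h2 := hm.2
    omega
  refine ⟨fun h0 => ⟨?_, ?_⟩, ?_, fun j hj h0 => ?_, fun j hj h0 => ⟨?_, ?_, ?_⟩, ?_, ?_, ?_⟩
  · unfold FA X
    congr 1
    refine filter_congr fun a _ => ⟨fun H => ?_, fun H j hj => Or.inl (by rw [H]; exact (t3 j hj).1)⟩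
    refine KS.dg_ext (b := B) (q := c.k) (hga a) t1 fun j hj => ?_
    rw [(t3 j hj).1]
    rcases H j hj with e | ⟨e1, e⟩
    · exact e
    · rw [e, be_zero c (h0 j e1)]
  · unfold FB X
    congr 1
    refine filter_congr fun a _ =>
      ⟨fun H => ?_, fun H j hj => Or.inl (by rw [H]; exact (t3 j hj).2.1)⟩
    refine KS.dg_ext (b := B) (q := c.k) (hga a) t2 fun j hj => ?_
    rw [(t3 j hj).2.1]
    rcases H j hj with e | ⟨e1, e⟩
    · exact e
    · rw [e, be_zero c (h0 j e1)]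
  · unfold U FA FB
    rw [← card_product, ← filter_product]
    congr 1
    refine filter_congr fun e _ => ?_
    unfold prU
    exact ⟨fun H => ⟨H.1, H.2.1⟩, fun H => ⟨H.1, H.2, fun j hj => absurd hj (Nat.not_lt_zero j)⟩⟩
  · unfold U
    congr 1
    refine filter_congr fun e _ => ?_
    unfold prU
    rw [cmp_succ]
    have hjk : j < c.k := lt_of_lt_of_le hj hk
    have hb := be_zero c h0
    refine ⟨fun H => ⟨H.1, H.2.1, H.2.2.1⟩, fun H => ⟨H.1, H.2.1, H.2.2, ?_⟩⟩
    have a := H.1 j hjk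
    have b := H.2.1 j hjk
    rw [hb] at a b ⊢
    tauto
  · have hjk : j < c.k := lt_of_lt_of_le hj hk
    have hne := be_ne c h0
    refine card_split _ _ _ _ (fun a _ => ?_) (fun a _ => ?_)
    · rw [inA1 h c hk hw hj, inA2 h c hk hw hj]
      refine ⟨fun H => ?_, fun H => H.elim (fun H => H.1) (fun H => H.1)⟩
      rcases H j hjk with e | ⟨-, e⟩
      · first | exact Or.inl ⟨H, e⟩ | exact Or.inr ⟨H, e⟩
      · first | exact Or.inl ⟨H, e⟩ | exact Or.inr ⟨H, e⟩
    · rw [inA1 h c hk hw hj, inA2 h c hk hw hj]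
      rintro ⟨⟨-, e1⟩, -, e2⟩
      exact hne (e1.symm.trans e2)
  · have hjk : j < c.k := lt_of_lt_of_le hj hk
    have hne := be_ne c h0
    refine card_split _ _ _ _ (fun a _ => ?_) (fun a _ => ?_)
    · rw [inB1 h c hk hw hj, inB2 h c hk hw hj]
      refine ⟨fun H => ?_, fun H => H.elim (fun H => H.1) (fun H => H.1)⟩
      rcases H j hjk with e | ⟨-, e⟩
      · first | exact Or.inl ⟨H, e⟩ | exact Or.inr ⟨H, e⟩
      · first | exact Or.inl ⟨H, e⟩ | exact Or.inr ⟨H, e⟩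
    · rw [inB1 h c hk hw hj, inB2 h c hk hw hj]
      rintro ⟨⟨-, e1⟩, -, e2⟩
      exact hne (e1.symm.trans e2)
  · have hjk : j < c.k := lt_of_lt_of_le hj hk
    have hne := be_ne c h0
    refine card_split3 _ _ _ _ _ (fun e _ => ?_) (fun e _ => ?_) (fun e _ => ?_) (fun e _ => ?_)
    all_goals unfold prU
    · rw [inA1 h c hk hw hj, inA2 h c hk hw hj, inB1 h c hk hw hj, inB2 h c hk hw hj,
        cmp1 h c hk hw hj, cmp2 h c hk hw hj, cmp_succ]
      refine ⟨fun H => ?_, by tauto⟩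
      have a := H.1 j hjk
      have b := H.2.1 j hjk
      tauto
    · rw [inA1 h c hk hw hj, inB1 h c hk hw hj, cmp_succ]
      rintro ⟨⟨-, -, -, e1⟩, ⟨-, e2⟩, ⟨-, e3⟩, -⟩
      rcases e1 with ⟨-, e⟩ | ⟨e, -⟩
      · exact hne (e3.symm.trans e)
      · exact hne (e2.symm.trans e)
    · rw [inA2 h c hk hw hj, inB2 h c hk hw hj, cmp_succ]
      rintro ⟨⟨-, -, -, e1⟩, ⟨-, e2⟩, ⟨-, e3⟩, -⟩
      rcases e1 with ⟨e, -⟩ | ⟨-, e⟩
      · exact hne (e.symm.trans e2)
      · exact hne (e.symm.trans e3)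
    · rw [inA1 h c hk hw hj, inA2 h c hk hw hj]
      rintro ⟨⟨⟨-, e1⟩, -⟩, ⟨-, e2⟩, -⟩
      exact hne (e1.symm.trans e2)
  · exact (card_filter_le _ _).trans (card_range _).le
  · exact (card_filter_le _ _).trans (card_range _).le
  · intro i
    refine (card_filter_le _ _).trans ?_
    rw [card_product, card_range]

end Pool.Agent.P.MP_8f87b2_lc.DT
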