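import Pool.Agent.P.MP_8f87b2_lc.DT.Ctx

/-!
# Deterministic 3SUM: filling one row
-/

namespace Pool.Agent.P.MP_8f87b2_lc.DT

open Finset
open KS (dg)
open Cx

namespace RowP

theorem depW (x : ℕ) : (pDep x).Within [43, 44, 45, 46, 47, 48] [] false := by
  simp [Stmt.Within, pDep, blk, Stmt.wv, Stmt.wb, Stmt.rd]

theorem be_lt (c : Cx) (w j : ℕ) : c.be w j < B := Nat.mod_lt _ B_pos

theorem addr {c : Cx} {E : Env} (hB : Bnd c E) {j w : ℕ} (hj : j ≤ c.k) (hw : w < c.M2) :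
    j * c.M2 + w < c.T := by
  have h1 := hB.lU
  have h2 : j * c.M2 ≤ c.k * c.M2 := Nat.mul_le_mul_right _ hj
  rw [Nat.succ_mul] at h1
  omega

theorem addr_inj {c : Cx} {i j w w' : ℕ} (hw : w < c.M2) (hw' : w' < c.M2)
    (e : i * c.M2 + w' = j * c.M2 + w) : i = j ∧ w' = w := by
  have h3 := congrArg (· / c.M2) e
  simp only [add_comm _ w, add_comm _ w', Nat.add_mul_div_right _ _ c.M2_pos,
    Nat.div_eq_of_lt hw, Nat.div_eq_of_lt hw', zero_add] at h3
  subst h3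
  exact ⟨rfl, by omega⟩

end RowP

open RowP

theorem sPDep (hM : Mth) : SPDep := by
  intro E c hB x hx σ t w j hP hw hj h1 h2
  obtain ⟨d1, d2, d3, d4, -⟩ := hM.dig c hw hj
  have hbig := hB.big
  have hlA := hB.lA
  have hkA := hB.kA
  have hM2 := hB.lM2
  have h20 := hB.l20
  have a1 : df w j < 1048576 := B_eq ▸ KS.dg_lt B_pos _ _
  have a2 : c.al w j < 1048576 := B_eq ▸ KS.dg_lt B_pos _ _
  have a3 : c.al w j * B ^ j ≤ c.al w j * B ^ j * c.M := Nat.le_mul_of_pos_right _ c.M_pos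
  have a4 : c.be w j * B ^ j ≤ c.be w j * B ^ j * c.M := Nat.le_mul_of_pos_right _ c.M_pos
  have e1 : dg B j w = df w j := rfl
  have e2 : dg B (c.k + j) w = c.al w j := rfl
  have e3 : (c.al w j + df w j) % B = c.be w j := rfl
  have e4 : w - df w j * B ^ j = w1 w j := rfl
  have e5 : w1 w j - c.al w j * B ^ j * c.M + c.be w j * B ^ j * c.M = c.w2 w j := rfl
  unfold pDep
  rcases hx with rfl | rfl <;>
  · simp only [wp_blk_cons, wp_set, wp_blk_nil, Expr.safe, Expr.eval, St.setv_var,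
      Nat.reduceEqDiff, if_true, if_false, h1, h2, hP.k, hP.M, hP.T, hP.A, true_and]
    simp only [BOp.safe, BOp.eval.eq_1, BOp.eval.eq_2, BOp.eval.eq_3, BOp.eval.eq_7,
      BOp.eval.eq_8, edg_eq, c.epw_eq (show 20 * j ≤ c.A by omega), ← B_pw, e1, e2, true_and,
      and_true]
    simp only [and_B, e3, e4, e5, true_and]
    omega

theorem sBar (_hM : Mth) (h : SPDep) : SBar := by
  intro E c hB x hx σ t w hP hw h1
  have hbig := hB.big
  have hlA := hB.lA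
  have hkA := hB.kA
  have hlM := hB.lM
  have hx' : x ∉ [42, 43, 44, 45, 46, 47, 48, 49] := by rcases hx with rfl | rfl <;> decide
  unfold pBar
  simp only [wp_blk_cons, wp_set, wp_blk_nil, Expr.safe, Expr.eval]
  refine ⟨by omega, wp_for c.k 7 (fun j σ' => σ'.var 49 = KS.enc B j fun i => c.be w i)
    [43, 44, 45, 46, 47, 48, 49] [] false
    (by simp [Stmt.Within, pDep, blk, Stmt.wv, Stmt.wb, Stmt.rd]) (by decide) (by decide)
    (by decide) (by simp [hP.k]) (by omega) (by omega) (by simp [KS.enc]) ?_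
    fun σ' t' _ e ht => ⟨e, by unfold Cx.tBar; omega⟩⟩
  intro j σ' t' hj hF hi e
  have hF' : Frame [42, 43, 44, 45, 46, 47, 48, 49] [] false σ σ' := hF.of_setv (by decide)
  rw [wp_blk_cons]
  refine (h hB hx (hP.frame hF' (by decide)) hw hj ((hF'.var x hx').trans h1) hi).call _ _ _
    (depW x) ?_
  rintro σ₁ t₁ hF₁ ⟨-, g45, -, g47, -, ht⟩
  have h3 : KS.enc B (j + 1) (fun i => c.be w i) < B ^ (j + 1) := KS.enc_lt fun a _ => be_lt c w a
  have h4 : B ^ (j + 1) ≤ c.M := Nat.pow_le_pow_right B_pos hj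
  rw [KS.enc_succ] at h3
  simp only [wp_blk_cons, wp_set, wp_blk_nil, Expr.safe, Expr.eval, St.setv_var, Nat.reduceEqDiff,
    if_true, if_false, BOp.safe, BOp.eval, hF₁.var 49 (by decide), e, g45, g47, true_and,
    KS.enc_succ]
  omega

namespace RowP

variable {E : Env} {c : Cx}

theorem rowF (hM : Mth) (h1 : SPDep) (hB : Bnd c E) {σ : St} {t m k' w : ℕ} (hL : Lv c m k' σ)
    (hw : w < c.M2) (h41 : σ.var 41 = w)
    (hd : ∀ j < k', df w j ≠ 0 → Fil c m k' σ (w1 w j) ∧ Fil c m k' σ (c.w2 w j))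
    (h50 : σ.var 50 = c.X m (w / c.M)) (h51 : σ.var 51 = c.X m (c.bar w)) :
    WP E pRowF (fun σ' t' => σ'.var 50 = c.FA m k' w ∧ σ'.var 51 = c.FB m k' w ∧
      t' ≤ t + (11 * c.k + 2)) σ t := by
  have hbig := hB.big
  have hlA := hB.lA
  have hkA := hB.kA
  have hM2 := hB.lM2
  have hn := hB.ln
  have hk := hL.le
  obtain ⟨r1, -, -, r2, r3, r4, -⟩ := hM.recu c hL.hs.md hL.le hw
  unfold pRowF
  refine wp_for k' 9 (fun j σ' => ((∀ i < j, df w i = 0) ∧ σ'.var 50 = c.X m (w / c.M) ∧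
      σ'.var 51 = c.X m (c.bar w)) ∨ (σ'.var 50 = c.FA m k' w ∧ σ'.var 51 = c.FB m k' w))
    [43, 44, 45, 46, 47, 48, 50, 51] [] false (by decide) (by decide) (by decide) (by decide)
    hL.kp (by omega) (by omega) (Or.inl ⟨by simp, by simpa using h50, by simpa using h51⟩) ?_ ?_
  · intro j σ' t' hj hF hi e
    obtain ⟨-, -, d3, d4, -⟩ := hM.dig c hw (hj.trans_le hk)
    rw [wp_blk_cons]
    refine (h1 hB (Or.inr rfl) (hL.hs.par.frame hF (by decide)) hw (hj.trans_le hk)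
      ((hF.var 41 (by decide)).trans h41) hi).call _ _ _ (depW 41) ?_
    rintro σ₁ t₁ hF₁ ⟨g43, -, g46, -, g48, ht⟩
    have b7 : σ₁.bank 7 = σ.bank 7 := (hF₁.bank 7 (by decide)).trans (hF.bank 7 (by decide))
    have b8 : σ₁.bank 8 = σ.bank 8 := (hF₁.bank 8 (by decide)).trans (hF.bank 8 (by decide))
    simp only [wp_blk_cons, wp_set, wp_ite, wp_skip, wp_blk_nil, Expr.safe, Expr.eval,
      St.setv_var, St.setv_bank, Nat.reduceEqDiff, if_true, if_false, BOp.safe, BOp.eval, g43, g46,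
      g48, b7, b8, hB.lim, hF₁.var 50 (by decide), hF₁.var 51 (by decide), true_and]
    refine ⟨fun h0 => ?_, fun h0 => ⟨e.imp_left fun e => ⟨fun i hi => ?_, e.2⟩, by omega⟩⟩
    · obtain ⟨⟨f1, f2, -⟩, f3, f4, -⟩ := hd j hj h0
      obtain ⟨s1, s2, -⟩ := r2 j hj h0
      rw [f1, f2, f3, f4, ← s1, ← s2]
      exact ⟨by omega, by omega, Or.inr ⟨rfl, rfl⟩, by omega⟩
    · exact (Nat.lt_succ_iff_lt_or_eq.1 hi).elim (e.1 i) fun e' => e' ▸ h0
  · rintro σ' t' - (⟨e1, e2, e3⟩ | ⟨e2, e3⟩) ht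
    · exact ⟨e2.trans (r1 e1).1.symm, e3.trans (r1 e1).2.symm, by omega⟩
    · exact ⟨e2, e3, by omega⟩

theorem rowU (hM : Mth) (h1 : SPDep) (hB : Bnd c E) {σ : St} {t m k' w : ℕ} (hL : Lv c m k' σ)
    (hw : w < c.M2) (h41 : σ.var 41 = w)
    (hd : ∀ j < k', df w j ≠ 0 → σ.bank 9 (j * c.M2 + w1 w j) = c.U m k' (w1 w j) j ∧
      σ.bank 9 (j * c.M2 + c.w2 w j) = c.U m k' (c.w2 w j) j)
    (h52 : σ.var 52 = c.U m k' w 0) :
    WP E pRowU (fun σ' t' => (σ'.var 52 = c.U m k' w k' ∧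
      (∀ i < k', σ'.bank 9 (i * c.M2 + w) = c.U m k' w i) ∧
      ∀ w' < c.M2, w' ≠ w → ∀ i, σ'.bank 9 (i * c.M2 + w') = σ.bank 9 (i * c.M2 + w')) ∧
      t' ≤ t + (11 * c.k + 2)) σ t := by
  have hbig := hB.big
  have hlA := hB.lA
  have hkA := hB.kA
  have hk := hL.le
  obtain ⟨-, -, r1, r2, -⟩ := hM.recu c hL.hs.md hL.le hw
  unfold pRowU
  refine wp_for k' 9 (fun j σ' => σ'.var 52 = c.U m k' w j ∧
      (∀ i < j, σ'.bank 9 (i * c.M2 + w) = c.U m k' w i) ∧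
      ∀ w' < c.M2, w' ≠ w → ∀ i, σ'.bank 9 (i * c.M2 + w') = σ.bank 9 (i * c.M2 + w'))
    [43, 44, 45, 46, 47, 48, 52] [9] false (by decide) (by decide) (by decide) (by decide)
    hL.kp (by omega) (by omega) ⟨by simpa using h52, by simp, fun _ _ _ _ => rfl⟩ ?_
    fun σ' t' _ e ht => ⟨e, by omega⟩
  intro j σ' t' hj hF hi ⟨e1, e2, e3⟩
  obtain ⟨-, -, d3, d4, -, -, d5⟩ := hM.dig c hw (hj.trans_le hk)
  have hP := hL.hs.par.frame hF (by decide)
  have g41 := (hF.var 41 (by decide)).trans h41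
  have a0 := addr hB (hj.le.trans hk) hw
  have a1 := addr hB (hj.le.trans hk) d3
  have a2 := addr hB (hj.le.trans hk) d4
  rw [wp_blk_cons, wp_st, wp_blk_cons]
  simp only [Expr.safe, Expr.eval, BOp.safe, BOp.eval, hi, hP.M2, g41, e1, hB.lim, true_and]
  refine ⟨by omega, a0, ?_⟩
  set σ₀ := σ'.setm 9 (j * c.M2 + w) (c.U m k' w j) with hσ₀
  have hF₀ : Frame [] [9] false σ' σ₀ := frame_setm _ _ _ _
  have f2 : ∀ i < j + 1, σ₀.bank 9 (i * c.M2 + w) = c.U m k' w i := fun i hi => by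
    simp only [hσ₀, St.setm_bank, if_true, Function.update_apply]
    split_ifs with e
    · rw [(addr_inj hw hw e).1]
    · exact e2 i (lt_of_le_of_ne (by omega) fun e' => e (by rw [e']))
  have f3 : ∀ w' < c.M2, w' ≠ w → ∀ i, σ₀.bank 9 (i * c.M2 + w') = σ.bank 9 (i * c.M2 + w') :=
    fun w' hw' hne i => by
      simp only [hσ₀, St.setm_bank, if_true]
      rw [Function.update_of_ne fun e => hne (addr_inj hw hw' e).2, e3 w' hw' hne]
  refine (h1 hB (Or.inr rfl) (hP.frame hF₀ (by decide)) hw (hj.trans_le hk) g41 hi).call _ _ _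
    (depW 41) ?_
  rintro σ₁ t₁ hF₁ ⟨g43, -, g46, -, g48, ht⟩
  have g42 : σ₁.var 42 = j := (hF₁.var 42 (by decide)).trans hi
  have g52 : σ₁.var 52 = c.U m k' w j := (hF₁.var 52 (by decide)).trans e1
  have g5 : σ₁.var 5 = c.M2 := (hF₁.var 5 (by decide)).trans hP.M2
  simp only [wp_blk_cons, wp_set, wp_ite, wp_skip, wp_blk_nil, Expr.safe, Expr.eval,
    St.setv_var, St.setv_bank, Nat.reduceEqDiff, if_true, if_false, BOp.safe, BOp.eval, g43, g46,
    g48, g42, g52, g5, hF₁.bank 9 (by decide), hB.lim, true_and]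
  refine ⟨fun h0 => ?_, fun h0 => ⟨⟨(r1 j hj h0).symm, f2, f3⟩, by omega⟩⟩
  obtain ⟨-, d6, d7, -⟩ := d5 h0
  obtain ⟨-, -, s3⟩ := r2 j hj h0
  rw [f3 _ d3 (fun e => by rw [e] at d6; omega), f3 _ d4 (fun e => by rw [e] at d7; omega),
    (hd j hj h0).1, (hd j hj h0).2]
  exact ⟨by omega, ⟨by omega, f2, f3⟩, by omega⟩

end RowP

theorem sRow (hM : Mth) (h1 : SPDep) (h2 : SBar) : SRow := by
  intro E c hB σ t m k' w hL hw h41 hd
  have hbig := hB.big
  have hlM := hB.lM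
  have hM2 := hB.lM2
  have hnn := hB.lnn
  have hk := hL.le
  obtain ⟨t1, t2, -⟩ := hM.top c hw
  obtain ⟨-, r0, -, -, -, -, r5⟩ := hM.recu c hL.hs.md hL.le hw
  have r6 := r5 0
  unfold pRow
  rw [wp_blk_cons]
  refine (h2 hB (Or.inr rfl) hL.hs.par hw h41).call [42, 43, 44, 45, 46, 47, 48, 49] [] false
    (by decide) ?_
  rintro σ₁ t₁ hF₁ ⟨g49, ht₁⟩
  have hL₁ := hL.frame hF₁ (by decide) (by decide)
  have g41 := (hF₁.var 41 (by decide)).trans h41
  rw [wp_blk_cons, wp_set, wp_blk_cons, wp_set, wp_blk_cons]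
  simp only [Expr.safe, Expr.eval, BOp.safe, BOp.eval, St.setv_var, St.setv_bank,
    Nat.reduceEqDiff, if_false, g41, g49, hL₁.hs.par.lb, c.shr_M, hL₁.hs.X _ t1, hL₁.hs.X _ t2,
    hB.lim, true_and]
  refine ⟨by omega, by omega, ?_⟩
  set σ₂ := (σ₁.setv 50 (c.X m (w / c.M))).setv 51 (c.X m (c.bar w)) with hσ₂
  have hF₂ : Frame [42, 43, 44, 45, 46, 47, 48, 49, 50, 51] [] false σ σ₂ :=
    (hF₁.weaken (by decide) (by decide) id).trans
      (((Frame.refl _ _ _ σ₂).of_setv (by decide)).of_setv (by decide))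
  refine (rowF hM h1 hB (hL.frame hF₂ (by decide) (by decide)) hw
    ((hF₂.var 41 (by decide)).trans h41) (fun j hj h0 => ?_) (by simp [hσ₂])
    (by simp [hσ₂])).call [42, 43, 44, 45, 46, 47, 48, 49, 50, 51] [] false (by decide) ?_
  · obtain ⟨-, -, d3, d4, -⟩ := hM.dig c hw (hj.trans_le hk)
    exact ⟨Keeps.of_frame hF₂ (by decide) _ d3 (hd j hj h0).1,
      Keeps.of_frame hF₂ (by decide) _ d4 (hd j hj h0).2⟩
  rintro σ₃ t₃ hF₃ ⟨g50, g51, ht₃⟩
  replace hF₃ := hF₂.trans hF₃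
  have g41' := (hF₃.var 41 (by decide)).trans h41
  rw [wp_blk_cons, wp_st, wp_blk_cons, wp_st, wp_blk_cons, wp_set, wp_blk_cons]
  simp only [Expr.safe, Expr.eval, BOp.safe, BOp.eval, St.setm_var, g41', g50, g51, ← r0, hB.lim,
    true_and]
  refine ⟨by omega, by omega, by omega, ?_⟩
  set σ₄ := ((σ₃.setm 7 w (c.FA m k' w)).setm 8 w (c.FB m k' w)).setv 52 (c.U m k' w 0) with hσ₄
  have hF₄ : Frame [42, 43, 44, 45, 46, 47, 48, 49, 50, 51, 52] [7, 8] false σ σ₄ :=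
    (hF₃.weaken (by decide) (by decide) id).trans
      ⟨fun x hx => by
        simp only [hσ₄, St.setv_var, St.setm_var]
        rw [if_neg (by rintro rfl; exact hx (by decide))], fun b hb => by
        simp only [List.mem_cons, List.not_mem_nil, or_false, not_or] at hb
        simp [hσ₄, hb.1, hb.2], fun _ => rfl⟩
  have b7 : σ₄.bank 7 = Function.update (σ.bank 7) w (c.FA m k' w) := by
    simp [hσ₄, hF₃.bank 7 (by decide)]
  have b8 : σ₄.bank 8 = Function.update (σ.bank 8) w (c.FB m k' w) := by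
    simp [hσ₄, hF₃.bank 8 (by decide)]
  have b9 : σ₄.bank 9 = σ.bank 9 := hF₄.bank 9 (by decide)
  have hL₄ := hL.frame hF₄ (by decide) (by decide)
  refine (rowU hM h1 hB hL₄ hw ((hF₄.var 41 (by decide)).trans h41) (fun j hj h0 => b9 ▸
    ⟨(hd j hj h0).1.2.2 j hj.le, (hd j hj h0).2.2.2 j hj.le⟩) (by simp [hσ₄])).call
    [42, 43, 44, 45, 46, 47, 48, 52] [9] false (by decide) ?_
  rintro σ₅ t₅ hF₅ ⟨⟨g52, f2, f3⟩, ht₅⟩
  have hL₅ := hL₄.frame hF₅ (by decide) (by decide)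
  have g41'' := (hF₅.var 41 (by decide)).trans ((hF₄.var 41 (by decide)).trans h41)
  have a0 := addr hB hk hw
  simp only [wp_blk_cons, wp_st, wp_blk_nil, Expr.safe, Expr.eval, BOp.safe, BOp.eval, hL₅.kp,
    hL₅.hs.par.M2, g41'', g52, hB.lim, true_and]
  have key : Fil c m k' (σ₅.setm 9 (k' * c.M2 + w) (c.U m k' w k')) w := by
    refine ⟨by simp [hF₅.bank 7 (by decide), b7], by simp [hF₅.bank 8 (by decide), b8],
      fun i hi => ?_⟩
    simp only [St.setm_bank, if_true, Function.update_apply]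
    split_ifs with e
    · rw [(addr_inj hw hw e).1]
    · exact f2 i (lt_of_le_of_ne hi fun e' => e (by rw [e']))
  refine ⟨by omega, a0, key, fun w' hw' h => ?_, by unfold Cx.tBar at ht₁; unfold Cx.tRow; omega⟩
  by_cases hne : w' = w
  · exact hne ▸ key
  refine ⟨by simp [hF₅.bank 7 (by decide), b7, hne, h.1],
    by simp [hF₅.bank 8 (by decide), b8, hne, h.2.1], fun i hi => ?_⟩
  simp only [St.setm_bank, if_true]
  rw [Function.update_of_ne fun e => hne (addr_inj hw hw' e).2, f3 w' hw' hne, b9, h.2.2 i hi]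

end Pool.Agent.P.MP_8f87b2_lc.DT
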