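import Pool.Agent.P.MP_8f87b2_lc.DT.Ctx

/-!
# Deterministic 3SUM: computing the parameters, the size facts, and the shape of the program
-/

namespace Pool.Agent.P.MP_8f87b2_lc.DT

open Finset
open KS (dg enc)
open Cx

namespace SetupP

variable {E : Env} {c : Cx} {κ0 : ℕ}

theorem pSize_spec (hS : Sz κ0 c) (hn1 : E.n1 = c.n + 1) (hin : E.inp 0 = c.n) (h1 : 1 ≤ c.κ)
    (hl : 19475 * c.κ < E.W) {σ : St} {t : ℕ} :
    WP E (pSize κ0) (fun σ' t' => σ'.var 1 = c.n ∧ σ'.var 2 = c.κ ∧ t' ≤ t + 2 * c.κ + 3) σ t := by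
  have hs1 := hS.s1
  unfold pSize
  simp only [wp_blk_cons, wp_set, wp_blk_nil, Expr.safe, Expr.eval, hin]
  refine ⟨by omega, by omega, ?_⟩
  refine wp_while (fun σ' t' => ∃ i, κ0 ≤ i ∧ i ≤ c.κ ∧ σ'.var 1 = c.n ∧ σ'.var 2 = i ∧
      t' ≤ t + 2 * i + 2) (fun σ' => c.κ - σ'.var 2) [2] [] false
    (by simp [Stmt.Within, Stmt.wv, Stmt.wb, Stmt.rd]) ⟨κ0, by simp [hs1]⟩ ?_
  rintro σ' t' - ⟨i, i1, i2, v1, v2, ht⟩
  have he : (eshr (.v 1) (emul (.c 19475) (.v 2))).eval E σ' = c.n / 2 ^ (19475 * i) := by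
    simp only [Expr.eval, BOp.eval, v1, v2, Nat.shiftRight_eq_div_pow]
  rw [he]
  refine ⟨?_, fun hc => ?_, fun hc => ?_⟩
  · simp only [Expr.safe, Expr.eval, BOp.safe, v2, true_and, and_true]
    omega
  · have hlt : i < c.κ := by
      by_contra h
      obtain rfl : i = c.κ := by omega
      exact hc (Nat.div_eq_of_lt hS.nN)
    simp only [wp_set, Expr.safe, Expr.eval, BOp.safe, BOp.eval, St.setv_var, Nat.reduceEqDiff,
      if_true, if_false, true_and, v1, v2]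
    exact ⟨by omega, ⟨i + 1, by omega, hlt, rfl, by omega⟩, by omega⟩
  · have : i = c.κ := by
      by_contra h
      exact (Nat.div_pos (hS.smin i i1 (by omega)) (Nat.two_pow_pos _)).ne' hc
    exact ⟨v1, v2.trans this, by omega⟩

theorem pDbl_spec {e : ℕ} {σ : St} {t : ℕ} (h11 : σ.var 11 = e) (h10 : σ.var 10 = 1)
    (hW : 2 * 2 ^ e < E.W) :
    WP E (forL 31 11 (.set 10 (eadd (.v 10) (.v 10)))) (fun σ' t' => σ'.var 10 = 2 ^ e ∧
      t' ≤ t + 3 * e + 2) σ t := by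
  have h1 : e < 2 ^ e := Nat.lt_two_pow_self
  refine wp_for e 1 (fun k σ' => σ'.var 10 = 2 ^ k) [10] [] false (by decide) (by decide)
    (by decide) (by decide) h11 (by omega) (by omega) (by simp [h10])
    (fun k σ' t' hk _ _ hI => ?_) fun σ' t' _ hI ht => ⟨hI, by omega⟩
  have h4 : 2 ^ k ≤ 2 ^ e := Nat.pow_le_pow_right (by norm_num) hk.le
  simp only [wp_set, Expr.safe, Expr.eval, BOp.safe, BOp.eval, St.setv_var, Nat.reduceEqDiff,
    if_false, if_true, true_and, hI, pow_succ]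
  exact ⟨by omega, by omega, le_rfl⟩

theorem setup (hS : Sz κ0 c) (hB : Bnd c E) (hin : E.inp 0 = c.n) {σ : St} {t : ℕ} :
    WP E (pSetup κ0) (fun σ' t' => Par c σ' ∧ t' ≤ t + 10 * c.A) σ t := by
  have κ4 := hB.inp.κ1
  have eA : 100000 * c.κ = c.A := rfl
  have ek : 1000 * c.κ = c.k := rfl
  have ek1 : 315 * c.κ = c.k1 := rfl
  have eL : 77900 * c.κ + 3 = c.Lb + 1 := rfl
  have big := hB.big
  have lA := hB.lA
  have ln := hB.ln
  have w1 : c.T >>> (c.A - 20 * c.k) = c.M := by rw [c.epw_eq (by omega), ← B_pw]; rfl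
  have w2 : c.T >>> (c.A - 40 * c.k) = c.M2 := by
    rw [c.epw_eq (by omega), M2, B_pw, show 20 * (2 * c.k) = 40 * c.k by ring]
  have w3 : c.T >>> (c.A - c.κ) = c.Q := c.epw_eq (by omega)
  have w4 : c.T >>> (c.A - 77900 * c.κ) = c.N4 := c.epw_eq (by omega)
  have w5 : c.T >>> (c.A - 38428 * c.κ) = c.Bd := c.epw_eq (by omega)
  have w6 : c.T >>> (c.A - 40) = B * B := by
    rw [c.epw_eq (by omega), B_pow, ← pow_add]
  have w7 : c.T >>> (c.A - 19475 * c.κ) = c.Nn := c.epw_eq (by omega)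
  unfold pSetup
  rw [wp_blk_cons]
  refine (pSize_spec hS hB.n1 hin (by omega) (by omega)).call [1, 2] [] false
    (show (pSize 0).Within _ _ _ by decide) ?_
  rintro σ₁ t₁ - ⟨a1, a2, ht₁⟩
  rw [wp_blk_cons, wp_set]
  refine ⟨by simp only [Expr.safe, Expr.eval, BOp.safe, a2, true_and]; omega, ?_⟩
  rw [wp_blk_cons, wp_set]
  refine ⟨by simp only [Expr.safe]; omega, ?_⟩
  simp only [Expr.eval, BOp.eval, a2, eA]
  rw [wp_blk_cons]
  refine (pDbl_spec (e := c.A) (by simp) (by simp) (show 2 * c.T < E.W by omega)).call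
    [31, 10] [] false (by decide) ?_
  rintro σ₂ t₂ F₂ ⟨a10, ht₂⟩
  have a11 : σ₂.var 11 = c.A := by rw [F₂.var 11 (by decide)]; simp
  replace a1 : σ₂.var 1 = c.n := by rw [F₂.var 1 (by decide)]; simpa using a1
  replace a2 : σ₂.var 2 = c.κ := by rw [F₂.var 2 (by decide)]; simpa using a2
  replace a10 : σ₂.var 10 = c.T := a10
  clear F₂
  simp only [wp_blk_cons, wp_blk_nil, wp_set, Expr.safe, Expr.eval, BOp.safe, BOp.eval,
    St.setv_var, Nat.reduceEqDiff, if_true, if_false, true_and, and_true, a1, a2, a10, a11,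
    ek, ek1, eL, w1, w2, w3, w4, w5, w6, w7]
  clear w1 w2 w3 w4 w5 w6 w7
  refine ⟨by omega, by omega, by omega, by omega, by omega, by omega, by omega, by omega,
    by omega, by omega, by omega, by omega, by omega, by omega, by omega, ?_, by omega⟩
  constructor <;>
    simp only [St.setv_var, Nat.reduceEqDiff, if_true, if_false, a1, a10, a11, two_mul]

theorem mul_le {a b e f : ℕ} (h1 : a ≤ 2 ^ e) (h2 : b ≤ 2 ^ f) : a * b ≤ 2 ^ (e + f) := by
  rw [pow_add]; exact Nat.mul_le_mul h1 h2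

theorem up {a e : ℕ} (h1 : a ≤ 2 ^ e) (h2 : e ≤ c.A) : a ≤ c.T :=
  h1.trans (Nat.pow_le_pow_right (by norm_num) h2)

theorem compE_rand (e : Expr) (k d : ℕ) : Instr.rand d ∉ compE e k := by
  induction e generalizing k <;> simp_all [compE, addrCode]

theorem comp_rand {s : Stmt} (h : s.rd = false) (p d : ℕ) : Instr.rand d ∉ comp s p := by
  induction s generalizing p <;> simp_all [comp, addrCode, compE_rand, Stmt.rd]

end SetupP

theorem sSetup : SSetup := by
  intro E c κ0 hS hB hin σ t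
  refine (SetupP.setup hS hB hin).call
    [1, 2, 3, 4, 5, 6, 7, 8, 9, 10, 11, 12, 13, 14, 15, 16, 17, 18, 19, 31] [] false
    (show (pSetup 0).Within _ _ _ by decide) ?_
  rintro σ' t' hF ⟨hP, ht⟩
  exact ⟨hP, hF.var 0 (by decide), funext fun k => hF.bank k (by simp), ht⟩

open SetupP in
theorem sBnd (h : STh) : SBnd := by
  intro E c w hI hW hw hL hn hr
  have κ4 := hI.κ1
  have nN := hI.nN
  have eA : c.A = 100000 * c.κ := rfl
  have ek : c.k = 1000 * c.κ := rfl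
  have eL : c.Lb = 77900 * c.κ + 2 := rfl
  have bB : B ≤ 2 ^ 20 := B_pow.le
  have bM : c.M ≤ 2 ^ (20 * c.k) := (B_pw _).le
  have bM2 : c.M2 ≤ 2 ^ (20 * (2 * c.k)) := (B_pw _).le
  have bN : c.Nn ≤ 2 ^ (19475 * c.κ) := le_rfl
  have bn : c.n ≤ 2 ^ (19475 * c.κ) := nN.le
  have b4 : 4 ≤ 2 ^ 2 := by norm_num
  refine ⟨hI, h c (by omega) nN, hn, hr, hL, ?_, ?_, by omega, by omega,
    up (mul_le (show 8 ≤ 2 ^ 3 by norm_num) (mul_le bB bB)) (by omega),
    up (mul_le ((show 2 * c.n + 4 ≤ 4 * c.Nn by omega).trans (mul_le b4 bN)) (mul_le bB bM2))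
      (by omega),
    up (mul_le (Nat.succ_le_of_lt Nat.lt_two_pow_self) bM2) (by omega),
    up (mul_le bM bN) (by omega),
    up (mul_le b4 (show c.N4 ≤ 2 ^ (77900 * c.κ) from le_rfl)) (by omega),
    up (mul_le bM le_rfl) (by omega),
    up (mul_le b4 (show c.Θ ≤ 2 ^ (38750 * c.κ + 100) from le_rfl)) (by omega), ?_⟩
  · have h1 : 2048 * c.T ≤ 2 ^ (11 + c.A) :=
      mul_le (show 2048 ≤ 2 ^ 11 by norm_num) (show c.T ≤ 2 ^ c.A from le_rfl)
    have h2 : 2 ^ (11 + c.A) ≤ 2 ^ w := Nat.pow_le_pow_right (by norm_num) (by omega)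
    have h3 := c.T_pos
    omega
  · have h1 : 50000 * c.κ ≤ 2 ^ (50000 * c.κ) := Nat.lt_two_pow_self.le
    refine le_trans ?_ (up (mul_le ((show 200 ≤ 50000 * c.κ by omega).trans h1) h1) (by omega))
    omega
  · refine (mul_le (mul_le (show 2 ≤ 2 ^ 1 by norm_num) bn) (mul_le bn bn)).trans_lt ?_
    exact Nat.pow_lt_pow_right (by norm_num) (by omega)

theorem pMain_wf (k0 : ℕ) : (pMain k0).wf = true := by
  have h1 : (pSetup k0).wf = true := show (pSetup 0).wf = true by decide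
  have h2 : pRest.wf = true := by decide
  unfold pMain
  rw [Stmt.wf, h1, h2]
  rfl

theorem pMain_rd (k0 : ℕ) : (pMain k0).rd = false := by
  have h1 : (pSetup k0).rd = false := show (pSetup 0).rd = false by decide
  have h2 : pRest.rd = false := by decide
  unfold pMain
  rw [Stmt.rd, h1, h2]
  rfl

theorem no_rand {s : Stmt} (h : s.rd = false) (d : ℕ) : Instr.rand d ∉ program s := by
  simp [program, SetupP.comp_rand h]

end Pool.Agent.P.MP_8f87b2_lc.DT
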