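import Pool.Agent.P.MP_8f87b2_lc.DT.Base

/-!
# The values of the nodes add up to the number of pseudo-solutions; the leaves
-/

namespace Pool.Agent.P.MP_8f87b2_lc.DT

open Finset
open KS (dg enc)
open Cx

namespace SumP

theorem ga_lt (c : Cx) {m : ℕ} (hm : Md c m) (a : ℕ) : c.ga m a < m := Nat.mod_lt _ hm.1

theorem ga_ltM (c : Cx) {m : ℕ} (hm : Md c m) (a : ℕ) : c.ga m a < B ^ c.k := by
  have h1 := ga_lt c hm a
  have h2 := hm.2
  unfold Cx.M at h2
  omega

/-- a covered pair has the sum of the two halves of the row -/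
theorem cover (h : STop) (c : Cx) {k' w p q : ℕ} (hw : w < c.M2) (hp : p < B ^ c.k)
    (hq : q < B ^ c.k) (hc : c.prU k' k' w p q) : p + q = w / c.M + c.bar w := by
  obtain ⟨t1, t2, t3, -⟩ := h c hw
  rw [← KS.enc_dg' hp, ← KS.enc_dg' hq, ← KS.enc_dg' (b := B) (q := c.k) t1,
    ← KS.enc_dg' (b := B) (q := c.k) t2]
  unfold enc
  rw [← sum_add_distrib, ← sum_add_distrib]
  refine sum_congr rfl fun j hj => ?_
  have hj := mem_range.1 hj
  beta_reduce
  rw [← add_mul, ← add_mul, (t3 j hj).1, (t3 j hj).2.1]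
  congr 1
  by_cases hk : j < k'
  · rcases hc.2.2 j hk with e | e <;> omega
  · rcases hc.1 j hj with e | e
    · rcases hc.2.1 j hj with e' | e'
      · omega
      · exact absurd e'.1 hk
    · exact absurd e.1 hk

theorem count {ι : Type*} (s : Finset ι) (P : ι → ℕ → Prop) [∀ e z, Decidable (P e z)]
    (L : Multiset ℕ) : ∑ e ∈ s, (L.filter (P e)).card =
      (L.map fun z => (s.filter fun e => P e z).card).sum := by
  induction L using Multiset.induction_on with
  | empty => simp
  | cons z L ih =>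
    rw [Multiset.map_cons, Multiset.sum_cons, ← ih, card_filter, ← sum_add_distrib]
    refine sum_congr rfl fun e _ => ?_
    by_cases hz : P e z
    · rw [Multiset.filter_cons_of_pos _ hz, Multiset.card_cons, if_pos hz, add_comm]
    · rw [Multiset.filter_cons_of_neg _ hz, if_neg hz, zero_add]

theorem ori_le (c : Cx) (j z : ℕ) : (c.ori j z).card ≤ 2 := by
  unfold Cx.ori
  split_ifs <;> simp

theorem chO_le (c : Cx) (m k' z : ℕ) : (c.chO m k' z).card ≤ 2 := by
  unfold Cx.chO
  split_ifs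
  · simp
  · exact ori_le c _ _

theorem chO_le' (c : Cx) (m : ℕ) {k' : ℕ} (h : c.k1 ≤ k') (z : ℕ) :
    (c.chO m k' z).card ≤ 2 * c.Z m k' z := by
  by_cases hz : c.Z m k' z = 0
  · unfold Cx.chO
    rw [if_pos ⟨h, hz⟩]
    simp
  · have := chO_le c m k' z
    omega

theorem sumZ (h : STop) (c : Cx) {m k' : ℕ} {L : Multiset ℕ} (hm : Md c m) (hL : c.LI m k' L) :
    (L.map (c.Z m k')).sum = c.PS m := by
  have key := count (range (2 * c.n) ×ˢ range c.n ×ˢ range c.n)
    (fun e z => z / c.M2 = e.1 ∧ c.prU k' k' (z % c.M2) (c.ga m e.2.1) (c.ga m e.2.2)) L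
  have e1 : (L.map fun z => ((range (2 * c.n) ×ˢ range c.n ×ˢ range c.n).filter fun e =>
      z / c.M2 = e.1 ∧ c.prU k' k' (z % c.M2) (c.ga m e.2.1) (c.ga m e.2.2)).card) =
      L.map (c.Z m k') := by
    refine Multiset.map_congr rfl fun z hz => ?_
    unfold Cx.Z Cx.U
    refine card_nbij' (fun e => e.2) (fun e => (z / c.M2, e)) ?_ ?_ ?_ ?_
    · intro e he
      simp only [coe_filter, mem_product, Set.mem_ofPred_eq] at he ⊢
      exact ⟨he.1.2, he.2.2⟩
    · intro e he
      simp only [coe_filter, mem_product, Set.mem_ofPred_eq] at he ⊢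
      exact ⟨⟨mem_range.2 (hL.node z hz).g, he.1⟩, trivial, he.2⟩
    · intro e he
      simp only [coe_filter, Set.mem_ofPred_eq] at he
      exact Prod.ext he.2.1 rfl
    · intro e _
      rfl
  rw [← e1, ← key, Cx.PS, card_filter]
  refine sum_congr rfl fun e he => ?_
  simp only [mem_product, mem_range] at he
  split_ifs with hs
  · exact hL.one _ he.1 _ he.2.1 _ he.2.2 hs
  · rw [Multiset.card_eq_zero, Multiset.filter_eq_nil]
    rintro z hz ⟨z1, z2⟩
    have c1 := cover h c (Nat.mod_lt _ c.M2_pos) (ga_ltM c hm _) (ga_ltM c hm _) z2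
    have c2 := (hL.node z hz).sum
    have c3 := ga_lt c hm e.2.1
    have c4 := ga_lt c hm e.2.2
    have c5 := hm.2
    rw [← c1, Nat.mod_eq_of_lt (by omega), z1] at c2
    exact hs c2

end SumP

open SumP

theorem sVal : SVal := by
  intro c h i hi
  have h1 := abs_le.1 (h.xb i hi)
  have h2 := c.N4_pos
  unfold Cx.u Cx.v
  generalize c.N4 = N at *
  omega

theorem sSum (h' : STop) : SSum := by
  intro c m k' L hm _ hL
  have e := sumZ h' c hm hL
  refine ⟨e, ?_, fun hk => ?_, ?_⟩
  · rw [Multiset.card_bind]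
    refine (Multiset.sum_map_le_sum_map _ (fun _ => 2) fun z _ => chO_le c m k' z).trans ?_
    simp [mul_comm]
  · rw [Multiset.card_bind, ← e, ← Multiset.sum_map_mul_left]
    exact Multiset.sum_map_le_sum_map _ _ fun z _ => chO_le' c m hk z
  · refine (card_filter_le _ _).trans ?_
    simp

theorem sLeafM (h : SRec) (h' : STop) (hs : SSum) (hv : SVal) : SLeafM := by
  intro c m L hi hm hL
  refine ⟨fun a ha b hb i hi' e => ?_, ?_⟩
  · have e1 : c.u a + c.u b = c.v i := by
      have v1 := (hv c hi a ha).1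
      have v2 := (hv c hi b hb).1
      have v3 := (hv c hi i hi').2.1
      omega
    have e2 : (c.ga m a + c.ga m b) % m = c.gc m i := by
      unfold Cx.ga Cx.gc
      rw [← Nat.add_mod, e1]
    have c3 := ga_lt c hm a
    have c4 := ga_lt c hm b
    obtain ⟨g, g1, g2⟩ : ∃ g, g / 2 = i ∧ c.ga m a + c.ga m b = c.tau m g := by
      by_cases hlt : c.ga m a + c.ga m b < m
      · refine ⟨2 * i, by omega, ?_⟩
        rw [Nat.mod_eq_of_lt hlt] at e2
        rw [Cx.tau, show 2 * i / 2 = i by omega, show 2 * i % 2 = 0 by omega]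
        omega
      · refine ⟨2 * i + 1, by omega, ?_⟩
        rw [Nat.mod_eq_sub_mod (by omega), Nat.mod_eq_of_lt (by omega)] at e2
        rw [Cx.tau, show (2 * i + 1) / 2 = i by omega, show (2 * i + 1) % 2 = 1 by omega]
        omega
    have one := hL.one g (by omega) a ha b hb g2
    obtain ⟨z, hz⟩ := Multiset.card_pos_iff_exists_mem.1 (one ▸ Nat.one_pos)
    obtain ⟨z1, z2, z3, z4, -⟩ := Multiset.mem_filter.1 hz
    obtain ⟨t1, t2, t3, -⟩ := h' c (Nat.mod_lt z c.M2_pos)
    refine ⟨z, z1, by rw [z2, g1], ?_, ?_⟩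
    · refine KS.dg_ext (b := B) (q := c.k) t1 (ga_ltM c hm a) fun j hj => ?_
      rw [(t3 j hj).1]
      rcases z3 j hj with e | e
      · exact e.symm
      · exact absurd e.1 (Nat.not_lt_zero j)
    · have e3 : c.ga m b = c.bar (z % c.M2) := by
        refine KS.dg_ext (b := B) (q := c.k) (ga_ltM c hm b) t2 fun j hj => ?_
        rw [(t3 j hj).2.1]
        rcases z4 j hj with e | e
        · exact e
        · exact absurd e.1 (Nat.not_lt_zero j)
      exact (card_pos.2 ⟨b, mem_filter.2 ⟨mem_range.2 hb, e3⟩⟩).ne'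
  · rw [← (hs c hm (Nat.zero_le _) hL).1]
    refine Multiset.sum_map_le_sum_map _ _ fun z _ => ?_
    obtain ⟨r1, r2, -⟩ := h c hm (Nat.zero_le _) (Nat.mod_lt z c.M2_pos)
    obtain ⟨r3, r4⟩ := r1 fun j hj => absurd hj (Nat.not_lt_zero j)
    unfold Cx.Z
    rw [r2, r3, r4]
    split_ifs with hx
    · exact Nat.zero_le _
    · exact Nat.le_mul_of_pos_right _ (Nat.pos_of_ne_zero hx)

end Pool.Agent.P.MP_8f87b2_lc.DT
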