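import Pool.Agent.P.MP_8f87b2_lc.DT.Base

/-!
# Deterministic 3SUM: the sizes of the phases
-/

namespace Pool.Agent.P.MP_8f87b2_lc.DT

open Finset
open KS (dg enc)
open Cx

namespace ThP

theorem le_sub {a s e : ℕ} (h : a * 2 ^ s ≤ 2 ^ e) : a + 1 ≤ 2 ^ (e - s + 1) := by
  have h1 : a ≤ 2 ^ (e - s) := by
    have hs : 0 < 2 ^ s := by positivity
    refine Nat.le_of_mul_le_mul_right (h.trans ?_) hs
    rw [← pow_add]
    exact Nat.pow_le_pow_right (by norm_num) (by omega)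
  have h2 : 1 ≤ 2 ^ (e - s) := Nat.one_le_two_pow
  rw [pow_succ]
  omega

/-- a bound on one power gives a bound on all powers -/
theorem pow_le {a q r : ℕ} (hq : 0 < q) (h : a ^ q ≤ 2 ^ r) (j : ℕ) :
    a ^ j ≤ 2 ^ (r * j / q + 1) := by
  have h1 : (a ^ j) ^ q ≤ (2 ^ (r * j / q + 1)) ^ q := by
    rw [← pow_mul, mul_comm j q, pow_mul, ← pow_mul 2]
    refine (Nat.pow_le_pow_left h j).trans ?_
    rw [← pow_mul]
    refine Nat.pow_le_pow_right (by norm_num) ?_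
    have := Nat.lt_mul_div_succ (r * j) hq
    rw [mul_comm (r * j / q + 1) q]
    exact this.le
  exact (Nat.pow_le_pow_iff_left hq.ne').mp h1

theorem p17 (j : ℕ) : 17 ^ j ≤ 2 ^ (327 * j / 80 + 1) :=
  pow_le (by norm_num) (by rw [show 327 = 200 + 127 from rfl, pow_add]; norm_num) j

theorem p9 (j : ℕ) : 9 ^ j ≤ 2 ^ (317 * j / 100 + 1) :=
  pow_le (by norm_num) (by rw [show 317 = 200 + 117 from rfl, pow_add]; norm_num) j

theorem bern (a q : ℕ) (h : q ≤ a) : (a + 1) ^ q * (a - q) ≤ a ^ q * a := by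
  induction q with
  | zero => simp
  | succ q ih =>
    have ih := ih (by omega)
    obtain ⟨d, rfl⟩ : ∃ d, a = q + 1 + d := ⟨a - (q + 1), by omega⟩
    have e1 : q + 1 + d - (q + 1) = d := by omega
    have e2 : q + 1 + d - q = d + 1 := by omega
    rw [e1]
    rw [e2] at ih
    set A := q + 1 + d with hA
    have h3 : (A + 1) * d ≤ A * (d + 1) := by
      have : d ≤ A := by omega
      nlinarith
    calc (A + 1) ^ (q + 1) * d = (A + 1) ^ q * ((A + 1) * d) := by ring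
      _ ≤ (A + 1) ^ q * (A * (d + 1)) := Nat.mul_le_mul_left _ h3
      _ = (A + 1) ^ q * (d + 1) * A := by ring
      _ ≤ A ^ q * A * A := Nat.mul_le_mul_right _ ih
      _ = A ^ (q + 1) * A := by ring

theorem bern2 (a q : ℕ) (h : 2 * q ≤ a) (ha : 0 < a) : (a + 1) ^ q ≤ 2 * a ^ q := by
  have h1 := bern a q (by omega)
  have h2 : (a + 1) ^ q * a ≤ 2 * a ^ q * a :=
    calc (a + 1) ^ q * a ≤ (a + 1) ^ q * (2 * (a - q)) := Nat.mul_le_mul_left _ (by omega)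
      _ = 2 * ((a + 1) ^ q * (a - q)) := by ring
      _ ≤ 2 * (a ^ q * a) := Nat.mul_le_mul_left _ h1
      _ = 2 * a ^ q * a := by ring
  exact Nat.le_of_mul_le_mul_right h2 ha

theorem pN (q κ : ℕ) (hq : q ≤ 1000) : 524289 ^ (q * κ) ≤ 2 ^ ((19 * q + 1) * κ) := by
  rw [pow_mul, pow_mul]
  refine Nat.pow_le_pow_left ?_ κ
  have h := bern2 (2 ^ 19) q (by omega) (by norm_num)
  rw [← pow_mul, ← pow_succ'] at h
  exact h

variable {c : Cx}

theorem dl (h : SCnt) {k' : ℕ} (hk : k' ≤ c.k) :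
    c.DLc k' + 1 ≤
      2 ^ (327 * k' / 80 + 1 + 15 * k' + 20 * (c.k - k') - 15 * c.s k' + 1) := by
  refine le_sub ((h c hk).1.trans ?_)
  rw [mul_pow, ← pow_mul, B_pow, ← pow_mul, pow_add, pow_add]
  exact Nat.mul_le_mul_right _ (Nat.mul_le_mul_right _ (p17 k'))

theorem pl (h : SCnt) {k' : ℕ} (hk : k' ≤ c.k) :
    c.PLc k' + 1 ≤ 2 ^ (4 * c.s k' + (k' + (317 * k' / 100 + 1)) - 4 * k' + 1) := by
  refine le_sub ?_
  have h1 := (h c hk).2
  rw [show (16 : ℕ) = 2 ^ 4 by norm_num, show (18 : ℕ) = 2 * 9 by norm_num, ← pow_mul,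
    ← pow_mul, mul_pow] at h1
  refine h1.trans ?_
  rw [pow_add, pow_add]
  exact Nat.mul_le_mul_left _ (Nat.mul_le_mul_left _ (p9 k'))

theorem mul_le {a b e f : ℕ} (h1 : a ≤ 2 ^ e) (h2 : b ≤ 2 ^ f) : a * b ≤ 2 ^ (e + f) := by
  rw [pow_add]
  exact Nat.mul_le_mul h1 h2

theorem fin {a e : ℕ} (h1 : a ≤ 2 ^ e) (h2 : e ≤ 38750 * c.κ + 100) : a ≤ c.Θ :=
  h1.trans (Nat.pow_le_pow_right (by norm_num) h2)

end ThP

open ThP in
theorem sTh (h : SCnt) : STh := by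
  intro c _ hn
  have hQ : c.Q ≤ 2 ^ c.κ := le_rfl
  have hM : c.M ≤ 2 ^ (20 * c.k) := by rw [Cx.M, B_pow, ← pow_mul]
  have hn1 : c.n + 1 ≤ 2 ^ (19475 * c.κ) := hn
  have hn0 : c.n ≤ 2 ^ (19475 * c.κ) := Nat.le_of_succ_le hn1
  have h2 : 2 ≤ 2 ^ 1 := by norm_num
  have hB : c.Bd ≤ 2 ^ (38428 * c.κ) := le_rfl
  have hk : c.k = 1000 * c.κ := rfl
  have hk1 : c.k1 = 315 * c.κ := rfl
  have hs : ∀ k', c.s k' = 23 * c.κ + (c.k - k') / 16 := fun _ => rfl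
  refine ⟨fun k' h1 h3 => ?_, ?_, fun k' h1 h3 => ?_, ?_, ?_, ?_⟩
  · refine fin (mul_le hQ (mul_le hM (dl h h3))) ?_
    have := hs k'
    omega
  · have hN : c.Nt ≤ 2 ^ (1 + 19475 * c.κ + (19 * 1000 + 1) * c.κ) :=
      mul_le (mul_le h2 hn0) (pN 1000 c.κ le_rfl)
    refine fin (mul_le hQ (mul_le hN (pl h le_rfl))) ?_
    have := hs c.k
    omega
  · refine fin (mul_le (mul_le h2 hB) (pl h h3)) ?_
    have := hs k'
    omega
  · refine fin (mul_le (mul_le h2 hB) le_rfl) ?_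
    omega
  · have h4 : 4 ^ c.k ≤ 2 ^ (2 * c.k) := by rw [pow_mul]; exact le_rfl
    refine fin (mul_le hQ h4) ?_
    omega
  · refine fin (mul_le hQ hn1) ?_
    omega

end Pool.Agent.P.MP_8f87b2_lc.DT
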