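import Pool.Agent.P.MP_8f87b2_lc.DT.Decide
import Pool.Agent.P.MP_8f87b2_lc.DT.Dig
import Pool.Agent.P.MP_8f87b2_lc.DT.Rec
import Pool.Agent.P.MP_8f87b2_lc.DT.Dep
import Pool.Agent.P.MP_8f87b2_lc.DT.EnumC
import Pool.Agent.P.MP_8f87b2_lc.DT.Enum
import Pool.Agent.P.MP_8f87b2_lc.DT.Ori
import Pool.Agent.P.MP_8f87b2_lc.DT.Sum
import Pool.Agent.P.MP_8f87b2_lc.DT.PS
import Pool.Agent.P.MP_8f87b2_lc.DT.Prime
import Pool.Agent.P.MP_8f87b2_lc.DT.Gr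
import Pool.Agent.P.MP_8f87b2_lc.DT.Cnt
import Pool.Agent.P.MP_8f87b2_lc.DT.Th
import Pool.Agent.P.MP_8f87b2_lc.DT.Setup
import Pool.Agent.P.MP_8f87b2_lc.DT.Hash
import Pool.Agent.P.MP_8f87b2_lc.DT.Row
import Pool.Agent.P.MP_8f87b2_lc.DT.Glob
import Pool.Agent.P.MP_8f87b2_lc.DT.Pat
import Pool.Agent.P.MP_8f87b2_lc.DT.Loc
import Pool.Agent.P.MP_8f87b2_lc.DT.Par
import Pool.Agent.P.MP_8f87b2_lc.DT.Enu
import Pool.Agent.P.MP_8f87b2_lc.DT.Level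
import Pool.Agent.P.MP_8f87b2_lc.DT.Desc
import Pool.Agent.P.MP_8f87b2_lc.DT.Greedy
import Pool.Agent.P.MP_8f87b2_lc.DT.Leaf
import Pool.Agent.P.MP_8f87b2_lc.DT.Main

/-!
# The final theorem
-/

namespace Pool.Agent.P.MP_8f87b2_lc.DT

theorem mth : Mth :=
  ⟨sDig, sTop, sRec sDig sTop, sDep sDig, sEnum sEnumC sTop, sEnumC, sOri sDig sTop, sSum sTop,
    sLeafM (sRec sDig sTop) sTop (sSum sTop) sVal, sVal, sGr (sPS sVal) sPrime,
    sGrEnd (sPS sVal)⟩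

theorem decides : DetDecidesInTime (199 / 100) := by
  have hRd : SRd := sRd mth
  have hD : SPDep := sPDep mth
  have hBar : SBar := sBar mth hD
  have hRow : SRow := sRow mth hD hBar
  have hInit : SInit := sInit mth (sHash mth hRd) (sPEnum mth sCopy (sPar mth hBar))
  have hLev : SLevel :=
    sLevel mth sPat (sGlob mth hRow) (sNode mth hD (sLoc mth hD hRow)) sCopy
  have hMain : SMain := sMain mth sSetup (sPres mth hRd) (sGreedy mth hInit hLev) hInit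
    (sDesc mth hLev) (sLeaf mth hRd hBar)
  exact decides_of hMain pMain_wf (fun κ0 d => no_rand (pMain_rd κ0) d) sK0 (sBnd (sTh sCnt))
    (sTime (sTh sCnt))

end Pool.Agent.P.MP_8f87b2_lc.DT
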