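import Pool.Agent.P.MP_8f87b2_lc.DT.Ctx

/-!
# Deterministic 3SUM: the greedy choice of the modulus
-/

namespace Pool.Agent.P.MP_8f87b2_lc.DT

open Finset
open KS (dg enc)
open Cx

namespace GrP

theorem nz_le (c : Cx) (m : ℕ) : c.Nz m ≤ c.n ^ 3 := by
  unfold Nz
  refine (card_filter_le _ _).trans ?_
  rw [card_product, card_product, card_range]
  exact le_of_eq (by ring)

theorem two_le_Q (c : Cx) (h : 1 ≤ c.κ) : 2 ≤ c.Q := by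
  unfold Q
  calc 2 = 2 ^ 1 := by norm_num
    _ ≤ 2 ^ c.κ := Nat.pow_le_pow_right (by norm_num) h

theorem M_eq (c : Cx) {J : ℕ} (hJ : J = 19999) : c.M = c.Q ^ (J + 1) := by
  unfold M Q k
  rw [B_pow, ← pow_mul, ← pow_mul]
  congr 1
  rw [hJ]
  ring

theorem md_of_le (c : Cx) (h : 1 ≤ c.κ) {J m : ℕ} (hJ : J = 19999) (h1 : 1 ≤ m)
    (hm : m ≤ c.Q ^ J) : Md c m := by
  refine ⟨h1, ?_⟩
  rw [M_eq c hJ, pow_succ, mul_comm (c.Q ^ J)]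
  exact Nat.mul_le_mul (two_le_Q c h) hm

theorem pow_ev (K : ℕ) : ∃ κ0 : ℕ, ∀ κ, κ0 ≤ κ → κ ^ K ≤ 2 ^ κ := by
  have h := tendsto_pow_const_div_const_pow_of_one_lt K (r := (2 : ℝ)) (by norm_num)
  have h1 := h.eventually (gt_mem_nhds (show (0 : ℝ) < 1 by norm_num))
  obtain ⟨κ0, hκ⟩ := Filter.eventually_atTop.mp h1
  refine ⟨κ0, fun κ hk => ?_⟩
  have h2 := hκ κ hk
  rw [div_lt_one (by positivity)] at h2
  exact_mod_cast h2.le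

theorem grEnd (h1 : SPS) {J : ℕ} (hJ : J = 19999) (c : Cx) (hI : Inp c)
    (hρ : c.ρ ^ J ≤ 2 ^ c.κ) :
    (∀ j < J, ∀ m p, c.GInv j m → 1 ≤ p → p ≤ c.Q → Md c (m * p)) ∧
    ∀ m, c.GInv J m → Md c m ∧ (¬ c.Yes → c.PS m ≤ c.Bd) := by
  have hκ : 1 ≤ c.κ := le_trans (by norm_num) hI.κ1
  refine ⟨fun j hj m p hG hp hpQ => ?_, fun m hG => ⟨md_of_le c hκ hJ hG.1 hG.2.1, fun hY => ?_⟩⟩
  · refine md_of_le c hκ hJ (Nat.mul_pos hG.1 hp) ?_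
    calc m * p ≤ c.Q ^ j * c.Q := Nat.mul_le_mul hG.2.1 hpQ
      _ = c.Q ^ (j + 1) := (pow_succ _ _).symm
      _ ≤ c.Q ^ J := Nat.pow_le_pow_right c.Q_pos hj
  · obtain ⟨hP, hS⟩ := h1 c hI
    have hS' := hS hY
    rw [hP m hG.1]
    have hn : c.n ≤ 2 ^ (19475 * c.κ) := hI.nN.le
    have e1 : c.Q ^ J = 2 ^ (c.κ * J) := by unfold Q; rw [← pow_mul]
    have a1 : c.Nz m * 2 ^ (c.κ * J) ≤ 2 ^ (38427 * c.κ) * 2 ^ (c.κ * J) := by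
      calc c.Nz m * 2 ^ (c.κ * J) = c.Nz m * c.Q ^ J := by rw [e1]
        _ ≤ c.n ^ 3 * c.ρ ^ J := hG.2.2
        _ ≤ (2 ^ (19475 * c.κ)) ^ 3 * 2 ^ c.κ :=
          Nat.mul_le_mul (Nat.pow_le_pow_left hn 3) hρ
        _ = 2 ^ (38427 * c.κ) * 2 ^ (c.κ * J) := by
          rw [← pow_mul, ← pow_add, ← pow_add]
          congr 1
          rw [hJ]
          ring
    have a2 : c.Nz m ≤ 2 ^ (38427 * c.κ) := Nat.le_of_mul_le_mul_right a1 (by positivity)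
    have a3 : 4 * 2 ^ (19475 * c.κ) ≤ 2 ^ (38427 * c.κ) := by
      calc 4 * 2 ^ (19475 * c.κ) = 2 ^ (19475 * c.κ + 2) := by rw [pow_add]; ring
        _ ≤ 2 ^ (38427 * c.κ) := Nat.pow_le_pow_right (by norm_num) (by omega)
    have a4 : 2 * 2 ^ (38427 * c.κ) ≤ c.Bd := by
      unfold Bd
      calc 2 * 2 ^ (38427 * c.κ) = 2 ^ (38427 * c.κ + 1) := by rw [pow_succ]; ring
        _ ≤ 2 ^ (38428 * c.κ) := Nat.pow_le_pow_right (by norm_num) (by omega)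
    omega

theorem k0 (J : ℕ) : ∃ κ0 : ℕ, 4 ≤ κ0 ∧ ∀ c : Cx, κ0 ≤ c.κ → c.ρ ^ J ≤ 2 ^ c.κ := by
  obtain ⟨κ1, h⟩ := pow_ev (3 * J)
  refine ⟨max κ1 155804, le_trans (by norm_num) (le_max_right _ _), fun c hc => ?_⟩
  have h1 : κ1 ≤ c.κ := le_trans (le_max_left _ _) hc
  have h2 : 155804 ≤ c.κ := le_trans (le_max_right _ _) hc
  have h3 : c.ρ ≤ c.κ ^ 3 := by
    unfold ρ Lb
    have h4 : 77900 * c.κ + 2 ≤ 77902 * c.κ := by omega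
    calc 2 * c.κ * (77900 * c.κ + 2) ≤ 2 * c.κ * (77902 * c.κ) := Nat.mul_le_mul_left _ h4
      _ = 155804 * (c.κ * c.κ) := by ring
      _ ≤ c.κ * (c.κ * c.κ) := Nat.mul_le_mul_right _ h2
      _ = c.κ ^ 3 := by ring
  calc c.ρ ^ J ≤ (c.κ ^ 3) ^ J := Nat.pow_le_pow_left h3 J
    _ = c.κ ^ (3 * J) := by rw [← pow_mul]
    _ ≤ 2 ^ c.κ := h c.κ h1

end GrP

theorem sGr (h1 : SPS) (h2 : SPrime) : SGr := by
  intro c hI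
  refine ⟨⟨le_rfl, by simp, by simpa using GrP.nz_le c 1⟩, ?_⟩
  rintro j m m' ⟨hm1, hmQ, hN⟩ ⟨p, hp1, hpQ, rfl, hmin⟩
  obtain ⟨p0, hq1, hqQ, hq⟩ := h2 c hI m
  have hP := (h1 c hI).1
  have hle := hmin p0 hq1 hqQ
  rw [hP _ (Nat.mul_pos hm1 hp1), hP _ (Nat.mul_pos hm1 hq1)] at hle
  have hle' : c.Nz (m * p) ≤ c.Nz (m * p0) := by omega
  refine ⟨Nat.mul_pos hm1 hp1, ?_, ?_⟩
  · rw [pow_succ]
    exact Nat.mul_le_mul hmQ hpQ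
  · calc c.Nz (m * p) * c.Q ^ (j + 1) = c.Nz (m * p) * c.Q * c.Q ^ j := by ring
      _ ≤ c.Nz (m * p0) * c.Q * c.Q ^ j :=
        Nat.mul_le_mul_right _ (Nat.mul_le_mul_right _ hle')
      _ ≤ c.ρ * c.Nz m * c.Q ^ j := Nat.mul_le_mul_right _ hq
      _ = c.ρ * (c.Nz m * c.Q ^ j) := by ring
      _ ≤ c.ρ * (c.n ^ 3 * c.ρ ^ j) := Nat.mul_le_mul_left _ hN
      _ = c.n ^ 3 * c.ρ ^ (j + 1) := by ring

theorem sGrEnd (h1 : SPS) : SGrEnd := fun c hI hρ => GrP.grEnd h1 rfl c hI hρ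

theorem sK0 : SK0 := GrP.k0 19999

end Pool.Agent.P.MP_8f87b2_lc.DT
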