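import Pool.Agent.P.MP_8f87b2_lc.DT.Ctx

/-!
# Deterministic 3SUM: one level of the descent
-/

namespace Pool.Agent.P.MP_8f87b2_lc.DT

open Finset
open KS (dg enc)
open Cx

namespace LevelP

variable {E : Env} {c : Cx}

theorem card_chO (c : Cx) (m k' z : ℕ) : (c.chO m k' z).card ≤ 2 := by
  unfold Cx.chO Cx.ori
  split_ifs <;> simp

theorem card_bind (c : Cx) (m k' : ℕ) (f : ℕ → ℕ) (p : ℕ) :
    ((ms f p).bind (c.chO m k')).card ≤ 2 * p := by
  induction p with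
  | zero => simp
  | succ p ih =>
    rw [ms_succ, Multiset.add_bind, Multiset.singleton_bind, Multiset.card_add]
    have := card_chO c m k' (f p)
    omega

theorem sum_mono (g f : ℕ → ℕ) {a b : ℕ} (h : a ≤ b) :
    ((ms f a).map g).sum ≤ ((ms f b).map g).sum := by
  obtain ⟨u, hu⟩ := Multiset.le_iff_exists_add.1 (ms_le f h)
  rw [hu, Multiset.map_add, Multiset.sum_add]
  omega

theorem nxt_setv (σ : St) {x : ℕ} (v : ℕ) (hx : 25 ≠ x) : nxt (σ.setv x v) = nxt σ := by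
  simp [nxt, hx]

/-- the contribution of a node to the counter -/
def wgt (c : Cx) (m k' z : ℕ) : ℕ := if c.k1 ≤ k' then c.Z m k' z else 1

theorem sum_le (hM : Mth) (hB : Bnd c E) {m k' len : ℕ} {f : ℕ → ℕ} (hd : Md c m)
    (hk : k' ≤ c.k) (hL : c.LI m k' (ms f len)) (hl : len ≤ c.Θ) :
    ((ms f len).map (wgt c m k')).sum ≤ c.T := by
  have hΘ := hB.lΘ
  have hP := hB.lP
  by_cases h : c.k1 ≤ k'
  · obtain ⟨a1, -, -, a4⟩ := hM.sum c hd hk hL
    have e : wgt c m k' = c.Z m k' := funext fun z => if_pos h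
    rw [e, a1]
    omega
  · have e : wgt c m k' = fun _ => 1 := funext fun z => if_neg h
    rw [e, Multiset.map_const', Multiset.sum_replicate, card_ms, smul_eq_mul]
    omega

/-- the loop over the nodes -/
theorem loop (hM : Mth) (h3 : SNode) (hB : Bnd c E) {σ : St} {t m k' : ℕ} (hl : Lv c m k' σ)
    (hk : 1 ≤ k') (hT : c.k1 ≤ k' → Tab c m k' σ) (h27 : σ.var 27 = if c.k1 ≤ k' then 1 else 0)
    (hL : c.LI m k' (cur σ)) (h24 : σ.var 24 ≤ c.Θ) (h25 : σ.var 25 = 0) (h26 : σ.var 26 = 0) :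
    WP E (forL 35 24 pNode) (fun σ' t' => nxt σ' = (cur σ).bind (c.chO m k') ∧
      σ'.var 26 = ((cur σ).map (wgt c m k')).sum ∧
      t' ≤ t + σ.var 24 * ((if c.k1 ≤ k' then c.tLoc k' else 0) + 25 + 2) + 2) σ t := by
  have hbig := hB.big
  have hΘ := hB.lΘ
  have hΘ1 := hB.Θ1
  have hs := sum_le hM hB hl.hs.md hl.le hL h24
  refine wp_for (σ.var 24) ((if c.k1 ≤ k' then c.tLoc k' else 0) + 25)
    (fun p σ' => Keeps c m k' σ σ' ∧ nxt σ' = (ms (σ.bank 5) p).bind (c.chO m k') ∧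
      σ'.var 26 = ((ms (σ.bank 5) p).map (wgt c m k')).sum)
    [36, 37, 38, 39, 40, 41, 42, 43, 44, 45, 46, 47, 48, 49, 50, 51, 52, 70, 26, 25] [6, 7, 8, 9]
    false (by decide) (by decide) (by decide) (by decide) rfl (by omega) (by omega)
    ⟨Keeps.of_frame (frame_setv σ 35 0) (by decide), by simp [nxt, h25], by simp [h26]⟩ ?_
    fun σ' t' _ hI ht => ⟨hI.2.1, hI.2.2, ht⟩
  rintro p σ' t' hp hF h35 ⟨i1, i2, i3⟩
  have e5 : σ'.bank 5 = σ.bank 5 := hF.bank 5 (by decide)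
  have hz : σ.bank 5 p ∈ cur σ := mem_ms.2 ⟨p, hp, rfl⟩
  have hc := card_bind c m k' (σ.bank 5) p
  rw [← i2, nxt, card_ms] at hc
  have hm := sum_mono (wgt c m k') (σ.bank 5) hp.le
  refine (h3 hB (hl.frame hF (by decide) (by decide)) hk
    (fun h => (hT h).keep hF (by decide) (by decide) i1) ((hF.var 27 (by decide)).trans h27)
    (hL.node _ hz) (by omega) (by rw [e5, h35]) (by omega) (by omega)).mono ?_
  rintro σ'' t'' ⟨a1, a2, a3, a4⟩
  refine ⟨⟨(i1.trans a1).trans (Keeps.of_frame (frame_setv σ'' 35 _) (by decide)), ?_, ?_⟩, a4⟩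
  · rw [nxt_setv _ _ (by decide), a2, i2, ms_succ, Multiset.add_bind, Multiset.singleton_bind]
  · rw [St.setv_var, if_neg (by decide), a3, i3, ms_succ, Multiset.map_add, Multiset.sum_add,
      Multiset.map_singleton, Multiset.sum_singleton, wgt]

/-- the part of a level after the tables -/
theorem tail (hM : Mth) (h3 : SNode) (h4 : SCopy) (hB : Bnd c E) {σ : St} {t m k' : ℕ}
    (hl : Lv c m k' σ) (hk : 1 ≤ k') (hT : c.k1 ≤ k' → Tab c m k' σ)
    (h27 : σ.var 27 = if c.k1 ≤ k' then 1 else 0) (hL : c.LI m k' (cur σ))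
    (h24 : σ.var 24 ≤ c.Θ) :
    WP E (blk [.set 26 (.c 0), .set 25 (.c 0), forL 35 24 pNode, pCopy])
      (fun σ' t' => cur σ' = (cur σ).bind (c.chO m k') ∧ (c.k1 ≤ k' → σ'.var 26 = c.PS m) ∧
        t' ≤ t + ((if c.k1 ≤ k' then σ.var 24 * c.tLoc k' else 0) + σ.var 24 * 40 + 10)) σ t := by
  have hbig := hB.big
  have hΘ := hB.lΘ
  have hΘ1 := hB.Θ1
  simp only [wp_blk_cons, wp_set, wp_blk_nil, Expr.safe, Expr.eval]
  refine ⟨by omega, by omega, ?_⟩
  set σ₁ := (σ.setv 26 0).setv 25 0 with hσ₁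
  have hF₁ : Frame [26, 25] [] false σ σ₁ :=
    ((Frame.refl _ _ _ σ₁).of_setv (by decide)).of_setv (by decide)
  have e24 : σ₁.var 24 = σ.var 24 := hF₁.var 24 (by decide)
  have ec : cur σ₁ = cur σ := by rw [cur, cur, e24, hF₁.bank 5 (by decide)]
  refine (loop hM h3 hB (hl.frame hF₁ (by decide) (by decide)) hk
    (fun h => (hT h).keep hF₁ (by decide) (by decide) (Keeps.of_frame hF₁ (by decide)))
    ((hF₁.var 27 (by decide)).trans h27) (ec ▸ hL) (by omega) (by simp [hσ₁])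
    (by simp [hσ₁])).mono ?_
  rintro σ₂ t₂ ⟨a1, a2, a3⟩
  rw [ec] at a1 a2
  rw [e24] at a3
  have hc := card_bind c m k' (σ.bank 5) (σ.var 24)
  rw [← cur, ← a1, nxt, card_ms] at hc
  refine (h4 hB (by omega)).call [67, 24] [5] false (by decide) ?_
  rintro σ₃ t₃ hF ⟨b1, b2⟩
  refine ⟨b1.trans a1, fun h => ?_, ?_⟩
  · have e : wgt c m k' = c.Z m k' := funext fun z => if_pos h
    rw [hF.var 26 (by decide), a2, e]
    exact (hM.sum c hl.hs.md hl.le hL).1
  · split_ifs at a3 ⊢ with h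
    · rw [Nat.add_assoc (c.tLoc k'), Nat.mul_add] at a3
      omega
    · omega

end LevelP

open LevelP

theorem sLevel (hM : Mth) (h1 : SPat) (h2 : SGlob) (h3 : SNode) (h4 : SCopy) : SLevel := by
  intro E c hB σ t m k' hs h21 hk hk' hL h24
  have hbig := hB.big
  have hT := c.T_pos
  have hA := hB.lA
  have hkA := hB.kA
  have hκ : 23 * c.κ ≤ c.k := by unfold Cx.k; omega
  have hsh : (c.k - k') >>> 4 = (c.k - k') / 16 := by rw [Nat.shiftRight_eq_div_pow]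
  have hlt : (if c.k1 < k' + 1 then 1 else 0 : ℕ) = if c.k1 ≤ k' then 1 else 0 := by
    simp only [Nat.lt_succ_iff]
  unfold pLevel
  rw [wp_blk_cons, wp_set, wp_blk_cons, wp_set]
  simp only [Expr.safe, Expr.eval, BOp.safe, BOp.eval, St.setv_var, h21, hs.par.s0, hs.par.k,
    hs.par.k1, hsh, hlt, true_and, and_true, Nat.reduceEqDiff, if_false]
  refine ⟨by omega, by omega, ?_⟩
  set σ₁ := (σ.setv 22 (23 * c.κ + (c.k - k') / 16)).setv 27 (if c.k1 ≤ k' then 1 else 0)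
    with hσ₁
  have hF₁ : Frame [22, 27] [] false σ σ₁ :=
    ((Frame.refl _ _ _ σ₁).of_setv (by decide)).of_setv (by decide)
  have hl₁ : Lv c m k' σ₁ := ⟨hs.frame hF₁ (by decide) (by decide),
    (hF₁.var 21 (by decide)).trans h21, hk', by simp [hσ₁, Cx.s]⟩
  have e27 : σ₁.var 27 = if c.k1 ≤ k' then 1 else 0 := by simp [hσ₁]
  have e24 : σ₁.var 24 = σ.var 24 := hF₁.var 24 (by decide)
  have ec : cur σ₁ = cur σ := by rw [cur, cur, e24, hF₁.bank 5 (by decide)]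
  rw [wp_blk_cons]
  by_cases h : c.k1 ≤ k'
  · refine wp_iteT trivial (by rw [Expr.eval, e27, if_pos h]; decide) ?_
    rw [wp_blk_cons]
    refine (h1 hB hl₁).call [68, 23, 69, 40, 55, 56, 42, 70] [10] false (by decide) ?_
    rintro σ₂ t₂ hF₂ ⟨a1, a2⟩
    have hl₂ := hl₁.frame hF₂ (by decide) (by decide)
    rw [wp_blk_cons]
    refine (h2 hB hl₂).call [53, 54, 55, 56, 41, 42, 43, 44, 45, 46, 47, 48, 49, 50, 51, 52]
      [7, 8, 9] false (by decide) ?_
    rintro σ₃ t₃ hF₃ ⟨b1, b2⟩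
    rw [wp_blk_nil]
    have hl₃ := hl₂.frame hF₃ (by decide) (by decide)
    have e10 := hF₃.bank 10 (by decide)
    have hp₃ : Pats c k' σ₃ :=
      ⟨(hF₃.var 23 (by decide)).trans a1.len, e10 ▸ a1.mem, e10 ▸ a1.dec, e10 ▸ a1.all⟩
    have f24 : σ₃.var 24 = σ.var 24 :=
      (hF₃.var 24 (by decide)).trans ((hF₂.var 24 (by decide)).trans e24)
    have fc : cur σ₃ = cur σ := by
      rw [← ec, cur, cur, f24, e24, hF₃.bank 5 (by decide), hF₂.bank 5 (by decide)]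
    refine (tail hM h3 h4 hB hl₃ hk (fun _ => ⟨hl₃, hp₃, b1⟩)
      ((hF₃.var 27 (by decide)).trans ((hF₂.var 27 (by decide)).trans e27)) (fc ▸ hL)
      (by omega)).mono ?_
    rintro σ₄ t₄ ⟨d1, d2, d3⟩
    refine ⟨fc ▸ d1, d2, ?_⟩
    rw [f24, if_pos h] at d3
    rw [Cx.tLevel, if_pos h]
    omega
  · refine wp_iteF trivial (by rw [Expr.eval, e27, if_neg h]) ?_
    rw [wp_skip]
    refine (tail hM h3 h4 hB hl₁ hk (fun h' => absurd h' h) e27 (ec ▸ hL) (by omega)).mono ?_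
    rintro σ₄ t₄ ⟨d1, d2, d3⟩
    refine ⟨ec ▸ d1, d2, ?_⟩
    rw [e24, if_neg h] at d3
    rw [Cx.tLevel, if_neg h]
    omega

end Pool.Agent.P.MP_8f87b2_lc.DT
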